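import Mathlib

set_option autoImplicit false

namespace Pool.Agent.Lib.MP_fe96bf_al

open Subgroup

def PiNum (π : Set ℕ) (n : ℕ) : Prop := n ≠ 0 ∧ ∀ p : ℕ, p.Prime → p ∣ n → p ∈ π

theorem PiNum.one (π : Set ℕ) : PiNum π 1 :=
  ⟨one_ne_zero, fun _ hp h => absurd (Nat.dvd_one.mp h) hp.ne_one⟩

theorem PiNum.mul {π : Set ℕ} {m n : ℕ} (hm : PiNum π m) (hn : PiNum π n) : PiNum π (m * n) :=
  ⟨mul_ne_zero hm.1 hn.1, fun p hp h => ((Nat.Prime.dvd_mul hp).mp h).elim (hm.2 p hp) (hn.2 p hp)⟩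

theorem PiNum.of_dvd {π : Set ℕ} {m n : ℕ} (hn : PiNum π n) (h : m ∣ n) : PiNum π m :=
  ⟨fun h0 => hn.1 (by rw [h0] at h; exact Nat.eq_zero_of_zero_dvd h),
    fun p hp hd => hn.2 p hp (hd.trans h)⟩

theorem PiNum.mono {π π' : Set ℕ} {n : ℕ} (hn : PiNum π n) (h : π ⊆ π') : PiNum π' n :=
  ⟨hn.1, fun p hp hd => h (hn.2 p hp hd)⟩

theorem PiNum.coprime {π : Set ℕ} {m n : ℕ} (hm : PiNum π m) (hn : PiNum πᶜ n) :
    Nat.Coprime m n := by
  apply Nat.coprime_of_dvd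
  intro p hp h1 h2
  exact hn.2 p hp h2 (hm.2 p hp h1)

theorem PiNum.pow_prime {π : Set ℕ} {q : ℕ} (hq : q.Prime) (hqπ : q ∈ π) (k : ℕ) :
    PiNum π (q ^ k) :=
  ⟨pow_ne_zero _ hq.ne_zero, fun p hp h => by
    have := (Nat.prime_dvd_prime_iff_eq hp hq).mp (hp.dvd_of_dvd_pow h)
    rwa [this]⟩

theorem PiNum.eq_pow {q n : ℕ} (hn : PiNum {q} n) : ∃ k, n = q ^ k :=
  ⟨_, Nat.eq_prime_pow_of_unique_prime_dvd hn.1 (fun hp hd => hn.2 _ hp hd)⟩

variable {G : Type*} [Group G] {G' : Type*} [Group G']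

theorem eq_one_of_pow {π : Set ℕ} {x : G} {m n : ℕ} (hm : PiNum π m) (hn : PiNum πᶜ n)
    (h1 : x ^ m = 1) (h2 : x ^ n = 1) : x = 1 := by
  have h := hm.coprime hn
  have : orderOf x ∣ Nat.gcd m n :=
    Nat.dvd_gcd (orderOf_dvd_of_pow_eq_one h1) (orderOf_dvd_of_pow_eq_one h2)
  rw [h] at this
  exact orderOf_eq_one_iff.mp (Nat.dvd_one.mp this)

def Sec (π : Set ℕ) (A B : Subgroup G) : Prop := ∀ x ∈ B, ∃ n, PiNum π n ∧ x ^ n ∈ A

variable {π : Set ℕ}

theorem Sec.mono {A A' B B' : Subgroup G} (h : Sec π A B) (hA : A ≤ A') (hB : B' ≤ B) :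
    Sec π A' B' := fun x hx => by
  obtain ⟨n, hn, hxn⟩ := h x (hB hx)
  exact ⟨n, hn, hA hxn⟩

theorem Sec.monoPi {π' : Set ℕ} {A B : Subgroup G} (h : Sec π A B) (hπ : π ⊆ π') :
    Sec π' A B := fun x hx => by
  obtain ⟨n, hn, hxn⟩ := h x hx
  exact ⟨n, hn.mono hπ, hxn⟩

theorem Sec.of_le {A B : Subgroup G} (h : B ≤ A) : Sec π A B :=
  fun x hx => ⟨1, PiNum.one π, by simpa using h hx⟩

theorem Sec.trans {A B C : Subgroup G} (h1 : Sec π A B) (h2 : Sec π B C) : Sec π A C :=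
  fun x hx => by
  obtain ⟨n, hn, hxn⟩ := h2 x hx
  obtain ⟨m, hm, hxm⟩ := h1 _ hxn
  exact ⟨n * m, hn.mul hm, by rwa [pow_mul]⟩

theorem Sec.comap {A B : Subgroup G'} (h : Sec π A B) (f : G →* G') :
    Sec π (A.comap f) (B.comap f) := fun x hx => by
  obtain ⟨n, hn, hxn⟩ := h (f x) hx
  exact ⟨n, hn, by simpa using hxn⟩

theorem Sec.map {A B : Subgroup G} (h : Sec π A B) (f : G →* G') :
    Sec π (A.map f) (B.map f) := by
  rintro _ ⟨x, hx, rfl⟩
  obtain ⟨n, hn, hxn⟩ := h x hx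
  exact ⟨n, hn, x ^ n, hxn, by simp⟩

theorem Sec.map_bot {B : Subgroup G} (h : Sec π ⊥ B) (f : G →* G') :
    Sec π ⊥ (B.map f) := by
  simpa using h.map f

theorem Sec.comap_bot {B : Subgroup G'} (h : Sec π ⊥ B) {f : G →* G'}
    (hf : Function.Injective f) : Sec π ⊥ (B.comap f) := by
  have := h.comap f
  rwa [MonoidHom.comap_bot, (MonoidHom.ker_eq_bot_iff f).mpr hf] at this

theorem Sec.inf {A B A' B' : Subgroup G} (h : Sec π A B) (h' : Sec π A' B') :
    Sec π (A ⊓ A') (B ⊓ B') := fun x hx => by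
  obtain ⟨n, hn, hxn⟩ := h x hx.1
  obtain ⟨m, hm, hxm⟩ := h' x hx.2
  refine ⟨n * m, hn.mul hm, ?_, ?_⟩
  · rw [pow_mul]; exact A.pow_mem hxn m
  · rw [mul_comm, pow_mul]; exact A'.pow_mem hxm n

theorem mem_sup_iff_of_norm {N U : Subgroup G} (hU : U ≤ normalizer (N : Set G)) {x : G} :
    x ∈ U ⊔ N ↔ ∃ u ∈ U, ∃ n ∈ N, x = u * n := by
  constructor
  · intro hx
    have : x ∈ ((U ⊔ N : Subgroup G) : Set G) := hx
    rw [coe_mul_of_left_le_normalizer_right U N hU] at this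
    obtain ⟨u, hu, n, hn, rfl⟩ := this
    exact ⟨u, hu, n, hn, rfl⟩
  · rintro ⟨u, hu, n, hn, rfl⟩
    exact mul_mem_sup hu hn

theorem pow_mul_mem_of_norm {N : Subgroup G} {u n : G} (hu : u ∈ normalizer (N : Set G))
    (hn : n ∈ N) (k : ℕ) : ∃ m ∈ N, (u * n) ^ k = u ^ k * m := by
  induction k with
  | zero => exact ⟨1, N.one_mem, by simp⟩
  | succ k ih =>
    obtain ⟨m, hm, h⟩ := ih
    refine ⟨u⁻¹ * m * u * n, N.mul_mem ?_ hn, ?_⟩
    · exact (mem_normalizer_iff''.mp hu m).mp hm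
    · rw [pow_succ, h, pow_succ]; group

theorem Sec.sup_of_norm {N U : Subgroup G} (hU : U ≤ normalizer (N : Set G))
    (h : Sec π N U) : Sec π N (U ⊔ N) := fun x hx => by
  obtain ⟨u, hu, n, hn, rfl⟩ := (mem_sup_iff_of_norm hU).mp hx
  obtain ⟨k, hk, huk⟩ := h u hu
  obtain ⟨m, hm, h⟩ := pow_mul_mem_of_norm (hU hu) hn k
  exact ⟨k, hk, by rw [h]; exact N.mul_mem huk hm⟩

theorem le_norm_of_normal (U N : Subgroup G) [hN : N.Normal] : U ≤ normalizer (N : Set G) := by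
  rw [normalizer_eq_top_iff.mpr hN]; exact le_top

theorem Sec.sup_normal {N U : Subgroup G} [N.Normal] (h : Sec π N U) : Sec π N (U ⊔ N) :=
  h.sup_of_norm (le_norm_of_normal U N)

theorem Sec.sup_bot {N U : Subgroup G} (hU : U ≤ normalizer (N : Set G))
    (h : Sec π ⊥ U) (hN : Sec π ⊥ N) : Sec π ⊥ (U ⊔ N) :=
  hN.trans ((h.mono bot_le le_rfl).sup_of_norm hU)

theorem Sec.eq_one {A B : Subgroup G} (hA : Sec π ⊥ A) (hB : Sec πᶜ ⊥ B) {x : G}
    (h1 : x ∈ A) (h2 : x ∈ B) : x = 1 := by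
  obtain ⟨m, hm, hxm⟩ := hA x h1
  obtain ⟨n, hn, hxn⟩ := hB x h2
  exact eq_one_of_pow hm hn (mem_bot.mp hxm) (mem_bot.mp hxn)

theorem Sec.mem_of_both {A B C : Subgroup G} (hB : Sec π A B) (hC : Sec πᶜ A C) {x : G}
    (h1 : x ∈ B) (h2 : x ∈ C) : x ∈ A := by
  obtain ⟨m, hm, hxm⟩ := hB x h1
  obtain ⟨n, hn, hxn⟩ := hC x h2
  have h := Nat.gcd_eq_gcd_ab m n
  rw [hm.coprime hn] at h
  have : x = (x ^ m) ^ (Nat.gcdA m n) * (x ^ n) ^ (Nat.gcdB m n) := by
    rw [← zpow_natCast, ← zpow_natCast, ← zpow_mul, ← zpow_mul, ← zpow_add, ← h]; simp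
  rw [this]
  exact A.mul_mem (A.zpow_mem hxm _) (A.zpow_mem hxn _)

theorem commute_of_sec {A B : Subgroup G} (hA : Sec π ⊥ A) (hB : Sec πᶜ ⊥ B)
    (h1 : A ≤ normalizer (B : Set G)) (h2 : B ≤ normalizer (A : Set G)) {a b : G}
    (ha : a ∈ A) (hb : b ∈ B) : a * b = b * a := by
  have : a * b * a⁻¹ * b⁻¹ = 1 := by
    apply Sec.eq_one hA hB
    · have := le_normalizer_iff.mp h2 b hb a⁻¹ (A.inv_mem ha)
      have h3 := A.mul_mem ha this
      simpa [mul_assoc] using h3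
    · exact B.mul_mem (le_normalizer_iff.mp h1 a ha b hb) (B.inv_mem hb)
  calc a * b = (a * b * a⁻¹ * b⁻¹) * (b * a) := by group
    _ = b * a := by rw [this, one_mul]

theorem sec_iff_relIndex [Finite G] {A B : Subgroup G} [A.Normal] :
    Sec π A B ↔ PiNum π (A.relIndex B) := by
  constructor
  · intro h
    refine ⟨(A.subgroupOf B).index_ne_zero_of_finite, fun p hp hd => ?_⟩
    have : Fact p.Prime := ⟨hp⟩
    obtain ⟨y, hy⟩ := exists_prime_orderOf_dvd_card' (G := B ⧸ A.subgroupOf B) p hd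
    obtain ⟨x, rfl⟩ := QuotientGroup.mk_surjective y
    obtain ⟨n, hn, hxn⟩ := h x x.2
    apply hn.2 p hp
    rw [← hy]
    apply orderOf_dvd_of_pow_eq_one
    rw [← QuotientGroup.mk_pow, QuotientGroup.eq_one_iff]
    simpa [mem_subgroupOf] using hxn
  · intro h x hx
    exact ⟨_, h, A.pow_relIndex_mem hx⟩

theorem sec_bot_iff_card [Finite G] {B : Subgroup G} : Sec π ⊥ B ↔ PiNum π (Nat.card B) := by
  rw [sec_iff_relIndex, relIndex_bot_left]

theorem Sec.isPGroup {q : ℕ} {B : Subgroup G} (h : Sec {q} ⊥ B) : IsPGroup q B := by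
  intro x
  obtain ⟨n, hn, hxn⟩ := h x x.2
  obtain ⟨k, rfl⟩ := hn.eq_pow
  exact ⟨k, Subtype.ext (by simpa using hxn)⟩

theorem sec_of_isPGroup {q : ℕ} (hq : q.Prime) (hqπ : q ∈ π) {B : Subgroup G}
    (h : IsPGroup q B) : Sec π ⊥ B := by
  intro x hx
  obtain ⟨k, hk⟩ := h ⟨x, hx⟩
  exact ⟨q ^ k, PiNum.pow_prime hq hqπ k, by simpa [Subtype.ext_iff] using hk⟩

theorem norm_commutator {T X Y : Subgroup G} (hX : T ≤ normalizer (X : Set G))
    (hY : T ≤ normalizer (Y : Set G)) : T ≤ normalizer ((⁅X, Y⁆ : Subgroup G) : Set G) := by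
  intro t ht
  rw [mem_normalizer_iff_map_conj_eq, map_commutator]
  rw [mem_normalizer_iff_map_conj_eq.mp (hX ht), mem_normalizer_iff_map_conj_eq.mp (hY ht)]

theorem norm_sup {T X Y : Subgroup G} (hX : T ≤ normalizer (X : Set G))
    (hY : T ≤ normalizer (Y : Set G)) : T ≤ normalizer ((X ⊔ Y : Subgroup G) : Set G) := by
  intro t ht
  rw [mem_normalizer_iff_map_conj_eq, Subgroup.map_sup]
  rw [mem_normalizer_iff_map_conj_eq.mp (hX ht), mem_normalizer_iff_map_conj_eq.mp (hY ht)]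

theorem norm_inf {T X Y : Subgroup G} (hX : T ≤ normalizer (X : Set G))
    (hY : T ≤ normalizer (Y : Set G)) : T ≤ normalizer ((X ⊓ Y : Subgroup G) : Set G) :=
  le_normalizer_iff.mpr fun t ht x hx =>
    ⟨le_normalizer_iff.mp hX t ht x hx.1, le_normalizer_iff.mp hY t ht x hx.2⟩

def dser (H : Subgroup G) : ℕ → Subgroup G
  | 0 => H
  | n + 1 => ⁅dser H n, dser H n⁆

theorem dser_succ_le (H : Subgroup G) (n : ℕ) : dser H (n + 1) ≤ dser H n :=
  commutator_le.mpr fun _ ha _ hb =>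
    (dser H n).mul_mem ((dser H n).mul_mem ((dser H n).mul_mem ha hb) ((dser H n).inv_mem ha))
      ((dser H n).inv_mem hb)

theorem dser_le (H : Subgroup G) (n : ℕ) : dser H n ≤ H := by
  induction n with
  | zero => exact le_rfl
  | succ n ih => exact (dser_succ_le H n).trans ih

theorem dser_mono {H K : Subgroup G} (h : H ≤ K) (n : ℕ) : dser H n ≤ dser K n := by
  induction n with
  | zero => exact h
  | succ n ih => exact commutator_mono ih ih

theorem map_dser (H : Subgroup G) (f : G →* G') (n : ℕ) :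
    (dser H n).map f = dser (H.map f) n := by
  induction n with
  | zero => rfl
  | succ n ih => simp only [dser, map_commutator, ih]

theorem norm_dser {T H : Subgroup G} (h : T ≤ normalizer (H : Set G)) (n : ℕ) :
    T ≤ normalizer ((dser H n : Subgroup G) : Set G) := by
  induction n with
  | zero => exact h
  | succ n ih => exact norm_commutator ih ih

theorem conj_mem_dser {H : Subgroup G} {n : ℕ} {h x : G} (hh : h ∈ H) (hx : x ∈ dser H n) :
    h * x * h⁻¹ ∈ dser H n :=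
  le_normalizer_iff.mp (norm_dser le_normalizer n) h hh x hx

theorem dser_eq_map (H : Subgroup G) (n : ℕ) :
    dser H n = (derivedSeries H n).map H.subtype := by
  induction n with
  | zero => simp [dser, ← MonoidHom.range_eq_map]
  | succ n ih => simp only [dser, derivedSeries_succ, map_commutator, ih]

def DL (π : Set ℕ) (d : ℕ) (G : Type*) [Group G] : Prop :=
  ∀ U : Subgroup G, Sec π ⊥ U → dser U d = ⊥

theorem DL.of_injective {d : ℕ} (h : DL π d G') (f : G →* G') (hf : Function.Injective f) :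
    DL π d G := fun U hU => by
  have := h _ (hU.map_bot f)
  rw [← map_dser] at this
  exact (map_eq_bot_iff_of_injective _ hf).mp this

def Sol (π : Set ℕ) (G : Type*) [Group G] : Prop :=
  ∃ m : ℕ, ∃ S : ℕ → Subgroup G, S 0 = ⊥ ∧ S m = ⊤ ∧ (∀ i, (S i).Normal) ∧
    ∀ i < m, Sec πᶜ (S i) (S (i + 1)) ∨ ∃ q ∈ π, q.Prime ∧ Sec {q} (S i) (S (i + 1))

theorem Sol.of_injective (h : Sol π G') (f : G →* G') (hf : Function.Injective f) :
    Sol π G := by
  obtain ⟨m, S, h0, hm, hN, hS⟩ := h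
  refine ⟨m, fun i => (S i).comap f, ?_, ?_, fun i => (hN i).comap f, fun i hi => ?_⟩
  · simp only [h0, MonoidHom.comap_bot]; exact (MonoidHom.ker_eq_bot_iff f).mpr hf
  · simp [hm]
  · rcases hS i hi with h | ⟨q, hq, hq', h⟩
    · exact Or.inl (h.comap f)
    · exact Or.inr ⟨q, hq, hq', h.comap f⟩

theorem Sol.of_surjective (h : Sol π G) (f : G →* G') (hf : Function.Surjective f) :
    Sol π G' := by
  obtain ⟨m, S, h0, hm, hN, hS⟩ := h
  refine ⟨m, fun i => (S i).map f, ?_, ?_, fun i => (hN i).map f hf, fun i hi => ?_⟩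
  · simp [h0]
  · simp only [hm]; exact map_top_of_surjective f hf
  · rcases hS i hi with h | ⟨q, hq, hq', h⟩
    · exact Or.inl (h.map f)
    · exact Or.inr ⟨q, hq, hq', h.map f⟩

theorem Sol.subgroup (h : Sol π G) (K : Subgroup G) : Sol π K :=
  h.of_injective K.subtype K.subtype_injective

theorem Sol.quotient (h : Sol π G) (N : Subgroup G) [N.Normal] : Sol π (G ⧸ N) :=
  h.of_surjective (QuotientGroup.mk' N) (QuotientGroup.mk'_surjective N)

theorem Sol.exists_bottom (h : Sol π G) (hG : (⊥ : Subgroup G) ≠ ⊤) :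
    ∃ N : Subgroup G, N.Normal ∧ N ≠ ⊥ ∧
      (Sec πᶜ ⊥ N ∨ ∃ q ∈ π, q.Prime ∧ Sec {q} ⊥ N) := by
  classical
  obtain ⟨m, S, h0, hm, hN, hS⟩ := h
  have hex : ∃ i, S i ≠ ⊥ := ⟨m, by rw [hm]; exact hG.symm⟩
  have h1 := Nat.find_spec hex
  have h2 : Nat.find hex ≤ m := Nat.find_min' hex (by rw [hm]; exact hG.symm)
  obtain ⟨j, hj⟩ : ∃ j, Nat.find hex = j + 1 := by
    apply Nat.exists_eq_succ_of_ne_zero
    intro h; rw [h] at h1; exact h1 h0
  have h3 : S j = ⊥ := by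
    have := Nat.find_min hex (m := j) (by omega)
    simpa using this
  rw [hj] at h1 h2
  refine ⟨S (j + 1), hN _, h1, ?_⟩
  have := hS j (by omega)
  rwa [h3] at this

def Len (π : Set ℕ) : ℕ → Subgroup G → Prop
  | 0, N => Sec πᶜ N ⊤
  | d + 1, N => ∃ M P : Subgroup G, M.Normal ∧ P.Normal ∧ Sec πᶜ N M ∧ Sec π M P ∧ Len π d P

theorem Len.absorb {d : ℕ} {N N' : Subgroup G} (h : Len π d N') (hN : Sec πᶜ N N') :
    Len π d N := by
  cases d with
  | zero => exact hN.trans h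
  | succ d =>
    obtain ⟨M, P, h1, h2, h3, h4, h5⟩ := h
    exact ⟨M, P, h1, h2, hN.trans h3, h4, h5⟩

theorem Len.mono {d : ℕ} {N N' : Subgroup G} (h : Len π d N) (hN : N ≤ N') : Len π d N' :=
  h.absorb (Sec.of_le hN)

theorem Len.inf {d : ℕ} : ∀ {N N' : Subgroup G}, Len π d N → Len π d N' → Len π d (N ⊓ N') := by
  induction d with
  | zero => intro N N' h h'; simpa [Len] using Sec.inf h h'
  | succ d ih =>
    rintro N N' ⟨M, P, h1, h2, h3, h4, h5⟩ ⟨M', P', h1', h2', h3', h4', h5'⟩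
    exact ⟨M ⊓ M', P ⊓ P', inferInstance, inferInstance, h3.inf h3', h4.inf h4', ih h5 h5'⟩

theorem Len.comap {d : ℕ} (f : G →* G') :
    ∀ {N : Subgroup G'}, Len π d N → Len π d (N.comap f) := by
  induction d with
  | zero => intro N h; simpa [Len] using Sec.comap h f
  | succ d ih =>
    rintro N ⟨M, P, h1, h2, h3, h4, h5⟩
    exact ⟨M.comap f, P.comap f, h1.comap f, h2.comap f, h3.comap f, h4.comap f, ih h5⟩

theorem Len.map {d : ℕ} (f : G →* G') (hf : Function.Surjective f) :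
    ∀ {N : Subgroup G}, Len π d N → Len π d (N.map f) := by
  induction d with
  | zero =>
    intro N h
    have := Sec.map h f
    rwa [map_top_of_surjective f hf] at this
  | succ d ih =>
    rintro N ⟨M, P, h1, h2, h3, h4, h5⟩
    exact ⟨M.map f, P.map f, h1.map f hf, h2.map f hf, h3.map f, h4.map f, ih h5⟩

theorem Len.top (d : ℕ) : Len π d (⊤ : Subgroup G) := by
  induction d with
  | zero => exact Sec.of_le le_rfl
  | succ d ih =>
    exact ⟨⊤, ⊤, inferInstance, inferInstance, Sec.of_le le_rfl, Sec.of_le le_rfl, ih⟩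

theorem Len.succ_of_sec {d : ℕ} {P : Subgroup G} [P.Normal] (h : Sec π ⊥ P) (hP : Len π d P) :
    Len π (d + 1) (⊥ : Subgroup G) :=
  ⟨⊥, P, inferInstance, inferInstance, Sec.of_le le_rfl, h, hP⟩

theorem Len.succ_le {d : ℕ} {N : Subgroup G} [N.Normal] (h : Len π (d + 1) N) :
    ∃ M P : Subgroup G, M.Normal ∧ P.Normal ∧ N ≤ M ∧ M ≤ P ∧ Sec πᶜ N M ∧ Sec π M P ∧
      Len π d P := by
  obtain ⟨M, P, h1, h2, h3, h4, h5⟩ := h
  refine ⟨M ⊔ N, P ⊔ (M ⊔ N), inferInstance, inferInstance, le_sup_right, le_sup_right,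
    h3.sup_normal, (h4.mono le_sup_left le_rfl).sup_normal, h5.mono le_sup_left⟩

theorem Len.of_quotient {d : ℕ} {N : Subgroup G} [N.Normal]
    (h : Len π d (⊥ : Subgroup (G ⧸ N))) : Len π d N := by
  have := h.comap (QuotientGroup.mk' N)
  rwa [MonoidHom.comap_bot, QuotientGroup.ker_mk'] at this

theorem Len.series {d : ℕ} : ∀ (N : Subgroup G) [N.Normal], Len π d N →
    ∃ T : ℕ → Subgroup G, T 0 = N ∧ (∀ i, 2 * d + 1 ≤ i → T i = ⊤) ∧ (∀ i, T i ≤ T (i + 1)) ∧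
      (∀ i, (T i).Normal) ∧ (∀ i ≤ d, Sec πᶜ (T (2 * i)) (T (2 * i + 1))) ∧
      (∀ i < d, Sec π (T (2 * i + 1)) (T (2 * i + 2))) := by
  induction d with
  | zero =>
    intro N hN h
    refine ⟨fun i => if i = 0 then N else ⊤, by simp, fun i hi => ?_, fun i => by simp,
      fun i => ?_, fun i hi => ?_, fun i hi => by omega⟩
    · have : i ≠ 0 := by omega
      simp [this]
    · by_cases h : i = 0 <;> simp [h, hN]
    · obtain rfl : i = 0 := by omega
      simpa [Len] using h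
  | succ d ih =>
    intro N hN h
    obtain ⟨M, P, h1, h2, h3, h4, h5, h6, h7⟩ := h.succ_le
    obtain ⟨T, t0, t1, t2, t3, t4, t5⟩ := ih P h7
    refine ⟨fun i => match i with | 0 => N | 1 => M | i + 2 => T i, rfl, fun i hi => ?_,
      fun i => ?_, fun i => ?_, fun i hi => ?_, fun i hi => ?_⟩
    · obtain ⟨j, rfl⟩ : ∃ j, i = j + 2 := ⟨i - 2, by omega⟩
      exact t1 j (by omega)
    · match i with
      | 0 => exact h3
      | 1 => show M ≤ T 0; rw [t0]; exact h4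
      | i + 2 => exact t2 i
    · match i with
      | 0 => exact hN
      | 1 => exact h1
      | i + 2 => exact t3 i
    · match i with
      | 0 => exact h5
      | i + 1 => exact t4 i (by omega)
    · match i with
      | 0 => show Sec π M (T 0); rw [t0]; exact h6
      | i + 1 => exact t5 i (by omega)

end Pool.Agent.Lib.MP_fe96bf_al
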