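import Pool.Agent.Lib.MP_fe96bf_al.Odd

set_option autoImplicit false
set_option linter.unusedSectionVars false

namespace Pool.Agent.Lib.MP_fe96bf_al

open Subgroup
open scoped commutatorElement

theorem commutator_ne_of_pgroup {G : Type*} [Group G] [Finite G] {q : ℕ} (hq : q.Prime)
    {Q : Subgroup G} (h : IsPGroup q Q) (hne : Q ≠ ⊥) : ⁅Q, Q⁆ ≠ Q := by
  have : Fact q.Prime := ⟨hq⟩
  have := h.isNilpotent
  have : Nontrivial Q := (Subgroup.nontrivial_iff_ne_bot Q).mpr hne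
  have h1 := Group.IsSolvable.commutator_lt_top_of_nontrivial Q
  intro e
  apply h1.ne
  apply map_injective Q.subtype_injective
  rw [commutator_def, map_commutator, ← MonoidHom.range_eq_map, Subgroup.range_subtype, e]

theorem norm_centralizer {G : Type*} [Group G] {T : Subgroup G} {X : Set G}
    (h : ∀ t ∈ T, ∀ x ∈ X, t * x * t⁻¹ ∈ X) : T ≤ normalizer (centralizer X : Set G) := by
  rw [le_normalizer_iff]
  intro t ht c hc
  rw [mem_centralizer_iff] at hc ⊢
  intro x hx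
  have := hc _ (h _ (T.inv_mem ht) x hx)
  calc x * (t * c * t⁻¹) = t * (t⁻¹ * x * t⁻¹⁻¹ * c) * t⁻¹ := by group
    _ = t * c * t⁻¹ * x := by rw [this]; group

variable {L : Type} [Group L] [Finite L] {k V : Type} [Field k] [AddCommGroup V] [Module k V]
variable {ρ : L →* Module.End k V} {π : Set ℕ}

theorem core [IsAlgClosed k] [FiniteDimensional k V] {p : ℕ} (hp : p.Prime) [CharP k p]
    (hpπ : p ∈ π) (hf : Function.Injective ρ) {H T P Q0 P' : Subgroup L}
    {F : ℕ → Submodule k V} (hF : Chain ρ H F) {m : ℕ} (hm : F (m + 2) = ⊥) (hHT : H ≤ T)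
    (hPH : P ≤ H) (hTP : T ≤ normalizer (P : Set L)) (hTQ : T ≤ normalizer (Q0 : Set L))
    (hH : Sec π ⊥ H) (hQ0 : Sec πᶜ ⊥ Q0) {q : ℕ} (hq : q.Prime) (hqQ : IsPGroup q Q0)
    (hP' : P' ≤ P) (hP'd : P' ≤ dser H m) (hHP' : H ≤ normalizer (P' : Set L))
    (hmin : ∀ Y ≤ P, T ≤ normalizer (Y : Set L) → ⁅P', dser H m⁆ ≤ Y → P ≤ Y) :
    P ≤ centralizer (Q0 : Set L) := by
  have := Fintype.ofFinite L
  by_contra hcon
  obtain ⟨Q, ⟨hQQ0, hTQ', hPQ⟩, hQmin⟩ := exists_minimal_of_wellFoundedLT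
    (fun Q : Subgroup L => Q ≤ Q0 ∧ T ≤ normalizer (Q : Set L) ∧ ¬ P ≤ centralizer (Q : Set L))
    ⟨Q0, le_rfl, hTQ, hcon⟩
  have small : ∀ Q' ≤ Q, Q' ≠ Q → T ≤ normalizer (Q' : Set L) → P ≤ centralizer (Q' : Set L) := by
    intro Q' h1 h2 h3
    by_contra h4
    exact h2 (le_antisymm h1 (hQmin ⟨h1.trans hQQ0, h3, h4⟩ h1))
  have hQ : Sec πᶜ ⊥ Q := hQ0.mono le_rfl hQQ0
  have cH := sec_bot_iff_card.mp hH
  have cQ := sec_bot_iff_card.mp hQ
  have hcopH : Nat.Coprime (Nat.card H) (Nat.card Q) := cH.coprime cQ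
  have hpQ : ¬ p ∣ Nat.card Q := fun h => cQ.2 p hp h hpπ
  have hQk : ((Nat.card Q : ℕ) : k) ≠ 0 := fun h => hpQ ((CharP.cast_eq_zero_iff k p _).mp h)
  have hPT := hPH.trans hHT
  have hPQn : P ≤ normalizer (Q : Set L) := hPT.trans hTQ'
  have hHQ : H ≤ normalizer (Q : Set L) := hHT.trans hTQ'
  have hPQle : ⁅P, Q⁆ ≤ Q := le_normalizer_iff_commutator_le_right.mp hPQn
  have hPQeq : ⁅P, Q⁆ = Q := by
    by_contra hne
    have h1 := small _ hPQle hne (norm_commutator hTP hTQ')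
    apply hPQ
    intro w hw
    rw [mem_centralizer_iff]
    intro x hx
    have h2 : yy w x ∈ ⁅P, Q⁆ := by
      have := commutator_mem_commutator (P.inv_mem hw) (Q.inv_mem hx)
      simpa [commutatorElement_def, yy] using this
    have h3 := fixfree hcopH (a := w) (x := x)
      (congrArg Subtype.val (pow_card_eq_one' (G := H) (x := ⟨w, hPH hw⟩)))
      (congrArg Subtype.val (pow_card_eq_one' (G := Q) (x := ⟨_, hPQle h2⟩)))
      (mem_centralizer_iff.mp (h1 hw) _ h2).symm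
    exact (yy_eq_one_iff.mp h3).eq.symm
  have hQne : Q ≠ ⊥ := by
    rintro rfl
    exact hPQ fun w _ => by simp [mem_centralizer_iff]
  have hQQ : ⁅Q, Q⁆ ≤ Q := dser_succ_le Q 0
  have hPQ' := small _ hQQ (commutator_ne_of_pgroup hq (hqQ.to_le hQQ0) hQne)
    (norm_commutator hTQ' hTQ')
  have hc : Cls2 Q := by
    have h1 : ⁅⁅Q, Q⁆, P⁆ = ⊥ := by
      rw [Subgroup.commutator_comm]; exact commutator_eq_bot_iff_le_centralizer.mpr hPQ'
    have h2 : ⁅⁅P, Q⁆, ⁅Q, Q⁆⁆ = ⊥ := by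
      apply commutator_commutator_eq_bot_of_rotate
      · rw [eq_bot_iff, ← h1]
        exact commutator_mono (le_normalizer_iff_commutator_le_right.mp
          (norm_commutator le_normalizer le_normalizer)) le_rfl
      · rw [h1]; simp
    rw [hPQeq, commutator_eq_bot_iff_le_centralizer] at h2
    intro x hx y hy z hz
    exact mem_centralizer_iff.mp (h2 hz) _ (commutator_mem_commutator hx hy)
  have hAP : ⁅P', dser H m⁆ ≤ P :=
    (commutator_mono hP' le_rfl).trans (le_normalizer_iff_commutator_le_left.mp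
      ((dser_le H m).trans (hHT.trans hTP)))
  have hAd : ⁅P', dser H m⁆ ≤ dser H (m + 1) := commutator_mono hP'd le_rfl
  have hHA : H ≤ normalizer ((⁅P', dser H m⁆ : Subgroup L) : Set L) :=
    norm_commutator hHP' (norm_dser le_normalizer m)
  have hPz : ∀ w ∈ P, ∀ z, Cen Q z → w * z * w⁻¹ = z := by
    have : P ≤ P ⊓ centralizer {z | Cen Q z} := by
      apply hmin _ inf_le_left
      · apply norm_inf hTP
        apply norm_centralizer
        intro t ht z hz
        refine ⟨le_normalizer_iff.mp hTQ' t ht z hz.1, fun y hy => ?_⟩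
        have := hz.2 _ ((mem_normalizer_iff''.mp (hTQ' ht) y).mp hy)
        calc t * z * t⁻¹ * y = t * (z * (t⁻¹ * y * t)) * t⁻¹ := by group
          _ = y * (t * z * t⁻¹) := by rw [this]; group
      · refine le_inf hAP fun a ha => ?_
        rw [mem_centralizer_iff]
        intro z hz
        exact (mul_inv_eq_iff_eq_mul.mp
          (centralizes_center hF hm hHQ hQk hf (hAd ha) hz.1 hz.2)).symm
    intro w hw z hz
    exact mul_inv_eq_iff_eq_mul.mpr (mem_centralizer_iff.mp (this hw).2 z hz).symm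
  suffices hA : ∀ a ∈ ⁅P', dser H m⁆, ∀ x ∈ Q, a * x * a⁻¹ = x by
    apply hPQ
    refine le_trans (hmin (P ⊓ centralizer (Q : Set L)) inf_le_left
      (norm_inf hTP (norm_centralizer (le_normalizer_iff.mp hTQ'))) ?_) inf_le_right
    refine le_inf hAP fun a ha => ?_
    rw [mem_centralizer_iff]
    intro x hx
    exact (mul_inv_eq_iff_eq_mul.mp (hA a ha x hx)).symm
  rcases hp.eq_two_or_odd' with rfl | hodd
  · have hoddQ : Odd (Nat.card Q) := by
      rw [← Nat.not_even_iff_odd, even_iff_two_dvd]; exact hpQ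
    have hqd : ∀ a ∈ ⁅P', dser H m⁆, ∀ b ∈ ⁅P', dser H m⁆, a ∈ Kfix ρ b := by
      intro a ha b hb v
      have := hF.quad (m + 1) (hAd hb) (hAd ha) v
      rwa [hm, Submodule.mem_bot, sub_eq_zero] at this
    have cj : ∀ w ∈ T, ∀ x ∈ Q, w * x * w⁻¹ ∈ Q := le_normalizer_iff.mp hTQ'
    let Y1 : Subgroup L :=
      { carrier := {w | w ∈ P ∧ ∀ w' ∈ P, ∀ x ∈ Q,
          w * (w' * x * w'⁻¹) * w⁻¹ = w' * (w * x * w⁻¹) * w'⁻¹}
        one_mem' := ⟨P.one_mem, by simp⟩
        mul_mem' := fun {a b} ha hb => ⟨P.mul_mem ha.1 hb.1, fun w hw x hx => by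
          calc a * b * (w * x * w⁻¹) * (a * b)⁻¹ = a * (b * (w * x * w⁻¹) * b⁻¹) * a⁻¹ := by group
            _ = w * (a * (b * x * b⁻¹) * a⁻¹) * w⁻¹ := by
              rw [hb.2 w hw x hx, ha.2 w hw _ (cj b (hPT hb.1) x hx)]
            _ = w * (a * b * x * (a * b)⁻¹) * w⁻¹ := by group⟩
        inv_mem' := fun {a} ha => ⟨P.inv_mem ha.1, fun w hw x hx => by
          have := ha.2 w hw _ (cj _ (hPT (P.inv_mem ha.1)) x hx)
          calc a⁻¹ * (w * x * w⁻¹) * a⁻¹⁻¹
              = a⁻¹ * (w * (a * (a⁻¹ * x * a⁻¹⁻¹) * a⁻¹) * w⁻¹) * a := by group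
            _ = w * (a⁻¹ * x * a⁻¹⁻¹) * w⁻¹ := by rw [← this]; group⟩ }
    have hY1 : P ≤ Y1 := by
      apply hmin Y1 (fun _ h => h.1)
      · rw [le_normalizer_iff]
        intro t ht w hw
        refine ⟨le_normalizer_iff.mp hTP t ht w hw.1, fun w' hw' x hx => ?_⟩
        have := hw.2 _ ((mem_normalizer_iff''.mp (hTP ht) w').mp hw') _
          ((mem_normalizer_iff''.mp (hTQ' ht) x).mp hx)
        calc t * w * t⁻¹ * (w' * x * w'⁻¹) * (t * w * t⁻¹)⁻¹
            = t * (w * (t⁻¹ * w' * t * (t⁻¹ * x * t) * (t⁻¹ * w' * t)⁻¹) * w⁻¹) * t⁻¹ := by group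
          _ = w' * (t * w * t⁻¹ * x * (t * w * t⁻¹)⁻¹) * w'⁻¹ := by rw [this]; group
      · intro a ha
        refine ⟨hAP ha, fun w hw x hx => ?_⟩
        rw [← step_b hf hc hoddQ hAP (hPH.trans hHA) hPQn hPz hqd ha hw (cj w (hPT hw) x hx)]
        group
    let Y2 : Subgroup L :=
      { carrier := {w | w ∈ P ∧ ∀ x ∈ Q, w * (w * x * w⁻¹) * w⁻¹ = x}
        one_mem' := ⟨P.one_mem, by simp⟩
        mul_mem' := fun {a b} ha hb => ⟨P.mul_mem ha.1 hb.1, fun x hx => by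
          calc a * b * (a * b * x * (a * b)⁻¹) * (a * b)⁻¹
              = a * (b * (a * (b * x * b⁻¹) * a⁻¹) * b⁻¹) * a⁻¹ := by group
            _ = x := by
              rw [(hY1 hb.1).2 a ha.1 _ (cj b (hPT hb.1) x hx), hb.2 x hx, ha.2 x hx]⟩
        inv_mem' := fun {a} ha => ⟨P.inv_mem ha.1, fun x hx => by
          nth_rewrite 1 [← ha.2 x hx]; group⟩ }
    have hY2 : P ≤ Y2 := by
      apply hmin Y2 (fun _ h => h.1)
      · rw [le_normalizer_iff]
        intro t ht w hw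
        refine ⟨le_normalizer_iff.mp hTP t ht w hw.1, fun x hx => ?_⟩
        have := hw.2 _ ((mem_normalizer_iff''.mp (hTQ' ht) x).mp hx)
        calc t * w * t⁻¹ * (t * w * t⁻¹ * x * (t * w * t⁻¹)⁻¹) * (t * w * t⁻¹)⁻¹
            = t * (w * (w * (t⁻¹ * x * t) * w⁻¹) * w⁻¹) * t⁻¹ := by group
          _ = x := by rw [this]; group
      · intro a ha
        refine ⟨hAP ha, fun x _ => ?_⟩
        have := sq_of_Kfix hf (hqd a ha a ha)
        calc a * (a * x * a⁻¹) * a⁻¹ = (a * a) * x * (a * a)⁻¹ := by group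
          _ = x := by rw [this]; group
    exact even_main hf hc hoddQ hF hm hHQ (hHT.trans hTP)
      ⟨hPQn, hPz, fun w hw => (hY2 hw).2, fun w hw => (hY1 hw).2⟩ hAP hAd hHA hP' le_rfl
  · intro a ha
    exact odd_main hodd hf hc hF hm hHQ hQk ((Nat.Prime.coprime_iff_not_dvd hp).mpr hpQ) hcopH a
      (hAd ha)

end Pool.Agent.Lib.MP_fe96bf_al
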