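import Pool.Agent.Lib.MP_fe96bf_al.Wreath

set_option autoImplicit false
set_option linter.unusedSectionVars false

namespace Pool.Agent.Lib.MP_fe96bf_al

open Subgroup Polynomial
open scoped commutatorElement

variable {L : Type} [Group L] [Fintype L] {k V : Type} [Field k] [AddCommGroup V] [Module k V]

open Classical in
noncomputable def fsum (f : L → Module.End k V) (X : Set L) : Module.End k V :=
  ∑ x ∈ Finset.univ.filter (· ∈ X), f x

open Classical in
theorem fsum_apply (f : L → Module.End k V) (X : Set L) (v : V) :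
    fsum f X v = ∑ x ∈ Finset.univ.filter (· ∈ X), f x v := by
  simp [fsum, LinearMap.sum_apply]

theorem fsum_bij {f g : L → Module.End k V} {X Y : Set L} (e : L ≃ L)
    (h : ∀ x, x ∈ X ↔ e x ∈ Y) (hf : ∀ x ∈ X, f x = g (e x)) : fsum f X = fsum g Y := by
  classical
  unfold fsum
  apply Finset.sum_equiv e
  · intro x; simpa using h x
  · intro x hx; exact hf x (by simpa using hx)

theorem mul_fsum (a : Module.End k V) (f : L → Module.End k V) (X : Set L) :
    a * fsum f X = fsum (fun x => a * f x) X := by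
  simp [fsum, Finset.mul_sum]

theorem fsum_mul (a : Module.End k V) (f : L → Module.End k V) (X : Set L) :
    fsum f X * a = fsum (fun x => f x * a) X := by
  simp [fsum, Finset.sum_mul]

theorem fsum_apply_congr {f g : L → Module.End k V} {X : Set L} {v w : V}
    (h : ∀ x ∈ X, f x v = g x w) : fsum f X v = fsum g X w := by
  classical
  rw [fsum_apply, fsum_apply]
  exact Finset.sum_congr rfl fun x hx => h x (by simpa using hx)

theorem fsum_apply_const {f : L → Module.End k V} {X : Set L} {v w : V}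
    (h : ∀ x ∈ X, f x v = w) : fsum f X v = (Nat.card X : k) • w := by
  classical
  rw [fsum_apply, Finset.sum_congr rfl fun x hx => h x (by simpa using hx)]
  rw [Finset.sum_const, Nat.cast_smul_eq_nsmul]
  congr 1
  rw [Nat.card_eq_fintype_card, Fintype.card_subtype]

theorem fsum_mem {f : L → Module.End k V} {X : Set L} {v : V} {W : Submodule k V}
    (h : ∀ x ∈ X, f x v ∈ W) : fsum f X v ∈ W := by
  classical
  rw [fsum_apply]
  exact W.sum_mem fun x hx => h x (by simpa using hx)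

open Classical in
noncomputable def kap (ρ : L →* Module.End k V) (Q : Subgroup L) (x : L) : Module.End k V :=
  if x ∈ Q then fsum (fun y => ρ (y * x * y⁻¹)) Q else 0

variable {ρ : L →* Module.End k V} {Q : Subgroup L}

theorem kap_conj {g : L} (hg : g ∈ normalizer (Q : Set L)) (x : L) :
    ρ g * kap ρ Q x = kap ρ Q (g * x * g⁻¹) * ρ g := by
  unfold kap
  by_cases hx : x ∈ Q
  · rw [if_pos hx, if_pos ((mem_normalizer_iff.mp hg x).mp hx), mul_fsum, fsum_mul]
    apply fsum_bij (MulAut.conj g).toEquiv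
    · intro y; exact mem_normalizer_iff.mp hg y
    · intro y _
      rw [← map_mul, ← map_mul]
      congr 1
      simp only [MulEquiv.toEquiv_eq_coe, EquivLike.coe_coe, MulAut.conj_apply]
      group
  · rw [if_neg hx, if_neg (fun h => hx ((mem_normalizer_iff.mp hg x).mpr h))]; simp

theorem kap_class {g : L} (hg : g ∈ Q) (x : L) : kap ρ Q (g * x * g⁻¹) = kap ρ Q x := by
  unfold kap
  have hn := mem_normalizer_iff.mp (le_normalizer hg) x
  by_cases hx : x ∈ Q
  · rw [if_pos hx, if_pos (hn.mp hx)]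
    apply fsum_bij (Equiv.mulRight g)
    · intro y; simp [Q.mul_mem_cancel_right hg]
    · intro y _
      congr 1
      simp only [Equiv.coe_mulRight]
      group
  · rw [if_neg hx, if_neg (fun h => hx (hn.mpr h))]

theorem kap_comm_rho {g : L} (hg : g ∈ Q) (x : L) : Commute (kap ρ Q x) (ρ g) := by
  have := kap_conj (ρ := ρ) (le_normalizer hg) x
  rw [kap_class hg] at this
  exact this.symm

theorem kap_comm (x y : L) : Commute (kap ρ Q x) (kap ρ Q y) := by
  by_cases hy : y ∈ Q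
  · have : kap ρ Q y = fsum (fun z => ρ (z * y * z⁻¹)) Q := by unfold kap; rw [if_pos hy]
    rw [this]
    classical
    apply Commute.sum_right
    intro z hz
    have hz' : z ∈ Q := by simpa using hz
    exact kap_comm_rho (Q.mul_mem (Q.mul_mem hz' hy) (Q.inv_mem hz')) x
  · have : kap ρ Q y = 0 := by unfold kap; rw [if_neg hy]
    rw [this]; exact Commute.zero_right _

noncomputable def Vmu (ρ : L →* Module.End k V) (Q : Subgroup L) (μ : L → k) : Submodule k V :=
  ⨅ x, (kap ρ Q x).maxGenEigenspace (μ x)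

def actf {α : Type} (g : L) (μ : L → α) : L → α := fun x => μ (g⁻¹ * x * g)

omit [Fintype L] in
theorem actf_one {α : Type} (μ : L → α) : actf 1 μ = μ := by
  ext x; simp [actf]

omit [Fintype L] in
theorem actf_mul {α : Type} (a b : L) (μ : L → α) : actf (a * b) μ = actf a (actf b μ) := by
  ext x; simp [actf, mul_assoc]

theorem Vmu_conj {g : L} (hg : g ∈ normalizer (Q : Set L)) (μ : L → k) (v : V)
    (hv : v ∈ Vmu ρ Q μ) : ρ g v ∈ Vmu ρ Q (actf g μ) := by
  simp only [Vmu, Submodule.mem_iInf, Module.End.mem_maxGenEigenspace] at hv ⊢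
  intro x
  obtain ⟨n, hn⟩ := hv (g⁻¹ * x * g)
  refine ⟨n, ?_⟩
  have h1 := kap_conj (ρ := ρ) hg (g⁻¹ * x * g)
  have e : g * (g⁻¹ * x * g) * g⁻¹ = x := by group
  rw [e] at h1
  have h2 : SemiconjBy (ρ g) (kap ρ Q (g⁻¹ * x * g) - μ (g⁻¹ * x * g) • 1)
      (kap ρ Q x - actf g μ x • 1) := by
    unfold SemiconjBy
    rw [mul_sub, sub_mul, h1]
    simp [actf]
  have h3 := (h2.pow_right n).eq
  have h4 := LinearMap.congr_fun h3 v
  simp only [Module.End.mul_apply] at h4
  rw [← h4, hn, map_zero]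

theorem Vmu_inv {g : L} (hg : g ∈ Q) (μ : L → k) (v : V) (hv : v ∈ Vmu ρ Q μ) :
    ρ g v ∈ Vmu ρ Q μ := by
  simp only [Vmu, Submodule.mem_iInf] at hv ⊢
  intro x
  exact Module.End.mapsTo_maxGenEigenspace_of_comm (kap_comm_rho hg x) _ (hv x)

theorem Vmu_disjoint (μ : L → k) : Disjoint (Vmu ρ Q μ) (rest (Vmu ρ Q) μ) := by
  have := Module.End.independent_iInf_maxGenEigenspace_of_forall_mapsTo (kap ρ Q)
    (fun i j φ => Module.End.mapsTo_maxGenEigenspace_of_comm (kap_comm j i) φ) μ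
  refine this.mono_right ?_
  apply rest_le
  intro μ' h
  exact le_iSup₂_of_le μ' h le_rfl

theorem Vmu_top [IsAlgClosed k] [FiniteDimensional k V] : ⨆ μ, Vmu ρ Q μ = ⊤ :=
  Module.End.iSup_iInf_maxGenEigenspace_eq_top_of_iSup_maxGenEigenspace_eq_top_of_commute
    (kap ρ Q) (fun i j _ => kap_comm i j)
    (fun _ => Module.End.iSup_maxGenEigenspace_eq_top _)

omit [Fintype L] in
theorem rho_semisimple [FiniteDimensional k V] (hQ : (Nat.card Q : k) ≠ 0) {x : L} (hx : x ∈ Q) :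
    (ρ x).IsFinitelySemisimple := by
  apply Module.End.IsSemisimple.isFinitelySemisimple
  apply Module.End.isSemisimple_of_squarefree_aeval_eq_zero
    (X_pow_sub_one_separable_iff.mpr hQ).squarefree
  have : x ^ Nat.card Q = 1 := by
    have := pow_card_eq_one' (G := Q) (x := ⟨x, hx⟩)
    exact congrArg Subtype.val this
  rw [map_sub, map_pow, aeval_X, map_one, ← map_pow, this, map_one, sub_self]

theorem Vmu_scalar [FiniteDimensional k V] (hQ : (Nat.card Q : k) ≠ 0) (μ : L → k) {x : L}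
    (hx : x ∈ Q) (h : ∀ y ∈ Q, ∀ v ∈ Vmu ρ Q μ, ρ x (ρ y v) = ρ y (ρ x v)) :
    ∃ s : k, ∀ v ∈ Vmu ρ Q μ, ρ x v = s • v := by
  set c : k := ((Nat.card Q : ℕ) : k) with hc
  refine ⟨c⁻¹ * μ x, fun v hv => ?_⟩
  have h1 : ∀ w ∈ Vmu ρ Q μ, kap ρ Q x w = c • ρ x w := by
    intro w hw
    unfold kap
    rw [if_pos hx]
    apply fsum_apply_const
    intro y hy
    rw [rho_mul, rho_mul, ← h y hy _ (Vmu_inv (Q.inv_mem hy) μ w hw), rho_rho_inv]
  have h2 : ∀ n : ℕ, ∀ w ∈ Vmu ρ Q μ, ((kap ρ Q x - μ x • 1) ^ n) w =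
      c ^ n • ((ρ x - (c⁻¹ * μ x) • 1) ^ n) w := by
    intro n
    induction n with
    | zero => intro w _; simp
    | succ n ih =>
      intro w hw
      have e : (kap ρ Q x - μ x • 1) w = c • (ρ x - (c⁻¹ * μ x) • 1) w := by
        simp only [LinearMap.sub_apply, LinearMap.smul_apply, Module.End.one_apply, h1 w hw,
          smul_sub, smul_smul]
        rw [← mul_assoc, mul_inv_cancel₀ hQ, one_mul]
      have hm : (ρ x - (c⁻¹ * μ x) • 1) w ∈ Vmu ρ Q μ := by
        simp only [LinearMap.sub_apply, LinearMap.smul_apply, Module.End.one_apply]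
        exact Submodule.sub_mem _ (Vmu_inv hx μ w hw) (Submodule.smul_mem _ _ hw)
      rw [pow_succ, pow_succ, pow_succ, Module.End.mul_apply, Module.End.mul_apply, e, map_smul,
        ih _ hm, smul_smul, mul_comm]
  have hv' := hv
  simp only [Vmu, Submodule.mem_iInf, Module.End.mem_maxGenEigenspace] at hv'
  obtain ⟨n, hn⟩ := hv' x
  rw [h2 n v hv] at hn
  have h3 : v ∈ (ρ x).maxGenEigenspace (c⁻¹ * μ x) := by
    rw [Module.End.mem_maxGenEigenspace]
    exact ⟨n, (smul_eq_zero.mp hn).resolve_left (pow_ne_zero _ hQ)⟩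
  rw [(rho_semisimple hQ hx).maxGenEigenspace_eq_eigenspace] at h3
  exact Module.End.mem_eigenspace_iff.mp h3

structure Comp (ρ : L →* Module.End k V) (Q : Subgroup L) (W Wc : Submodule k V) : Prop where
  disj : Disjoint W Wc
  codis : W ⊔ Wc = ⊤
  invW : ∀ x ∈ Q, ∀ v ∈ W, ρ x v ∈ W
  invC : ∀ x ∈ Q, ∀ v ∈ Wc, ρ x v ∈ Wc
  sc : ∀ x ∈ Q, (∀ y ∈ Q, ∀ v ∈ W, ρ x (ρ y v) = ρ y (ρ x v)) → ∃ s : k, ∀ v ∈ W, ρ x v = s • v

theorem exists_comp [IsAlgClosed k] [FiniteDimensional k V] {H : Subgroup L}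
    {F : ℕ → Submodule k V} (hF : Chain ρ H F) {m : ℕ} (hm : F (m + 2) = ⊥)
    (hH : H ≤ normalizer (Q : Set L)) (hQ : (Nat.card Q : k) ≠ 0) {x : L} (hx : ρ x ≠ 1) :
    ∃ W Wc : Submodule k V, Comp ρ Q W Wc ∧ (∃ v ∈ W, ρ x v ≠ v) ∧
      (∀ a ∈ dser H (m + 1), ∀ v ∈ W, ρ a v ∈ W) ∧
      ((∃ a ∈ dser H (m + 1), ∃ v ∈ W, ρ a v ≠ v) → ∀ b ∈ dser H m, ∀ v ∈ W, ρ b v ∈ W) := by
  obtain ⟨μ, v, hv, hxv⟩ : ∃ μ, ∃ v ∈ Vmu ρ Q μ, ρ x v ≠ v := by
    by_contra hcon
    push Not at hcon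
    apply hx
    have : (⊤ : Submodule k V) ≤ LinearMap.ker (ρ x - 1) := by
      rw [← Vmu_top (ρ := ρ) (Q := Q)]
      apply iSup_le
      intro μ v hv
      simp [hcon μ v hv]
    ext v
    have := this (Submodule.mem_top (x := v))
    simpa [sub_eq_zero] using this
  have hperm : ∀ h ∈ H, ∀ μ, ∀ v ∈ Vmu ρ Q μ, ρ h v ∈ Vmu ρ Q (actf h μ) :=
    fun h hh μ v hv => Vmu_conj (hH hh) μ v hv
  have hA : ∀ a ∈ dser H (m + 1), actf a μ = μ := by
    apply wreath hF (m + 1) (L → k) actf actf_one actf_mul (Vmu ρ Q) hperm μ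
    rw [hm, bot_sup_eq]
    intro hle
    have : v = 0 := (Submodule.disjoint_def.mp (Vmu_disjoint μ)) v hv (hle hv)
    apply hxv
    rw [this, map_zero]
  have hAW : ∀ a ∈ dser H (m + 1), ∀ v ∈ Vmu ρ Q μ, ρ a v ∈ Vmu ρ Q μ := by
    intro a ha v hv
    have := hperm a (dser_le H _ ha) μ v hv
    rwa [hA a ha] at this
  refine ⟨Vmu ρ Q μ, rest (Vmu ρ Q) μ, ⟨Vmu_disjoint μ, ?_, fun x hx => Vmu_inv hx μ, ?_,
    fun x hx => Vmu_scalar hQ μ hx⟩, ⟨v, hv, hxv⟩, hAW, ?_⟩
  · rw [eq_top_iff, ← Vmu_top (ρ := ρ) (Q := Q)]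
    apply iSup_le
    intro μ'
    by_cases h : μ' = μ
    · rw [h]; exact le_sup_left
    · exact (le_rest _ h).trans le_sup_right
  · intro y hy
    show rest (Vmu ρ Q) μ ≤ (rest (Vmu ρ Q) μ).comap (ρ y)
    apply rest_le
    intro μ' h w hw
    exact le_rest _ h (Vmu_inv hy μ' w hw)
  · rintro ⟨a, ha, w, hw, haw⟩ b hb u hu
    have hB : actf b μ = μ := by
      apply wreath hF m (L → k) actf actf_one actf_mul (Vmu ρ Q) hperm μ _ b hb
      intro hle
      have hle2 : F (m + 1) ⊔ rest (Vmu ρ Q) μ ≤ (rest (Vmu ρ Q) μ).comap (ρ a - 1) := by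
        apply sup_le
        · intro z hz
          have := hF.step (m + 1) a ha z hz
          rw [hm, Submodule.mem_bot] at this
          show ρ a z - z ∈ rest (Vmu ρ Q) μ
          rw [this]; exact Submodule.zero_mem _
        · apply rest_le
          intro μ' h z hz
          refine Submodule.sub_mem _ (le_rest _ ?_ (hperm a (dser_le H _ ha) μ' z hz))
            (le_rest _ h hz)
          intro h2
          apply h
          have h3 := hA a⁻¹ ((dser H (m + 1)).inv_mem ha)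
          rw [← h3, ← h2, ← actf_mul, inv_mul_cancel, actf_one]
      have h4 : ρ a w - w ∈ rest (Vmu ρ Q) μ := hle2 (hle hw)
      have := (Submodule.disjoint_def.mp (Vmu_disjoint μ)) _
        (Submodule.sub_mem _ (hAW a ha w hw) hw) h4
      exact haw (sub_eq_zero.mp this)
    have := hperm b (dser_le H _ hb) μ u hu
    rwa [hB] at this

theorem centralizes_center [IsAlgClosed k] [FiniteDimensional k V] {H : Subgroup L}
    {F : ℕ → Submodule k V} (hF : Chain ρ H F) {m : ℕ} (hm : F (m + 2) = ⊥)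
    (hH : H ≤ normalizer (Q : Set L)) (hQ : (Nat.card Q : k) ≠ 0)
    (hfaith : Function.Injective ρ) {a z : L} (ha : a ∈ dser H (m + 1)) (hz : z ∈ Q)
    (hzc : ∀ y ∈ Q, z * y = y * z) : a * z * a⁻¹ = z := by
  by_contra hne
  have h1 : ρ (a * z * a⁻¹ * z⁻¹) ≠ 1 := by
    intro h
    rw [← map_one ρ] at h
    exact hne (mul_inv_eq_one.mp (hfaith h))
  obtain ⟨W, Wc, hC, ⟨v, hv, hxv⟩, hA, -⟩ := exists_comp hF hm hH hQ h1
  obtain ⟨s, hs⟩ := hC.sc z hz (fun y hy v _ => by rw [← rho_mul, ← rho_mul, hzc y hy])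
  apply hxv
  have h2 := hC.invW _ (Q.inv_mem hz) v hv
  rw [rho_mul, rho_mul, rho_mul, hs _ (hA _ ((dser H (m + 1)).inv_mem ha) _ h2), map_smul,
    rho_rho_inv, ← hs _ h2, rho_rho_inv]

end Pool.Agent.Lib.MP_fe96bf_al
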