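import Pool.Agent.Lib.MP_fe96bf_al.Weights

set_option autoImplicit false
set_option linter.unusedSectionVars false

namespace Pool.Agent.Lib.MP_fe96bf_al

open Subgroup
open scoped commutatorElement

variable {L : Type} [Group L] [Fintype L] {k V : Type} [Field k] [AddCommGroup V] [Module k V]
variable {ρ : L →* Module.End k V} {Q : Subgroup L} {W Wc : Submodule k V}

def cm (ρ : L →* Module.End k V) (W : Submodule k V) (x y : L) : Prop :=
  ∀ v ∈ W, ρ x (ρ y v) = ρ y (ρ x v)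

theorem cm.symm {x y : L} (h : cm ρ W x y) : cm ρ W y x := fun v hv => (h v hv).symm

theorem cm_of_comm {x y : L} (h : x * y = y * x) : cm ρ W x y := fun v _ => by
  rw [← rho_mul, ← rho_mul, h]

def cmSub (hC : Comp ρ Q W Wc) (x : L) : Subgroup L where
  carrier := {y | y ∈ Q ∧ cm ρ W x y}
  one_mem' := ⟨Q.one_mem, cm_of_comm (by simp)⟩
  mul_mem' := fun {a b} ha hb => ⟨Q.mul_mem ha.1 hb.1, fun v hv => by
    rw [rho_mul, rho_mul, ha.2 _ (hC.invW b hb.1 v hv), hb.2 v hv]⟩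
  inv_mem' := fun {a} ha => ⟨Q.inv_mem ha.1, fun v hv => by
    have := ha.2 _ (hC.invW _ (Q.inv_mem ha.1) v hv)
    rw [rho_rho_inv] at this
    rw [this, rho_inv_rho]⟩

theorem exists_beta (hC : Comp ρ Q W Wc) (hc : Cls2 Q) {x y : L} (hx : x ∈ Q) (hy : y ∈ Q) :
    ∃ β : k, ∀ v ∈ W, ρ x (ρ y v) = β • ρ y (ρ x v) := by
  have hz := hc.cen hx hy
  obtain ⟨s, hs⟩ := hC.sc _ hz.1 (fun z hz' => cm_of_comm (hz.2 z hz'))
  refine ⟨s, fun v hv => ?_⟩
  rw [← hs _ (hC.invW y hy _ (hC.invW x hx v hv)), ← rho_mul, ← rho_mul, ← rho_mul]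
  congr 2
  rw [commutatorElement_def]; group

theorem exists_beta_ne (hC : Comp ρ Q W Wc) (hc : Cls2 Q) {x y : L} (hx : x ∈ Q) (hy : y ∈ Q)
    (h : ¬ cm ρ W x y) : ∃ β : k, β ≠ 1 ∧ ∀ v ∈ W, ρ x (ρ y v) = β • ρ y (ρ x v) := by
  obtain ⟨β, hβ⟩ := exists_beta hC hc hx hy
  refine ⟨β, fun h1 => h fun v hv => ?_, hβ⟩
  rw [hβ v hv, h1, one_smul]

theorem eq_zero_of_smul {β : k} (hβ : β ≠ 1) {v : V} (h : v = β • v) : v = 0 := by
  have : (1 - β) • v = 0 := by rw [sub_smul, one_smul, ← h, sub_self]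
  exact (smul_eq_zero.mp this).resolve_left (sub_ne_zero.mpr hβ.symm)

structure MaxIso (ρ : L →* Module.End k V) (W : Submodule k V) (J U : Set L) : Prop where
  sub : U ⊆ J
  pair : ∀ u ∈ U, ∀ u' ∈ U, cm ρ W u u'
  max : ∀ x ∈ J, (∀ u ∈ U, cm ρ W x u) → x ∈ U

theorem exists_maxIso (ρ : L →* Module.End k V) (W : Submodule k V) (J : Set L) :
    ∃ U, MaxIso ρ W J U := by
  obtain ⟨U, -, hU⟩ := Finite.exists_le_maximal
    (p := fun U : Set L => U ⊆ J ∧ ∀ u ∈ U, ∀ u' ∈ U, cm ρ W u u') (a := ∅) (by simp)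
  refine ⟨U, hU.1.1, hU.1.2, fun x hx h => ?_⟩
  refine hU.2 (y := insert x U) ⟨Set.insert_subset hx hU.1.1, ?_⟩ (Set.subset_insert _ _)
    (Set.mem_insert _ _)
  rintro u (rfl | hu) u' (rfl | hu')
  · exact fun _ _ => rfl
  · exact h _ hu'
  · exact (h _ hu).symm
  · exact hU.1.2 _ hu _ hu'

theorem fsum_rho_mul {Y : Subgroup L} {g : L} (hg : g ∈ Y) : fsum ρ Y * ρ g = fsum ρ Y := by
  rw [fsum_mul]
  apply fsum_bij (Equiv.mulRight g)
  · intro x; simp [Y.mul_mem_cancel_right hg]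
  · intro x _; simp

theorem rho_mul_fsum {Y : Subgroup L} {g : L} (hg : g ∈ Y) : ρ g * fsum ρ Y = fsum ρ Y := by
  rw [mul_fsum]
  apply fsum_bij (Equiv.mulLeft g)
  · intro x; simp [Y.mul_mem_cancel_left hg]
  · intro x _; simp

theorem sig_mul {R t : Set L} {y : L} (hy : y ∈ Jw Q R t) :
    fsum ρ (Jw Q R t) * ρ y = ρ y⁻¹ * fsum ρ (Jw Q R t) := by
  rw [mul_fsum, fsum_mul]
  apply fsum_bij ((Equiv.mulLeft y).trans (Equiv.mulRight y))
  · intro x
    simp only [Equiv.trans_apply, Equiv.coe_mulLeft, Equiv.coe_mulRight]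
    refine ⟨fun hx => Jw_pal hy hx, fun hx => ?_⟩
    have := Jw_pal (Jw_inv hy) hx
    simpa [mul_assoc] using this
  · intro x _
    simp only [Equiv.trans_apply, Equiv.coe_mulLeft, Equiv.coe_mulRight]
    rw [← map_mul, ← map_mul]
    congr 1
    group

def FixS (ρ : L →* Module.End k V) (X : Set L) : Submodule k V where
  carrier := {v | ∀ u ∈ X, ρ u v = v}
  zero_mem' := fun u _ => map_zero _
  add_mem' := fun {a b} ha hb u hu => by rw [map_add, ha u hu, hb u hu]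
  smul_mem' := fun c {a} ha u hu => by rw [map_smul, ha u hu]

theorem fix_closure {X : Set L} {v : V} (hv : v ∈ FixS ρ X) {y : L} (hy : y ∈ closure X) :
    ρ y v = v := by
  induction hy using closure_induction with
  | mem x hx => exact hv x hx
  | one => exact rho_one ρ v
  | mul x y _ _ h1 h2 => rw [rho_mul, h2, h1]
  | inv x _ h => nth_rewrite 1 [← h]; rw [rho_inv_rho]

theorem inv_closure {X : Set L} {V' : Submodule k V} (h : ∀ x ∈ X, ∀ v ∈ V', ρ x v ∈ V')
    (hi : ∀ x ∈ X, x⁻¹ ∈ X) {y : L} (hy : y ∈ closure X) : ∀ v ∈ V', ρ y v ∈ V' := by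
  have : (∀ v ∈ V', ρ y v ∈ V') ∧ ∀ v ∈ V', ρ y⁻¹ v ∈ V' := by
    induction hy using closure_induction with
    | mem x hx => exact ⟨h x hx, h _ (hi x hx)⟩
    | one => simp
    | mul x y _ _ h1 h2 =>
      refine ⟨fun v hv => ?_, fun v hv => ?_⟩
      · rw [rho_mul]; exact h1.1 _ (h2.1 v hv)
      · rw [mul_inv_rev, rho_mul]; exact h2.2 _ (h1.2 v hv)
    | inv x _ h => exact ⟨h.2, by rw [inv_inv]; exact h.1⟩
  exact this.1

variable [CharP k 2]

theorem card_cast_one (hodd : Odd (Nat.card Q)) {X : Set L} (hX : X ⊆ Q) (h1 : (1 : L) ∈ X)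
    (hi : ∀ x ∈ X, x⁻¹ ∈ X) : ((Nat.card X : ℕ) : k) = 1 := by
  classical
  have e : Nat.card X = (Finset.univ.filter (· ∈ X)).card := by
    rw [Nat.card_eq_fintype_card, Fintype.card_subtype]
  have h0 : ∑ x ∈ (Finset.univ.filter (· ∈ X)).erase 1, (1 : k) = 0 := by
    refine Finset.sum_involution (fun x _ => x⁻¹) ?_ ?_ ?_ ?_
    · intro _ _; exact add_self_char2 (k := k) (1 : k)
    · intro x hx _ h
      simp only [Finset.mem_erase, Finset.mem_filter, Finset.mem_univ, true_and] at hx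
      exact hx.1 (eq_one_of_sq hodd (hX hx.2) (by nth_rewrite 1 [← h]; simp))
    · intro x hx
      simp only [Finset.mem_erase, Finset.mem_filter, Finset.mem_univ, true_and] at hx ⊢
      exact ⟨fun h => hx.1 (inv_eq_one.mp h), hi x hx.2⟩
    · intro x _; simp
  have h2 := Finset.add_sum_erase (Finset.univ.filter (· ∈ X)) (fun _ => (1 : k))
    (a := 1) (by simpa using h1)
  rw [h0, add_zero, Finset.sum_const, nsmul_eq_mul, mul_one] at h2
  rw [e, ← h2]

theorem fsum_apply_eq (hodd : Odd (Nat.card Q)) {f : L → Module.End k V} {X : Set L} (hX : X ⊆ Q)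
    (h1 : (1 : L) ∈ X) (hi : ∀ x ∈ X, x⁻¹ ∈ X) {v w : V} (h : ∀ x ∈ X, f x v = w) :
    fsum f X v = w := by
  rw [fsum_apply_const h, card_cast_one hodd hX h1 hi, one_smul]

theorem fsum_apply_sub (hodd : Odd (Nat.card Q)) {f : L → Module.End k V} {X Y : Set L}
    (hXY : X ⊆ Y) (hX : X ⊆ Q) (h1 : (1 : L) ∈ X) (hi : ∀ x ∈ X, x⁻¹ ∈ X) {v w : V}
    (h : ∀ x ∈ X, f x v = w) (h0 : ∀ x ∈ Y, x ∉ X → f x v = 0) : fsum f Y v = w := by
  classical
  rw [← fsum_apply_eq hodd hX h1 hi h, fsum_apply, fsum_apply]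
  symm
  apply Finset.sum_subset
  · intro x hx
    simp only [Finset.mem_filter, Finset.mem_univ, true_and] at hx ⊢
    exact hXY hx
  · intro x hx hx'
    simp only [Finset.mem_filter, Finset.mem_univ, true_and] at hx hx'
    exact h0 x hx hx'

theorem fsum_fix (hodd : Odd (Nat.card Q)) {Y : Subgroup L} (hY : Y ≤ Q) {v : V}
    (h : ∀ y ∈ Y, ρ y v = v) : fsum ρ Y v = v :=
  fsum_apply_eq hodd hY Y.one_mem (fun _ hx => Y.inv_mem hx) h

theorem eq_one_of_sq_char2 {s : k} (h : s * s = 1) : s = 1 := by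
  have h2 : (s - 1) * (s - 1) = 0 := by
    have : (2 : k) = 0 := CharP.cast_eq_zero k 2
    linear_combination h + (1 - s) * this
  exact sub_eq_zero.mp (mul_self_eq_zero.mp h2)

section
variable {R t U : Set L}

theorem MaxIso.inv_mem (hC : Comp ρ Q W Wc) (hU : MaxIso ρ W (Jw Q R t) U) {u : L} (hu : u ∈ U) :
    u⁻¹ ∈ U :=
  hU.max _ (Jw_inv (hU.sub hu)) fun u' hu' =>
    ((cmSub hC u').inv_mem ⟨(hU.sub hu).1, hU.pair u' hu' u hu⟩).2.symm

theorem MaxIso.one_mem (hU : MaxIso ρ W (Jw Q R t) U) : (1 : L) ∈ U :=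
  hU.max _ Jw_one fun u _ => cm_of_comm (by simp)

theorem MaxIso.closure_le (hU : MaxIso ρ W (Jw Q R t) U) : closure U ≤ Q :=
  (Subgroup.closure_le _).mpr fun _ hx => (hU.sub hx).1

theorem MaxIso.cm_closure (hC : Comp ρ Q W Wc) (hU : MaxIso ρ W (Jw Q R t) U) {x y : L}
    (hx : x ∈ closure U) (hy : y ∈ closure U) : cm ρ W x y := by
  have h1 : ∀ u ∈ U, cm ρ W u y := fun u hu =>
    ((Subgroup.closure_le (cmSub hC u)).mpr (fun z hz => ⟨(hU.sub hz).1, hU.pair u hu z hz⟩) hy).2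
  exact ((Subgroup.closure_le (cmSub hC y)).mpr
    (fun z hz => ⟨(hU.sub hz).1, (h1 z hz).symm⟩) hx).2.symm

theorem e_kill (hC : Comp ρ Q W Wc) (hc : Cls2 Q) (hU : MaxIso ρ W (Jw Q R t) U) {x : L}
    (hx : x ∈ Jw Q R t) (hxU : x ∉ U) {v : V} (hv : v ∈ W) (hf : v ∈ FixS ρ U) :
    fsum ρ (closure U) (ρ x v) = 0 := by
  obtain ⟨u, hu, hcm⟩ : ∃ u ∈ U, ¬ cm ρ W x u := by
    by_contra h
    push Not at h
    exact hxU (hU.max x hx h)
  obtain ⟨β, hβ, h⟩ := exists_beta_ne hC hc (hU.sub hu).1 hx.1 (fun h => hcm h.symm)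
  apply eq_zero_of_smul hβ
  have h1 := h v hv
  rw [hf u hu] at h1
  rw [← map_smul, ← h1, ← Module.End.mul_apply, ← Module.End.mul_apply, ← Module.End.mul_apply,
    fsum_rho_mul (subset_closure hu)]

theorem sig_fix (hC : Comp ρ Q W Wc) (hc : Cls2 Q) (hodd : Odd (Nat.card Q))
    (hU : MaxIso ρ W (Jw Q R t) U) {v : V} (hv : v ∈ W) (hf : v ∈ FixS ρ U) :
    fsum ρ (Jw Q R t) v = v := by
  have h1 : fsum ρ (Jw Q R t) v ∈ FixS ρ U := by
    intro u hu
    have := LinearMap.congr_fun (sig_mul (ρ := ρ) (Jw_inv (hU.sub hu))) v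
    rw [inv_inv, Module.End.mul_apply, Module.End.mul_apply, hf _ (hU.inv_mem hC hu)] at this
    exact this.symm
  rw [← fsum_fix hodd hU.closure_le (fun y hy => fix_closure h1 hy), ← Module.End.mul_apply,
    mul_fsum]
  apply fsum_apply_sub hodd hU.sub (fun x hx => (hU.sub hx).1) hU.one_mem
    (fun x hx => hU.inv_mem hC hx)
  · intro x hx
    rw [Module.End.mul_apply, hf x hx]
    exact fsum_fix hodd hU.closure_le (fun y hy => fix_closure hf hy)
  · intro x hx hxU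
    exact e_kill hC hc hU hx hxU hv hf

theorem sig_closure (hC : Comp ρ Q W Wc) (hU : MaxIso ρ W (Jw Q R t) U) {a : L} (ha : a ∈ R)
    (hat : a ∈ t) {y : L} (hy : y ∈ closure U) :
    a * y * a⁻¹ ∈ closure U ∧ fsum ρ (Jw Q R t) * ρ y = ρ (a * y * a⁻¹) * fsum ρ (Jw Q R t) ∧
      ∀ v ∈ W, ρ (a * y * a⁻¹) (ρ y v) = v := by
  induction hy using closure_induction with
  | mem x hx =>
    rw [((hU.sub hx).2 a ha).1 hat]
    exact ⟨subset_closure (hU.inv_mem hC hx), sig_mul (hU.sub hx), fun v _ => rho_inv_rho ρ x v⟩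
  | one => simp
  | mul x y hx hy h1 h2 =>
    rw [← conj_mul]
    refine ⟨Subgroup.mul_mem _ h1.1 h2.1, ?_, fun v hv => ?_⟩
    · rw [map_mul ρ x, map_mul ρ (a * x * a⁻¹), ← mul_assoc, h1.2.1, mul_assoc (ρ _), h2.2.1,
        mul_assoc (ρ _)]
    · rw [rho_mul ρ x, rho_mul ρ (a * x * a⁻¹),
        hU.cm_closure hC h2.1 hx _ (hC.invW y (hU.closure_le hy) v hv),
        h2.2.2 v hv, h1.2.2 v hv]
  | inv x hx h =>
    rw [← conj_inv]
    refine ⟨Subgroup.inv_mem _ h.1, ?_, fun v hv => ?_⟩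
    · calc fsum ρ (Jw Q R t) * ρ x⁻¹
          = ρ (a * x * a⁻¹)⁻¹ * (ρ (a * x * a⁻¹) * fsum ρ (Jw Q R t)) * ρ x⁻¹ := by
            rw [← mul_assoc, ← map_mul, inv_mul_cancel, map_one, one_mul]
        _ = ρ (a * x * a⁻¹)⁻¹ * fsum ρ (Jw Q R t) := by
            rw [← h.2.1, mul_assoc (ρ _), mul_assoc (fsum _ _), ← map_mul, mul_inv_cancel, map_one,
              mul_one]
    · have hw : ρ (a * x * a⁻¹)⁻¹ (ρ x⁻¹ v) ∈ W :=
        hC.invW _ (Q.inv_mem (hU.closure_le h.1)) _ (hC.invW _ (Q.inv_mem (hU.closure_le hx)) v hv)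
      have := h.2.2 _ hw
      rw [hU.cm_closure hC h.1 hx _ hw, rho_rho_inv, rho_rho_inv] at this
      exact this.symm

theorem e_sig (hC : Comp ρ Q W Wc) (hc : Cls2 Q) (hodd : Odd (Nat.card Q))
    (hU : MaxIso ρ W (Jw Q R t) U) {a : L} (ha : a ∈ R) (hat : a ∈ t) {v : V} (hv : v ∈ W) :
    fsum ρ (closure U) (fsum ρ (Jw Q R t) v) = fsum ρ (closure U) v := by
  have h1 : fsum ρ (closure U) v ∈ W :=
    fsum_mem fun y hy => hC.invW y (hU.closure_le hy) v hv
  have h2 : ∀ y ∈ closure U, ρ y (fsum ρ (closure U) v) = fsum ρ (closure U) v := fun y hy => by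
    rw [← Module.End.mul_apply, rho_mul_fsum hy]
  have h3 := sig_fix hC hc hodd hU h1 (fun u hu => h2 u (subset_closure hu))
  have h4 : (fsum ρ (closure U) * fsum ρ (Jw Q R t) * fsum ρ (closure U)) v =
      fsum ρ (closure U) (fsum ρ (Jw Q R t) v) := by
    rw [mul_fsum]
    apply fsum_apply_eq hodd hU.closure_le (Subgroup.one_mem _)
      (fun x hx => Subgroup.inv_mem _ hx)
    intro y hy
    obtain ⟨k1, k2, -⟩ := sig_closure hC hU ha hat hy
    rw [mul_assoc, k2, ← mul_assoc, fsum_rho_mul k1, Module.End.mul_apply]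
  rw [← h4, Module.End.mul_apply, Module.End.mul_apply, h3]
  exact fsum_fix hodd hU.closure_le h2

end

theorem exists_fix (hC : Comp ρ Q W Wc) (hc : Cls2 Q) (hodd : Odd (Nat.card Q)) {R : Subgroup L}
    (hR : Inv2 Q R) {t U : Set L} (ht : t ⊆ R) (hU : MaxIso ρ W (Jw Q R t) U) {a : L}
    (hat : a ∈ t) (haW : ∀ v ∈ W, ρ a⁻¹ v ∈ W) {V' : Submodule k V} (hV' : V' ≤ W)
    (hinv : ∀ x ∈ Jw Q R t, ∀ v ∈ V', ρ x v ∈ V') {v : V} (hv : v ∈ V') (hv0 : v ≠ 0) :
    ∃ w ∈ V', w ≠ 0 ∧ w ∈ FixS ρ U := by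
  classical
  by_contra hcon
  push Not at hcon
  have hinv' : ∀ x ∈ closure (Jw Q R t), ∀ v ∈ V', ρ x v ∈ V' :=
    fun x hx => inv_closure hinv (fun _ h => Jw_inv h) hx
  have hUJ : closure U ≤ closure (Jw Q R t) := closure_mono hU.sub
  have hJQ : closure (Jw Q R t) ≤ Q := (Subgroup.closure_le _).mpr fun _ hx => hx.1
  have he : ∀ w ∈ V', fsum ρ (closure U) w = 0 := by
    intro w hw
    by_contra h
    apply hcon _ (fsum_mem fun y hy => hinv' y (hUJ hy) w hw) h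
    intro u hu
    rw [← Module.End.mul_apply, rho_mul_fsum (subset_closure hu)]
  have h1 : fsum (fun x => ρ x * fsum ρ (closure U) * ρ x⁻¹) (closure (Jw Q R t)) v = 0 := by
    apply fsum_apply_eq hodd hJQ (Subgroup.one_mem _) (fun x hx => Subgroup.inv_mem _ hx)
    intro x hx
    rw [Module.End.mul_apply, Module.End.mul_apply,
      he _ (hinv' _ (Subgroup.inv_mem _ hx) v hv), map_zero]
  have h2 : fsum (fun x => ρ x * fsum ρ (closure U) * ρ x⁻¹) (closure (Jw Q R t)) =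
      fsum (fun y => fsum (fun x => ρ (x * y * x⁻¹)) (closure (Jw Q R t))) (closure U) := by
    simp only [fsum, Finset.mul_sum, Finset.sum_mul, map_mul]
    exact Finset.sum_comm
  rw [h2] at h1
  apply hv0
  rw [← h1]
  symm
  apply fsum_apply_sub hodd (X := {y | y ∈ closure U ∧ ∀ x ∈ Jw Q R t, cm ρ W x y})
    (fun y hy => hy.1) (fun y hy => hU.closure_le hy.1)
    ⟨Subgroup.one_mem _, fun x _ => cm_of_comm (by simp)⟩
    (fun y hy => ⟨Subgroup.inv_mem _ hy.1, fun x hx =>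
      ((cmSub hC x).inv_mem ⟨hU.closure_le hy.1, hy.2 x hx⟩).2⟩)
  · rintro y ⟨hy, hy2⟩
    have hQ : Q ≤ cmSub hC y := by
      apply Jw_gen hR hc hodd
      intro t' ht' x hx
      refine ⟨hx.1, ?_⟩
      by_cases h : t = t'
      · subst h; exact (hy2 x hx).symm
      · have : closure U ≤ centralizer {x} := by
          rw [Subgroup.closure_le]
          intro u hu
          rw [SetLike.mem_coe, mem_centralizer_iff]
          rintro _ rfl
          exact (Jw_comm hR hc hodd ht ht' h (hU.sub hu) hx).symm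
        exact cm_of_comm (mem_centralizer_iff.mp (this hy) x rfl).symm
    obtain ⟨s, hs⟩ := hC.sc y (hU.closure_le hy) (fun z hz => (hQ hz).2)
    obtain ⟨-, -, k3⟩ := sig_closure hC hU (ht hat) hat hy
    have hs1 : s = 1 := by
      apply eq_one_of_sq_char2
      have := k3 v (hV' hv)
      rw [hs v (hV' hv), map_smul, rho_mul, rho_mul, hs _ (haW v (hV' hv)), map_smul, rho_rho_inv,
        smul_smul] at this
      by_contra hne
      exact hv0 (eq_zero_of_smul hne this.symm)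
    apply fsum_apply_eq hodd hJQ (Subgroup.one_mem _) (fun x hx => Subgroup.inv_mem _ hx)
    intro x hx
    rw [rho_mul, rho_mul, hs _ (hC.invW _ (Q.inv_mem (hJQ hx)) v (hV' hv)), hs1, one_smul,
      rho_rho_inv]
  · intro y hy hy2
    obtain ⟨x1, hx1, hcm⟩ : ∃ x1 ∈ Jw Q R t, ¬ cm ρ W x1 y := by
      by_contra h
      push Not at h
      exact hy2 ⟨hy, h⟩
    obtain ⟨β, hβ, h⟩ := exists_beta_ne hC hc hx1.1 (hU.closure_le hy) hcm
    apply eq_zero_of_smul hβ
    have e1 : fsum (fun x => ρ ((x * x1) * y * (x * x1)⁻¹)) (closure (Jw Q R t)) =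
        fsum (fun x => ρ (x * y * x⁻¹)) (closure (Jw Q R t)) := by
      apply fsum_bij (Equiv.mulRight x1)
      · intro x; simp [Subgroup.mul_mem_cancel_right _ (subset_closure hx1)]
      · intro x _; rfl
    show fsum (fun x => ρ (x * y * x⁻¹)) (closure (Jw Q R t)) v =
      β • fsum (fun x => ρ (x * y * x⁻¹)) (closure (Jw Q R t)) v
    nth_rewrite 1 [← e1]
    rw [fsum_apply, fsum_apply, Finset.smul_sum]
    apply Finset.sum_congr rfl
    intro x hx
    have hx' : x ∈ Q := hJQ (by simpa using hx)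
    have hw := hC.invW _ (Q.inv_mem hx1.1) _ (hC.invW _ (Q.inv_mem hx') v (hV' hv))
    rw [mul_inv_rev, rho_mul, rho_mul, rho_mul, rho_mul, h _ hw, rho_rho_inv, map_smul, rho_mul,
      rho_mul]

def acts (g : L) (t : Set L) : Set L := {x | g⁻¹ * x * g ∈ t}

theorem acts_one (t : Set L) : acts 1 t = t := by
  ext x; simp [acts]

theorem acts_mul (a b : L) (t : Set L) : acts (a * b) t = acts a (acts b t) := by
  ext x; simp [acts, mul_assoc]

omit [CharP k 2] in
theorem sig_conj {P : Subgroup L} {h : L} (hQ : h ∈ normalizer (Q : Set L))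
    (hP : h ∈ normalizer (P : Set L)) (t : Set L) :
    ρ h * fsum ρ (Jw Q P t) = fsum ρ (Jw Q P (acts h t)) * ρ h := by
  rw [mul_fsum, fsum_mul]
  apply fsum_bij (MulAut.conj h).toEquiv
  · intro x
    simp only [MulEquiv.toEquiv_eq_coe, EquivLike.coe_coe, MulAut.conj_apply]
    constructor
    · intro hx
      refine ⟨(mem_normalizer_iff.mp hQ x).mp hx.1, fun w hw => ?_⟩
      have hw' : h⁻¹ * w * h ∈ P := (mem_normalizer_iff''.mp hP w).mp hw
      have e : w * (h * x * h⁻¹) * w⁻¹ = h * ((h⁻¹ * w * h) * x * (h⁻¹ * w * h)⁻¹) * h⁻¹ := by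
        group
      constructor
      · intro h'; rw [e, (hx.2 _ hw').1 h', conj_inv]
      · intro h'; rw [e, (hx.2 _ hw').2 h']
    · intro hx
      refine ⟨(mem_normalizer_iff.mp hQ x).mpr hx.1, fun w hw => ?_⟩
      have hw' : h * w * h⁻¹ ∈ P := (mem_normalizer_iff.mp hP w).mp hw
      have e : w * x * w⁻¹ = h⁻¹ * ((h * w * h⁻¹) * (h * x * h⁻¹) * (h * w * h⁻¹)⁻¹) * h := by
        group
      have e2 : h * w * h⁻¹ ∈ acts h t ↔ w ∈ t := by
        show h⁻¹ * (h * w * h⁻¹) * h ∈ t ↔ _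
        rw [show h⁻¹ * (h * w * h⁻¹) * h = w by group]
      constructor
      · intro h'; rw [e, (hx.2 _ hw').1 (e2.mpr h')]; group
      · intro h'; rw [e, (hx.2 _ hw').2 (fun h2 => h' (e2.mp h2))]; group
  · intro x _
    simp only [MulEquiv.toEquiv_eq_coe, EquivLike.coe_coe, MulAut.conj_apply]
    rw [← map_mul, ← map_mul]
    congr 1
    group

theorem even_main [IsAlgClosed k] [FiniteDimensional k V] (hf : Function.Injective ρ)
    (hc : Cls2 Q) (hodd : Odd (Nat.card Q)) {H P A P' : Subgroup L} {F : ℕ → Submodule k V}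
    (hF : Chain ρ H F) {m : ℕ} (hm : F (m + 2) = ⊥) (hHQ : H ≤ normalizer (Q : Set L))
    (hHP : H ≤ normalizer (P : Set L)) (hR : Inv2 Q P) (hAP : A ≤ P)
    (hAd : A ≤ dser H (m + 1)) (hHA : H ≤ normalizer (A : Set L)) (hP' : P' ≤ P)
    (hA : A ≤ ⁅P', dser H m⁆) : ∀ a ∈ A, ∀ x ∈ Q, a * x * a⁻¹ = x := by
  classical
  intro a0 ha0
  by_contra hcon
  obtain ⟨t0, ht0, x0, hx0, hne0⟩ : ∃ t ⊆ (P : Set L), ∃ x ∈ Jw Q P t, a0 * x * a0⁻¹ ≠ x := by
    by_contra h
    push Not at h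
    apply hcon
    intro x hx
    have : Q ≤ centralizer {a0} := by
      apply Jw_gen hR hc hodd
      intro t ht y hy
      rw [SetLike.mem_coe, mem_centralizer_iff]
      rintro _ rfl
      exact mul_inv_eq_iff_eq_mul.mp (h t ht y hy)
    exact mul_inv_eq_iff_eq_mul.mpr (mem_centralizer_iff.mp (this hx) a0 rfl)
  have hat0 : a0 ∈ t0 := by
    by_contra h
    exact hne0 ((hx0.2 a0 (hAP ha0)).2 h)
  have hx01 : x0 ≠ 1 := by rintro rfl; simp at hne0
  obtain ⟨y0, hy0, hxy⟩ := exists_noncomm hR hc hodd ht0 hat0 hx0 hx01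
  have hQk : ((Nat.card Q : ℕ) : k) ≠ 0 := by
    have := card_cast_one (k := k) hodd (X := Q) le_rfl Q.one_mem (fun x hx => Q.inv_mem hx)
    rw [show Nat.card Q = Nat.card (Q : Set L) from rfl, this]
    exact one_ne_zero
  have hρc : ρ ⁅x0, y0⁆ ≠ 1 := fun h => hxy (hf (by rw [h, map_one]))
  obtain ⟨W, Wc, hC, ⟨v0, hv0, hcv⟩, hAW, -⟩ := exists_comp hF hm hHQ hQk hρc
  have hncm : ¬ cm ρ W x0 y0 := by
    intro h
    apply hcv
    rw [commutatorElement_def, rho_mul, rho_mul, rho_mul,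
      h _ (hC.invW _ (Q.inv_mem hx0.1) _ (hC.invW _ (Q.inv_mem hy0.1) _ hv0)), rho_rho_inv,
      rho_rho_inv]
  have hv00 : v0 ≠ 0 := by rintro rfl; simp at hcv
  choose U hU using fun t : Set L => exists_maxIso ρ W (Jw Q P t)
  let good : Set L → Prop := fun t => t ⊆ P ∧ ∃ a ∈ A, a ∈ t
  have hfin : ∀ s : Finset (Set L), (∀ t ∈ s, good t) →
      ∃ v ∈ W, v ≠ 0 ∧ ∀ t ∈ s, v ∈ FixS ρ (U t) := by
    intro s
    induction s using Finset.induction_on with
    | empty => intro _; exact ⟨v0, hv0, hv00, by simp⟩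
    | insert t s hts ih =>
      intro hs
      obtain ⟨v, hv, hv1, hv2⟩ := ih fun t ht => hs t (Finset.mem_insert_of_mem ht)
      obtain ⟨ht, a, ha, hat⟩ := hs t (Finset.mem_insert_self _ _)
      obtain ⟨w, hw, hw1, hw2⟩ := exists_fix hC hc hodd hR ht (hU t) hat
        (hAW _ (hAd (A.inv_mem ha))) (V' := W ⊓ FixS ρ {u | ∃ t' ∈ s, u ∈ U t'}) inf_le_left
        (by
          rintro x hx z ⟨hz1, hz2⟩
          refine ⟨hC.invW x hx.1 z hz1, ?_⟩
          rintro u ⟨t', ht', hu⟩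
          have := Jw_comm hR hc hodd ht (hs t' (Finset.mem_insert_of_mem ht')).1
            (fun h => hts (h ▸ ht')) hx ((hU t').sub hu)
          rw [← rho_mul, ← this, rho_mul, hz2 u ⟨t', ht', hu⟩])
        (v := v) ⟨hv, fun u ⟨t', ht', hu⟩ => hv2 t' ht' u hu⟩ hv1
      refine ⟨w, hw.1, hw1, fun t' ht' => ?_⟩
      rcases Finset.mem_insert.mp ht' with rfl | ht'
      · exact hw2
      · exact fun u hu => hw.2 u ⟨t', ht', hu⟩
  obtain ⟨v1, hv1, hv10, hv1f, hv1A⟩ : ∃ v ∈ W, v ≠ 0 ∧ (∀ t, good t → v ∈ FixS ρ (U t)) ∧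
      ∀ a ∈ A, ρ a v = v := by
    obtain ⟨v, hv, hv1, hv2⟩ := hfin (Finset.univ.filter good) (by simp)
    have hv2' : ∀ t, good t → v ∈ FixS ρ (U t) := fun t ht => hv2 t (by simpa using ht)
    by_cases h : ∀ a ∈ A, ρ a v = v
    · exact ⟨v, hv, hv1, hv2', h⟩
    · push Not at h
      obtain ⟨a, ha, hav⟩ := h
      refine ⟨ρ a v - v, W.sub_mem (hAW a (hAd ha) v hv) hv, sub_ne_zero.mpr hav,
        fun t ht => Submodule.sub_mem _ ?_ (hv2' t ht), fun b hb => ?_⟩
      · intro u hu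
        have h1 : ρ (a⁻¹ * u * a⁻¹⁻¹) v = v := by
          by_cases h : a⁻¹ ∈ t
          · rw [(((hU t).sub hu).2 _ (hAP (A.inv_mem ha))).1 h]
            exact hv2' t ht _ ((hU t).inv_mem hC hu)
          · rw [(((hU t).sub hu).2 _ (hAP (A.inv_mem ha))).2 h]
            exact hv2' t ht _ hu
        nth_rewrite 2 [← h1]
        rw [← rho_mul, ← rho_mul]
        congr 2
        group
      · have := hF.quad (m + 1) (hAd ha) (hAd hb) v
        rw [hm, Submodule.mem_bot, sub_eq_zero] at this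
        exact this
  have hg0 : good t0 := ⟨ht0, a0, ha0, hat0⟩
  obtain ⟨x, hx, hxU⟩ : ∃ x ∈ Jw Q P t0, x ∉ U t0 := by
    by_contra h
    push Not at h
    exact hncm ((hU t0).pair _ (h _ hx0) _ (h _ hy0))
  have hw0 : ρ x⁻¹ v1 - ρ x v1 ≠ 0 := by
    intro h
    rw [sub_eq_zero] at h
    have h1 : v1 ∈ FixS ρ {x * x} := by
      rintro _ rfl
      rw [rho_mul, ← h, rho_rho_inv]
    obtain ⟨n, hn⟩ := exists_sqrt hodd
    have h2 : ρ x v1 = v1 := by
      apply fix_closure h1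
      have h0 : (x * x) ^ n ∈ closure {x * x} :=
        Subgroup.pow_mem _ (subset_closure (Set.mem_singleton _)) n
      rwa [hn x hx.1] at h0
    have h3 := e_kill hC hc (hU t0) hx hxU hv1 (hv1f t0 hg0)
    rw [h2, fsum_fix hodd (hU t0).closure_le (fun y hy => fix_closure (hv1f t0 hg0) hy)] at h3
    exact hv10 h3
  let S : Set L → Submodule k V := fun t =>
    if good t then LinearMap.range (fsum ρ (Jw Q P t) - 1) else ⊥
  let T : Set L → Submodule k V := fun t => ⨅ a : A, (S t).comap (ρ a - 1)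
  have hT : ∀ t v, v ∈ T t ↔ ∀ a ∈ A, ρ a v - v ∈ S t := by
    intro t v
    simp [T, Submodule.mem_iInf]
  have hS : ∀ h ∈ H, ∀ t, ∀ v ∈ S t, ρ h v ∈ S (acts h t) := by
    intro h hh t v hv
    by_cases hg : good t
    · have hg' : good (acts h t) := by
        obtain ⟨h1, a, ha, hat⟩ := hg
        refine ⟨fun w hw => (mem_normalizer_iff''.mp (hHP hh) w).mpr (h1 hw), h * a * h⁻¹,
          le_normalizer_iff.mp hHA h hh a ha, ?_⟩
        show h⁻¹ * (h * a * h⁻¹) * h ∈ t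
        rwa [show h⁻¹ * (h * a * h⁻¹) * h = a by group]
      simp only [S, if_pos hg, if_pos hg'] at hv ⊢
      obtain ⟨u, rfl⟩ := hv
      refine ⟨ρ h u, ?_⟩
      have := LinearMap.congr_fun (sig_conj (ρ := ρ) (hHQ hh) (hHP hh) t) u
      simp only [Module.End.mul_apply] at this
      simp only [LinearMap.sub_apply, Module.End.one_apply, map_sub, this]
    · simp only [S, if_neg hg, Submodule.mem_bot] at hv
      rw [hv, map_zero]; exact Submodule.zero_mem _
  have hTperm : ∀ h ∈ H, ∀ t, ∀ v ∈ T t, ρ h v ∈ T (acts h t) := by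
    intro h hh t v hv
    rw [hT] at hv ⊢
    intro a ha
    have := hS h hh t _ (hv _ ((mem_normalizer_iff''.mp (hHA hh) a).mp ha))
    rwa [map_sub, ← rho_mul, show h * (h⁻¹ * a * h) = a * h by group, rho_mul] at this
  have hax : ∀ a ∈ A, ρ a (ρ x v1) = ρ (a * x * a⁻¹) v1 := by
    intro a ha
    rw [rho_mul, rho_mul, hv1A _ (A.inv_mem ha)]
  have hfixB : ∀ b ∈ dser H m, acts b t0 = t0 := by
    apply wreath hF m (Set L) acts acts_one acts_mul T hTperm t0
    intro hle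
    have h1 : ρ x v1 ∈ T t0 := by
      rw [hT]
      intro a ha
      rw [hax a ha]
      by_cases h : a ∈ t0
      · rw [(hx.2 a (hAP ha)).1 h]
        simp only [S, if_pos hg0]
        refine ⟨ρ x v1, ?_⟩
        have := LinearMap.congr_fun (sig_mul (ρ := ρ) hx) v1
        simp only [Module.End.mul_apply] at this
        simp only [LinearMap.sub_apply, Module.End.one_apply, this,
          sig_fix hC hc hodd (hU t0) hv1 (hv1f t0 hg0)]
      · rw [(hx.2 a (hAP ha)).2 h, sub_self]; exact Submodule.zero_mem _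
    let Y : Subgroup L := closure {u | ∃ t, good t ∧ t ≠ t0 ∧ u ∈ U t}
    have hYQ : Y ≤ Q := (Subgroup.closure_le _).mpr fun u ⟨t, _, _, hu⟩ => ((hU t).sub hu).1
    have hle2 : F (m + 1) ⊔ rest T t0 ≤ Wc.comap (fsum ρ Y * (ρ a0 - 1)) := by
      apply sup_le
      · intro z hz
        have := hF.step (m + 1) a0 (hAd ha0) z hz
        rw [hm, Submodule.mem_bot] at this
        show fsum ρ Y (ρ a0 z - z) ∈ Wc
        rw [this, map_zero]; exact Wc.zero_mem
      · apply rest_le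
        intro t ht z hz
        show fsum ρ Y (ρ a0 z - z) ∈ Wc
        have h2 := (hT t z).mp hz a0 ha0
        by_cases hg : good t
        · simp only [S, if_pos hg] at h2
          obtain ⟨u, hu⟩ := h2
          obtain ⟨u1, hu1, u2, hu2, rfl⟩ := Submodule.mem_sup.mp
            (hC.codis ▸ Submodule.mem_top : u ∈ W ⊔ Wc)
          rw [← hu, map_add, map_add]
          have hUY : closure (U t) ≤ Y := closure_mono fun u hu => ⟨t, hg, ht, hu⟩
          have hee : ∀ z, fsum ρ Y (fsum ρ (closure (U t)) z) = fsum ρ Y z := by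
            intro z
            rw [← Module.End.mul_apply, mul_fsum]
            apply fsum_apply_eq hodd (hU t).closure_le (Subgroup.one_mem _)
              (fun x hx => Subgroup.inv_mem _ hx)
            intro y hy
            rw [fsum_rho_mul (hUY hy)]
          obtain ⟨h3, a, ha, hat⟩ := hg
          have h4 : fsum ρ Y ((fsum ρ (Jw Q P t) - 1) u1) = 0 := by
            rw [LinearMap.sub_apply, map_sub, ← hee, e_sig hC hc hodd (hU t) (h3 hat) hat hu1, hee]
            simp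
          rw [h4, zero_add]
          apply fsum_mem
          intro y hy
          apply hC.invC y (hYQ hy)
          exact Wc.sub_mem (fsum_mem fun y hy => hC.invC y hy.1 _ hu2) hu2
        · simp only [S, if_neg hg, Submodule.mem_bot] at h2
          rw [h2, map_zero]; exact Wc.zero_mem
    have h5 : fsum ρ Y (ρ a0 (ρ x v1) - ρ x v1) ∈ Wc := hle2 (hle h1)
    rw [hax a0 ha0, (hx.2 a0 (hAP ha0)).1 hat0] at h5
    have h6 : ∀ z ∈ Jw Q P t0, ρ z v1 ∈ FixS ρ {u | ∃ t, good t ∧ t ≠ t0 ∧ u ∈ U t} := by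
      rintro z hz u ⟨t, hg, ht, hu⟩
      have := Jw_comm hR hc hodd hg.1 ht0 ht ((hU t).sub hu) hz
      rw [← rho_mul, this, rho_mul, hv1f t hg u hu]
    rw [fsum_fix hodd hYQ (fun y hy => fix_closure
      (Submodule.sub_mem _ (h6 _ (Jw_inv hx)) (h6 _ hx)) hy)] at h5
    exact hw0 (Submodule.disjoint_def.mp hC.disj _
      (W.sub_mem (hC.invW _ (Q.inv_mem hx.1) _ hv1) (hC.invW _ hx.1 _ hv1)) h5)
  have hfinal : ⁅P', dser H m⁆ ≤ centralizer {x0} := by
    apply commutator_le.mpr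
    intro w hw b hb
    rw [mem_centralizer_iff]
    intro x1 hx1
    rw [Set.mem_singleton_iff.mp hx1]
    have hw1 := hP' hw
    have hw2 : b * w * b⁻¹ ∈ P := le_normalizer_iff.mp hHP b (dser_le H m hb) w hw1
    have e2 : b * w * b⁻¹ ∈ t0 ↔ w ∈ t0 := by
      nth_rewrite 1 [← hfixB b hb]
      show b⁻¹ * (b * w * b⁻¹) * b ∈ t0 ↔ _
      rw [show b⁻¹ * (b * w * b⁻¹) * b = w by group]
    have e3 : (b * w * b⁻¹) * x0 * (b * w * b⁻¹)⁻¹ = w * x0 * w⁻¹ := by
      by_cases h : w ∈ t0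
      · rw [(hx0.2 _ hw2).1 (e2.mpr h), (hx0.2 _ hw1).1 h]
      · rw [(hx0.2 _ hw2).2 (fun h' => h (e2.mp h')), (hx0.2 _ hw1).2 h]
    have e4 : w * (w * x0 * w⁻¹) * w⁻¹ = x0 := hR.sq w hw1 x0 hx0.1
    have e5 := hR.sq _ hw2 x0 hx0.1
    rw [e3] at e5
    have e6 : (b * w * b⁻¹)⁻¹ * x0 * (b * w * b⁻¹) = w * x0 * w⁻¹ := by
      nth_rewrite 1 [← e5]; group
    calc x0 * ⁅w, b⁆ = (w * (w * x0 * w⁻¹) * w⁻¹) * ⁅w, b⁆ := by rw [e4]
      _ = ⁅w, b⁆ * x0 := by rw [← e6, commutatorElement_def]; group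
  have := mem_centralizer_iff.mp (hfinal (hA ha0)) x0 rfl
  exact hne0 (mul_inv_eq_iff_eq_mul.mpr this.symm)

end Pool.Agent.Lib.MP_fe96bf_al
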