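import Pool.Agent.Lib.MP_fe96bf_al.Basic

set_option autoImplicit false

namespace Pool.Agent.Lib.MP_fe96bf_al

open Subgroup
open scoped Pointwise

variable {G : Type*} [Group G] {G' : Type*} [Group G'] {π : Set ℕ}

theorem sec_of_relIndex {N S : Subgroup G} (hS : S ≤ normalizer (N : Set G))
    (h : PiNum π (N.relIndex S)) : Sec π N S := by
  have := normal_subgroupOf_of_le_normalizer hS
  intro x hx
  exact ⟨_, h, (N.subgroupOf S).pow_index_mem ⟨x, hx⟩⟩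

theorem schur_zass [Finite G] {N S : Subgroup G} (hS : S ≤ normalizer (N : Set G))
    (h1 : Sec πᶜ ⊥ N) (h2 : Sec π N S) :
    ∃ R ≤ S, Sec π ⊥ R ∧ ∀ x ∈ S, ∃ r ∈ R, ∃ n ∈ N, x = r * n := by
  have := normal_subgroupOf_of_le_normalizer hS
  have k1 : PiNum πᶜ (Nat.card (N.subgroupOf S)) :=
    sec_bot_iff_card.mp (h1.comap_bot S.subtype_injective)
  have k2 : PiNum π (N.subgroupOf S).index := by
    have := h2.comap S.subtype
    rw [Subgroup.comap_subtype, Subgroup.comap_subtype, subgroupOf_self] at this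
    simpa using sec_iff_relIndex.mp this
  obtain ⟨R, hR⟩ := exists_right_complement'_of_coprime (k2.coprime k1).symm
  refine ⟨R.map S.subtype, map_subtype_le R, Sec.map_bot ?_ _, fun x hx => ?_⟩
  · rw [sec_bot_iff_card, ← hR.symm.index_eq_card]; exact k2
  · have : (⟨x, hx⟩ : S) ∈ R ⊔ N.subgroupOf S := by rw [hR.symm.sup_eq_top]; trivial
    obtain ⟨r, hr, n, hn, e⟩ := mem_sup_of_normal_right.mp this
    exact ⟨r, ⟨r, hr, rfl⟩, n, hn, (congrArg Subtype.val e).symm⟩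

structure SylIn (q : ℕ) (S N : Subgroup G) : Prop where
  le : S ≤ N
  pg : IsPGroup q S
  max : ∀ S' : Subgroup G, IsPGroup q S' → S ≤ S' → S' ≤ N → S' ≤ S

theorem exists_sylIn [Finite G] (q : ℕ) (N : Subgroup G) : ∃ S, SylIn q S N := by
  obtain ⟨S, -, hS⟩ := Finite.exists_le_maximal
    (p := fun S : Subgroup G => S ≤ N ∧ IsPGroup q S) (a := ⊥) ⟨bot_le, IsPGroup.of_bot⟩
  exact ⟨S, hS.1.1, hS.1.2, fun S' h1 h2 h3 => hS.2 ⟨h3, h1⟩ h2⟩

def SylIn.toSylow {q : ℕ} {S N : Subgroup G} (h : SylIn q S N) : Sylow q N where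
  toSubgroup := S.subgroupOf N
  isPGroup' := h.pg.comap_of_injective N.subtype N.subtype_injective
  is_maximal' := fun {Q} hQ hle => by
    apply le_antisymm _ hle
    have := h.max (Q.map N.subtype) (hQ.map _) (fun x hx => ⟨⟨x, h.le hx⟩, hle hx, rfl⟩)
      (map_subtype_le Q)
    intro x hx
    exact this ⟨x, hx, rfl⟩

theorem SylIn.not_dvd [Finite G] {q : ℕ} (hq : q.Prime) {S N : Subgroup G} (h : SylIn q S N) :
    ¬ q ∣ S.relIndex N := by
  have : Fact q.Prime := ⟨hq⟩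
  exact h.toSylow.not_dvd_index

theorem SylIn.conj [Finite G] {q : ℕ} (hq : q.Prime) {S S' N : Subgroup G} (h : SylIn q S N)
    (h' : SylIn q S' N) : ∃ n ∈ N, ∀ x, x ∈ S ↔ n⁻¹ * x * n ∈ S' := by
  have : Fact q.Prime := ⟨hq⟩
  obtain ⟨n, hn⟩ := MulAction.exists_smul_eq N h'.toSylow h.toSylow
  have key : ∀ x : N, (x : G) ∈ S ↔ (n : G)⁻¹ * x * n ∈ S' := by
    intro x
    have e : x ∈ h.toSylow ↔ x ∈ n • h'.toSylow := by rw [hn]
    refine e.trans ?_
    show x ∈ (MulAut.conj n • h'.toSylow.toSubgroup : Subgroup N) ↔ _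
    rw [Subgroup.mem_pointwise_smul_iff_inv_smul_mem]
    simp [SylIn.toSylow, mem_subgroupOf]
  refine ⟨n, n.2, fun x => ⟨fun hx => (key ⟨x, h.le hx⟩).mp hx, fun hx => ?_⟩⟩
  have hx' : x ∈ N := by
    have := N.mul_mem (N.mul_mem n.2 (h'.le hx)) (N.inv_mem n.2)
    simpa [mul_assoc] using this
  exact (key ⟨x, hx'⟩).mpr hx

def cj (g : G) (S : Subgroup G) : Subgroup G := S.comap (MulAut.conj g⁻¹).toMonoidHom

theorem mem_cj {g x : G} {S : Subgroup G} : x ∈ cj g S ↔ g⁻¹ * x * g ∈ S := by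
  simp [cj]

theorem Sec.cj {S : Subgroup G} (h : Sec π ⊥ S) (g : G) : Sec π ⊥ (cj g S) :=
  h.comap_bot (MulAut.conj g⁻¹).injective

theorem index_cj (S : Subgroup G) (g : G) : (cj g S).index = S.index :=
  index_comap_of_surjective _ (MulAut.conj g⁻¹).surjective

theorem SylIn.cj {q : ℕ} {S N : Subgroup G} (h : SylIn q S N) {g : G}
    (hg : g ∈ normalizer (N : Set G)) : SylIn q (cj g S) N := by
  refine ⟨fun x hx => (mem_normalizer_iff''.mp hg x).mpr (h.le (mem_cj.mp hx)),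
    h.pg.comap_of_injective _ (MulAut.conj g⁻¹).injective, fun S' h1 h2 h3 x hx => ?_⟩
  rw [mem_cj]
  apply h.max (MP_fe96bf_al.cj g⁻¹ S') (h1.comap_of_injective _ (MulAut.conj g⁻¹⁻¹).injective)
  · intro y hy
    rw [mem_cj]
    apply h2
    rw [mem_cj]
    simpa [mul_assoc] using hy
  · intro y hy
    rw [mem_cj] at hy
    exact (mem_normalizer_iff''.mp (Subgroup.inv_mem _ hg) y).mpr (h3 hy)
  · rw [mem_cj]; simpa [mul_assoc] using hx

theorem SylIn.frattini [Finite G] {q : ℕ} (hq : q.Prime) {S N : Subgroup G} (h : SylIn q S N)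
    {g : G} (hg : g ∈ normalizer (N : Set G)) :
    ∃ n ∈ N, ∃ t ∈ normalizer (S : Set G), g = n * t := by
  obtain ⟨n, hn, hx⟩ := (h.cj hg).conj hq h
  refine ⟨n, hn, n⁻¹ * g, ?_, by group⟩
  rw [mem_normalizer_iff'']
  intro x
  have := hx (n * x * n⁻¹)
  rw [mem_cj] at this
  simpa [mul_assoc] using this.symm

theorem SylIn.cover [Finite G] {q : ℕ} (hq : q.Prime) {S N N0 : Subgroup G} [N0.Normal]
    (h : SylIn q S N) (h0 : Sec {q} N0 N) : N ≤ S ⊔ N0 := by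
  rw [← relIndex_eq_one]
  obtain ⟨j, hj⟩ := (sec_iff_relIndex.mp h0).eq_pow
  have h1 : (S ⊔ N0).relIndex N ∣ q ^ j := hj ▸ relIndex_dvd_of_le_left _ le_sup_right
  have h2 : (S ⊔ N0).relIndex N ∣ S.relIndex N := relIndex_dvd_of_le_left _ le_sup_left
  obtain ⟨i, -, hi⟩ := (Nat.dvd_prime_pow hq).mp h1
  cases i with
  | zero => simpa using hi
  | succ i => exact absurd ((Dvd.intro_left _ (pow_succ q i).symm).trans (hi ▸ h2)) (h.not_dvd hq)

theorem SylIn.mono {q : ℕ} {S N N' : Subgroup G} (h : SylIn q S N) (h1 : S ≤ N') (h2 : N' ≤ N) :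
    SylIn q S N' := ⟨h1, h.pg, fun S' a b c => h.max S' a b (c.trans h2)⟩

theorem exists_lift [Finite G] (f : G →* G') {K : Subgroup G} {U' : Subgroup G'}
    (hU : Sec π ⊥ U') (hK : U' ≤ K.map f) : ∃ U ≤ K, Sec π ⊥ U ∧ U.map f = U' := by
  obtain ⟨U, ⟨hUK, hUf⟩, hmin⟩ := exists_minimal_of_wellFoundedLT
    (fun U : Subgroup G => U ≤ K ∧ U.map f = U') ⟨K ⊓ U'.comap f, inf_le_left, by
      apply le_antisymm
      · rintro _ ⟨x, hx, rfl⟩; exact hx.2
      · intro y hy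
        obtain ⟨x, hx, rfl⟩ := hK hy
        exact ⟨x, ⟨hx, hy⟩, rfl⟩⟩
  have hmin' : ∀ R ≤ U, (∀ x ∈ U, ∃ r ∈ R, f x = f r) → U ≤ R := by
    intro R hR h
    refine hmin ⟨hR.trans hUK, le_antisymm (hUf ▸ map_mono hR) ?_⟩ hR
    rw [← hUf]
    rintro _ ⟨x, hx, rfl⟩
    obtain ⟨r, hr, e⟩ := h x hx
    exact ⟨r, hr, e.symm⟩
  refine ⟨U, hUK, ?_, hUf⟩
  rw [sec_bot_iff_card]
  refine ⟨Nat.card_pos.ne', fun r hr hd => ?_⟩
  by_contra hrπ
  obtain ⟨S, hS⟩ := exists_sylIn r U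
  have hSr : Sec πᶜ ⊥ S := sec_of_isPGroup hr hrπ hS.pg
  have hSk : S ≤ f.ker := fun x hx =>
    Sec.eq_one hU (hSr.map_bot f) (hUf ▸ ⟨x, hS.le hx, rfl⟩) ⟨x, hx, rfl⟩
  have hS' : SylIn r S (U ⊓ f.ker) := hS.mono (le_inf hS.le hSk) inf_le_left
  have hUS : U ≤ normalizer (S : Set G) := by
    refine (hmin' (U ⊓ normalizer (S : Set G)) inf_le_left fun x hx => ?_).trans inf_le_right
    obtain ⟨n, hn, t, ht, e⟩ := hS'.frattini hr
      (norm_inf le_normalizer (le_norm_of_normal U f.ker) hx)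
    refine ⟨t, ⟨?_, ht⟩, ?_⟩
    · have : t = n⁻¹ * x := by rw [e]; group
      rw [this]; exact U.mul_mem (U.inv_mem hn.1) hx
    · rw [e, map_mul, MonoidHom.mem_ker.mp hn.2, one_mul]
  obtain ⟨R, hRU, hR, hdec⟩ := schur_zass (π := {r}ᶜ) hUS
    (by rw [compl_compl]; exact sec_of_isPGroup hr (Set.mem_singleton r) hS.pg)
    (sec_of_relIndex hUS ⟨(S.subgroupOf U).index_ne_zero_of_finite, fun p _ hp h => by
      rw [Set.mem_singleton_iff.mp h] at hp; exact hS.not_dvd hr hp⟩)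
  have hUR := hmin' R hRU fun x hx => by
    obtain ⟨t, ht, n, hn, e⟩ := hdec x hx
    exact ⟨t, ht, by rw [e, map_mul, MonoidHom.mem_ker.mp (hSk hn), mul_one]⟩
  exact (sec_bot_iff_card.mp (hR.mono le_rfl hUR)).2 r hr hd rfl

theorem DL.of_surjective [Finite G] {d : ℕ} (h : DL π d G) (f : G →* G')
    (hf : Function.Surjective f) : DL π d G' := fun U' hU' => by
  obtain ⟨U, -, h1, rfl⟩ := exists_lift f (K := ⊤) hU' (by rw [map_top_of_surjective f hf]; exact le_top)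
  rw [← map_dser, h U h1, Subgroup.map_bot]

open scoped IsMulCommutative in
theorem conj_of_abelian [Finite G] {V M M' : Subgroup G} [V.Normal] [IsMulCommutative V]
    (hV : Sec π ⊥ V) (hM : Sec πᶜ ⊥ M) (hM' : Sec πᶜ ⊥ M') (hle : M' ≤ V ⊔ M) :
    ∃ u ∈ V, ∀ x ∈ M', u⁻¹ * x * u ∈ M := by
  classical
  have := Fintype.ofFinite M'
  have hex : ∀ x : M', ∃ c : V, (c : G)⁻¹ * x ∈ M := by
    intro x
    obtain ⟨v, hv, m, hm, e⟩ := mem_sup_of_normal_left.mp (hle x.2)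
    exact ⟨⟨v, hv⟩, by rw [← e]; simpa using hm⟩
  choose c hc using hex
  have uniq : ∀ (x : G) (v v' : V), (v : G)⁻¹ * x ∈ M → (v' : G)⁻¹ * x ∈ M → v = v' := by
    intro x v v' h h'
    have h1 : (v' : G)⁻¹ * v ∈ M := by
      have := M.mul_mem h' (M.inv_mem h)
      simpa [mul_assoc] using this
    have := Sec.eq_one hV hM (V.mul_mem (V.inv_mem v'.2) v.2) h1
    exact Subtype.ext (inv_mul_eq_one.mp this).symm
  have hcomm : ∀ v v' : V, (v : G) * v' = v' * v := fun v v' =>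
    congrArg Subtype.val (mul_comm v v')
  have cocy : ∀ x y : M', c (x * y) = c x * MulAut.conjNormal (x : G) (c y) := by
    intro x y
    apply uniq ((x : G) * y) _ _ (hc (x * y))
    have := M.mul_mem (hc x) (hc y)
    convert this using 1
    have h1 := hcomm (c x) (MulAut.conjNormal (x : G) (c y))
    rw [Subgroup.coe_mul, h1, MulAut.conjNormal_apply]
    group
  have hcop : (Nat.card V).Coprime (Nat.card M') :=
    (sec_bot_iff_card.mp hV).coprime (sec_bot_iff_card.mp hM')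
  obtain ⟨u, hu⟩ := (powCoprime hcop).surjective (∏ y, c y)
  have hu' : u ^ Nat.card M' = ∏ y, c y := hu
  refine ⟨u, u.2, fun x hx => ?_⟩
  have h1 : ∏ y, c y = (c ⟨x, hx⟩) ^ Nat.card M' * MulAut.conjNormal x (∏ y, c y) := by
    nth_rewrite 1 [← Equiv.prod_comp (Equiv.mulLeft (⟨x, hx⟩ : M')) c]
    simp only [Equiv.coe_mulLeft, cocy]
    rw [Finset.prod_mul_distrib, Finset.prod_const, Finset.card_univ, Nat.card_eq_fintype_card,
      map_prod]
  rw [← hu', map_pow, ← mul_pow] at h1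
  have h2 : u = c ⟨x, hx⟩ * MulAut.conjNormal x u := (powCoprime hcop).injective h1
  have h3 := congrArg Subtype.val h2
  rw [Subgroup.coe_mul, MulAut.conjNormal_apply] at h3
  have h4 := hcomm u⁻¹ (MulAut.conjNormal x u)
  rw [MulAut.conjNormal_apply, Subgroup.coe_inv] at h4
  have := hc ⟨x, hx⟩
  convert this using 1
  have h5 : ((c ⟨x, hx⟩ : V) : G)⁻¹ = (x * u * x⁻¹) * (u : G)⁻¹ := by
    nth_rewrite 2 [h3]; group
  rw [h5, ← h4]
  group

theorem card_sub_lt [Finite G] {K : Subgroup G} (h : K ≠ ⊤) : Nat.card K < Nat.card G := by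
  by_contra h'
  exact h (eq_top_of_le_card K (not_lt.mp h'))

theorem card_quot_lt [Finite G] {N : Subgroup G} (h : N ≠ ⊥) :
    Nat.card (G ⧸ N) < Nat.card G := by
  rw [card_eq_card_quotient_mul_card_subgroup N]
  exact (lt_mul_iff_one_lt_right Nat.card_pos).mpr ((one_lt_card_iff_ne_bot N).mpr h)

theorem le_hall [Finite G] {H S : Subgroup G} [S.Normal] (hH : Sec π ⊥ H)
    (hi : PiNum πᶜ H.index) (hS : Sec π ⊥ S) : S ≤ H := by
  have h1 := sec_bot_iff_card.mp (Sec.sup_bot (le_norm_of_normal H S) hH hS)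
  have h2 : H.relIndex (H ⊔ S) = 1 :=
    (Nat.coprime_self _).mp ((h1.of_dvd (relIndex_dvd_card H _)).coprime
      (hi.of_dvd (relIndex_dvd_index_of_le le_sup_left)))
  exact le_sup_right.trans (relIndex_eq_one.mp h2)

theorem hall_of_compl [Finite G] {H V : Subgroup G} (hH : Sec π ⊥ H)
    (hV : Sec πᶜ ⊥ V) (h : ∀ x, ∃ v ∈ V, ∃ y ∈ H, x = v * y) : PiNum πᶜ H.index := by
  have : IsComplement' V H := by
    apply isComplement'_of_disjoint_and_mul_eq_univ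
    · rw [disjoint_def]; intro x h1 h2; exact Sec.eq_one hH hV h2 h1
    · rw [Set.eq_univ_iff_forall]
      intro x
      obtain ⟨v, hv, y, hy, e⟩ := h x
      exact ⟨v, hv, y, hy, e.symm⟩
  rw [this.index_eq_card]
  exact sec_bot_iff_card.mp hV

theorem sylIn_inf {r : ℕ} (hr : r.Prime) (hrπ : r ∈ π) {V R X : Subgroup G} [V.Normal]
    (hV : Sec πᶜ ⊥ V) (hVR : V ≤ R) (hR : Sec {r} V R) (hX : Sec π ⊥ X) (hXV : X ⊔ V = ⊤) :
    SylIn r (R ⊓ X) R := by
  refine ⟨inf_le_left, Sec.isPGroup fun x hx => ?_, fun S h1 h2 h3 y hy => ?_⟩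
  · obtain ⟨n, hn, hxn⟩ := hR x hx.1
    exact ⟨n, hn, mem_bot.mpr (Sec.eq_one hX hV (X.pow_mem hx.2 n) hxn)⟩
  · obtain ⟨x, hx, v, hv, rfl⟩ := mem_sup_of_normal_right.mp (hXV ▸ mem_top y : y ∈ X ⊔ V)
    have hxR : x ∈ R := (R.mul_mem_cancel_right (hVR hv)).mp (h3 hy)
    have hvS : v ∈ S := (S.mul_mem_cancel_left (h2 ⟨hxR, hx⟩)).mp hy
    rw [Sec.eq_one (sec_of_isPGroup hr hrπ h1) hV hvS hv, mul_one]
    exact ⟨hxR, hx⟩

theorem hall_D (π : Set ℕ) (n : ℕ) : ∀ (G : Type) [Group G] [Finite G], Nat.card G = n →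
    Sol π G → ∀ H U : Subgroup G, Sec π ⊥ H → PiNum πᶜ H.index → Sec π ⊥ U →
    ∃ g : G, U ≤ cj g H := by
  induction n using Nat.strong_induction_on with
  | _ n ih =>
  intro G _ _ hn hG H U hH hi hU
  have quot : ∀ (N : Subgroup G) [N.Normal], N ≠ ⊥ → ∃ g : G, U ≤ cj g (H ⊔ N) := by
    intro N _ hN
    obtain ⟨g, hg⟩ := ih _ (hn ▸ card_quot_lt hN) (G ⧸ N) rfl (hG.quotient N)
      (H.map (QuotientGroup.mk' N)) (U.map (QuotientGroup.mk' N)) (hH.map_bot _)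
      (hi.of_dvd (index_map_dvd H (QuotientGroup.mk'_surjective N))) (hU.map_bot _)
    obtain ⟨g, rfl⟩ := QuotientGroup.mk'_surjective N g
    refine ⟨g, fun u hu => ?_⟩
    have := mem_cj.mp (hg ⟨u, hu, rfl⟩)
    rw [← map_inv, ← map_mul, ← map_mul, ← mem_comap, comap_map_eq, QuotientGroup.ker_mk'] at this
    exact mem_cj.mpr this
  have sub : ∀ (K H U : Subgroup G), K ≠ ⊤ → U ≤ K → Sec π ⊥ H → Sec π ⊥ U →
      PiNum πᶜ (H.relIndex K) → ∃ g : G, U ≤ cj g H := by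
    intro K H U hK hUK hH hU hi
    obtain ⟨g, hg⟩ := ih _ (hn ▸ card_sub_lt hK) K rfl (hG.subgroup K) (H.subgroupOf K)
      (U.subgroupOf K) (hH.comap_bot K.subtype_injective) hi (hU.comap_bot K.subtype_injective)
    refine ⟨g, fun u hu => ?_⟩
    have := mem_cj.mp (hg (x := ⟨u, hUK hu⟩) hu)
    exact mem_cj.mpr this
  by_cases h1 : ∃ S : Subgroup G, S.Normal ∧ S ≠ ⊥ ∧ Sec π ⊥ S
  · obtain ⟨S, _, hS, hS'⟩ := h1
    obtain ⟨g, hg⟩ := quot S hS
    rw [sup_eq_left.mpr (le_hall hH hi hS')] at hg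
    exact ⟨g, hg⟩
  by_cases hU0 : U = ⊥
  · exact ⟨1, by rw [hU0]; exact bot_le⟩
  obtain ⟨V, _, hV0, hV⟩ := hG.exists_bottom (by
    intro h; apply hU0; rw [eq_bot_iff, h]; exact le_top)
  have hV : Sec πᶜ ⊥ V := by
    rcases hV with h | ⟨q, hq, -, h⟩
    · exact h
    · exact absurd ⟨V, inferInstance, hV0, h.monoPi (Set.singleton_subset_iff.mpr hq)⟩ h1
  obtain ⟨g, hg⟩ := quot V hV0
  suffices h : ∃ g' : G, cj g⁻¹ U ≤ cj g' H by
    obtain ⟨g', hg'⟩ := h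
    refine ⟨g * g', fun u hu => ?_⟩
    have := mem_cj.mp (hg' (x := g⁻¹ * u * g) (mem_cj.mpr (by simpa [mul_assoc] using hu)))
    rw [mem_cj]
    simpa [mul_assoc] using this
  have hU1 : Sec π ⊥ (cj g⁻¹ U) := hU.cj _
  have hle : cj g⁻¹ U ≤ H ⊔ V := by
    intro u hu
    have := mem_cj.mp (hg (mem_cj.mp hu))
    simpa [mul_assoc] using this
  have hU10 : cj g⁻¹ U ≠ ⊥ := by
    intro h
    apply hU0
    rw [eq_bot_iff]
    intro u hu
    have : g⁻¹ * u * g ∈ cj g⁻¹ U := mem_cj.mpr (by simpa [mul_assoc] using hu)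
    rw [h, mem_bot] at this
    rw [mem_bot]
    calc u = g * (g⁻¹ * u * g) * g⁻¹ := by group
      _ = 1 := by rw [this]; group
  generalize cj g⁻¹ U = U1 at hU1 hle hU10
  by_cases h2 : U1 ⊔ V = ⊤
  swap
  · apply sub (U1 ⊔ V) H U1 h2 le_sup_left hH hU1
    apply hall_of_compl (V := V.subgroupOf (U1 ⊔ V)) (hH.comap_bot (Subgroup.subtype_injective _))
      (hV.comap_bot (Subgroup.subtype_injective _))
    rintro ⟨x, hx⟩
    have hx' : x ∈ V ⊔ H := by rw [sup_comm]; exact sup_le hle le_sup_right hx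
    obtain ⟨v, hv, y, hy, rfl⟩ := mem_sup_of_normal_left.mp hx'
    have hv' : v ∈ U1 ⊔ V := le_sup_right (a := U1) hv
    exact ⟨⟨v, hv'⟩, hv, ⟨y, (Subgroup.mul_mem_cancel_left _ hv').mp hx⟩, hy, rfl⟩
  have h3 : H ⊔ V = ⊤ := eq_top_iff.mpr (h2 ▸ sup_le hle le_sup_right)
  have hUq : U1.map (QuotientGroup.mk' V) = ⊤ := by
    have := congrArg (Subgroup.map (QuotientGroup.mk' V)) h2
    rwa [Subgroup.map_sup, QuotientGroup.map_mk'_self, sup_bot_eq,
      map_top_of_surjective _ (QuotientGroup.mk'_surjective V)] at this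
  obtain ⟨R, _, hR0, hR⟩ := (hG.quotient V).exists_bottom (by
    intro h
    apply hU10
    rw [eq_bot_iff]
    intro u hu
    have : QuotientGroup.mk' V u ∈ (⊥ : Subgroup (G ⧸ V)) := by rw [h]; trivial
    exact mem_bot.mpr (Sec.eq_one hU1 hV hu ((QuotientGroup.eq_one_iff u).mp this)))
  obtain ⟨r, hrπ, hr, hR⟩ : ∃ r ∈ π, r.Prime ∧ Sec {r} ⊥ R := by
    rcases hR with h | h
    · exfalso
      apply hR0
      rw [eq_bot_iff]
      intro x hx
      exact mem_bot.mpr (Sec.eq_one (hU1.map_bot (QuotientGroup.mk' V)) h (hUq ▸ mem_top x) hx)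
    · exact h
  have hR' := hR.comap (QuotientGroup.mk' V)
  rw [MonoidHom.comap_bot, QuotientGroup.ker_mk'] at hR'
  have hVR : V ≤ R.comap (QuotientGroup.mk' V) := fun v hv => by
    rw [mem_comap, QuotientGroup.mk'_apply, (QuotientGroup.eq_one_iff v).mpr hv]
    exact R.one_mem
  have s1 := sylIn_inf hr hrπ hV hVR hR' hU1 h2
  have s2 := sylIn_inf hr hrπ hV hVR hR' hH h3
  obtain ⟨y, hy, hyx⟩ := s1.conj hr s2
  have e : R.comap (QuotientGroup.mk' V) ⊓ U1 = R.comap (QuotientGroup.mk' V) ⊓ cj y H := by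
    ext x
    rw [hyx x, mem_inf, mem_inf, mem_cj,
      ← mem_normalizer_iff''.mp (le_norm_of_normal ⊤ _ (mem_top y)) x]
  obtain ⟨g', hg'⟩ := sub (normalizer ((R.comap (QuotientGroup.mk' V) ⊓ U1 : Subgroup G) : Set G))
    (cj y H) U1 (by
      intro h
      refine h1 ⟨_, normalizer_eq_top_iff.mp h, fun h0 => hR0 ?_, hU1.mono le_rfl inf_le_right⟩
      rw [eq_bot_iff]
      intro x hx
      obtain ⟨u, hu, rfl⟩ : x ∈ U1.map (QuotientGroup.mk' V) := hUq ▸ mem_top x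
      have : u ∈ R.comap (QuotientGroup.mk' V) ⊓ U1 := ⟨hx, hu⟩
      rw [h0, mem_bot] at this
      rw [this, map_one]; exact Subgroup.one_mem _)
    (norm_inf (le_norm_of_normal _ _) le_normalizer) (hH.cj y) hU1
    ((index_cj H y ▸ hi).of_dvd (relIndex_dvd_index_of_le
      (by rw [e]; exact norm_inf (le_norm_of_normal _ _) le_normalizer)))
  refine ⟨g' * y, fun u hu => ?_⟩
  have := mem_cj.mp (mem_cj.mp (hg' hu))
  rw [mem_cj]
  simpa [mul_assoc] using this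

theorem dl_of_hall {G : Type} [Group G] [Finite G] (hG : Sol π G) {H : Subgroup G}
    (hH : Sec π ⊥ H) (hi : PiNum πᶜ H.index) {d : ℕ} (hd : dser H d = ⊥) : DL π d G := by
  intro U hU
  obtain ⟨g, hg⟩ := hall_D π _ G rfl hG H U hH hi hU
  have h1 : U.map (MulAut.conj g⁻¹).toMonoidHom ≤ H := map_le_iff_le_comap.mpr hg
  have h2 := dser_mono h1 d
  rw [hd, ← map_dser, le_bot_iff] at h2
  exact (map_eq_bot_iff_of_injective _ (MulAut.conj g⁻¹).injective).mp h2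

end Pool.Agent.Lib.MP_fe96bf_al
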