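import Pool.Agent.Lib.MP_fe96bf_al.Middle

set_option autoImplicit false

namespace Pool.Agent.Lib.MP_fe96bf_al

open Subgroup
open scoped commutatorElement TensorProduct

variable {π : Set ℕ}

theorem chain_of {G : Type} [Group G] {N : Subgroup G} [hN : N.Normal] {k V : Type} [Field k]
    [AddCommGroup V] [Module k V] (ρ : G ⧸ N →* Module.End k V) (ι : G → V)
    (hι : ∀ v ∈ N, ∀ w ∈ N, ι (v * w) = ι v + ι w)
    (hρ : ∀ g, ∀ v ∈ N, ρ (QuotientGroup.mk' N g) (ι v) = ι (g * v * g⁻¹))
    (hspan : Submodule.span k (ι '' N) = ⊤) (H : Subgroup (G ⧸ N)) {d : ℕ}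
    (hd : dser (H.comap (QuotientGroup.mk' N)) d = ⊥) : ∃ F, Chain ρ H F ∧ F d = ⊥ := by
  set H' := H.comap (QuotientGroup.mk' N) with hH'
  have hn : H' ≤ normalizer (N : Set G) := le_norm_of_normal _ _
  have h1 : ι 1 = 0 := by
    have := hι 1 N.one_mem 1 N.one_mem
    rw [mul_one] at this
    exact left_eq_add.mp this
  refine ⟨fun j => Submodule.span k (ι '' cser N H' j), ⟨hspan, ?_, ?_⟩, ?_⟩
  · intro j h hh
    obtain ⟨g, rfl⟩ := QuotientGroup.mk'_surjective N h
    show Submodule.span k (ι '' cser N H' j) ≤ (Submodule.span k (ι '' cser N H' j)).comap _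
    rw [Submodule.span_le]
    rintro _ ⟨v, hv, rfl⟩
    show ρ _ (ι v) ∈ Submodule.span k (ι '' cser N H' j)
    rw [hρ g v (cser_le hn j hv)]
    exact Submodule.subset_span ⟨_, le_normalizer_iff.mp (norm_cser hn j) g hh v hv, rfl⟩
  · intro j h hh
    rw [← map_comap_eq_self_of_surjective (QuotientGroup.mk'_surjective N) H, ← map_dser] at hh
    obtain ⟨g, hg, rfl⟩ := hh
    show Submodule.span k (ι '' cser N H' j) ≤
      (Submodule.span k (ι '' cser N H' (j + 1))).comap (ρ (QuotientGroup.mk' N g) - 1)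
    rw [Submodule.span_le]
    rintro _ ⟨v, hv, rfl⟩
    show ρ _ (ι v) - ι v ∈ Submodule.span k (ι '' cser N H' (j + 1))
    have hv' := cser_le hn j hv
    have e : ι (g * v * g⁻¹) = ι (g * v * g⁻¹ * v⁻¹) + ι v := by
      rw [← hι _ (N.mul_mem (hN.conj_mem v hv' g) (N.inv_mem hv')) v hv']
      simp
    rw [hρ g v hv', e, add_sub_cancel_right]
    refine Submodule.subset_span ⟨_, ?_, rfl⟩
    have := Subgroup.inv_mem _ (commutator_mem_commutator hv hg)
    rwa [commutatorElement_inv] at this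
  · rw [Submodule.span_eq_bot]
    rintro _ ⟨v, hv, rfl⟩
    have hle : N ≤ H' := fun x hx => by
      rw [hH', mem_comap, QuotientGroup.mk'_apply, (QuotientGroup.eq_one_iff x).mpr hx]
      exact H.one_mem
    have := cser_le_dser hle d hv
    rw [hd, mem_bot] at this
    rw [this, h1]

theorem exists_rep_aux {G A : Type} [Group G] [CommGroup A] [Finite A] {p : ℕ} [Fact p.Prime]
    (hpow : ∀ v : A, v ^ p = 1) (ψ : G →* MulAut A) :
    ∃ (V : Type) (_ : AddCommGroup V) (_ : Module (AlgebraicClosure (ZMod p)) V)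
      (_ : FiniteDimensional (AlgebraicClosure (ZMod p)) V)
      (ρ : G →* Module.End (AlgebraicClosure (ZMod p)) V) (ι : A → V),
      Function.Injective ι ∧ (∀ v w, ι (v * w) = ι v + ι w) ∧
      (∀ g v, ρ g (ι v) = ι (ψ g v)) ∧
      Submodule.span (AlgebraicClosure (ZMod p)) (Set.range ι) = ⊤ := by
  obtain ⟨_⟩ : Nonempty (Module (ZMod p) (Additive A)) := ⟨AddCommGroup.zmodModule (fun x => by
    apply Additive.toMul.injective
    rw [toMul_nsmul]
    exact hpow _)⟩
  let k := AlgebraicClosure (ZMod p)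
  let φ : G → Additive A →ₗ[ZMod p] Additive A := fun g =>
    (MonoidHom.toAdditive (ψ g).toMonoidHom).toZModLinearMap p
  have hφ : ∀ g (v : A), φ g (Additive.ofMul v) = Additive.ofMul (ψ g v) :=
    fun g v => rfl
  let ρ0 : G →* Module.End k (k ⊗[ZMod p] Additive A) :=
    { toFun := fun g => (φ g).baseChange k
      map_one' := by
        have : φ 1 = LinearMap.id := by
          apply LinearMap.ext; intro v
          obtain ⟨v, rfl⟩ := Additive.ofMul.surjective v
          rw [hφ]; simp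
        rw [this, LinearMap.baseChange_id]; rfl
      map_mul' := fun a b => by
        have : φ (a * b) = φ a ∘ₗ φ b := by
          apply LinearMap.ext; intro v
          obtain ⟨v, rfl⟩ := Additive.ofMul.surjective v
          rw [LinearMap.comp_apply, hφ, hφ, hφ]; simp
        rw [this, LinearMap.baseChange_comp]; rfl }
  refine ⟨k ⊗[ZMod p] Additive A, inferInstance, inferInstance, inferInstance,
    ρ0, fun a => 1 ⊗ₜ Additive.ofMul a, ?_, ?_, fun _ _ => rfl, ?_⟩
  · intro a b h
    exact Additive.ofMul.injective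
      (Module.FaithfullyFlat.tensorProduct_mk_injective (A := ZMod p) (B := k) (Additive A) h)
  · intro v w
    rw [← TensorProduct.tmul_add]
    rfl
  · rw [eq_top_iff]
    intro x _
    induction x using TensorProduct.induction_on with
    | zero => exact Submodule.zero_mem _
    | tmul c v =>
      have : c ⊗ₜ[ZMod p] v = c • ((1 : k) ⊗ₜ[ZMod p] v) := by
        rw [TensorProduct.smul_tmul', smul_eq_mul, mul_one]
      rw [this]
      exact Submodule.smul_mem _ _ (Submodule.subset_span ⟨Additive.toMul v, rfl⟩)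
    | add x y hx hy => exact Submodule.add_mem _ (hx trivial) (hy trivial)

theorem exists_rep {G : Type} [Group G] [Finite G] {N : Subgroup G} [hN : N.Normal] {p : ℕ}
    [Fact p.Prime] (hpow : ∀ v ∈ N, v ^ p = 1) (hcomm : ∀ v ∈ N, ∀ w ∈ N, v * w = w * v)
    (hcent : ∀ x, (∀ v ∈ N, x * v = v * x) → x ∈ N) :
    ∃ (V : Type) (_ : AddCommGroup V) (_ : Module (AlgebraicClosure (ZMod p)) V)
      (_ : FiniteDimensional (AlgebraicClosure (ZMod p)) V)
      (ρ : G ⧸ N →* Module.End (AlgebraicClosure (ZMod p)) V) (ι : G → V),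
      Function.Injective ρ ∧ (∀ v ∈ N, ∀ w ∈ N, ι (v * w) = ι v + ι w) ∧
      (∀ g, ∀ v ∈ N, ρ (QuotientGroup.mk' N g) (ι v) = ι (g * v * g⁻¹)) ∧
      Submodule.span (AlgebraicClosure (ZMod p)) (ι '' N) = ⊤ := by
  classical
  let _ : CommGroup N := { (inferInstance : Group N) with
    mul_comm := fun a b => Subtype.ext (hcomm a a.2 b b.2) }
  obtain ⟨V, _, _, _, ρ0, ι0, hinj, hadd, hρ0, hspan⟩ := exists_rep_aux (G := G) (A := N) (p := p)
    (fun v => Subtype.ext (hpow v v.2)) MulAut.conjNormal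
  have hker : ∀ x ∈ N, ρ0 x = 1 := by
    intro x hx
    apply LinearMap.ext_on hspan
    rintro _ ⟨v, rfl⟩
    rw [hρ0, Module.End.one_apply]
    congr 1
    apply Subtype.ext
    rw [MulAut.conjNormal_apply, hcomm x hx v v.2]; group
  let ι : G → V := fun x => if h : x ∈ N then ι0 ⟨x, h⟩ else 0
  have hι : ∀ x (h : x ∈ N), ι x = ι0 ⟨x, h⟩ := fun x h => dif_pos h
  refine ⟨V, inferInstance, inferInstance, inferInstance,
    QuotientGroup.lift N ρ0 hker, ι, ?_, ?_, ?_, ?_⟩
  · rw [injective_iff_map_eq_one]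
    intro x hx
    obtain ⟨g, rfl⟩ := QuotientGroup.mk_surjective x
    rw [QuotientGroup.eq_one_iff]
    apply hcent
    intro v hv
    have h1 := hρ0 g ⟨v, hv⟩
    rw [show ρ0 g = 1 from hx, Module.End.one_apply] at h1
    have h3 := congrArg Subtype.val (hinj h1)
    rw [MulAut.conjNormal_apply] at h3
    exact (mul_inv_eq_iff_eq_mul.mp h3.symm)
  · intro v hv w hw
    rw [hι v hv, hι w hw, hι _ (N.mul_mem hv hw), ← hadd]
    rfl
  · intro g v hv
    rw [hι v hv, hι _ (hN.conj_mem v hv g)]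
    exact hρ0 g ⟨v, hv⟩
  · rw [← hspan]
    congr 1
    ext y
    constructor
    · rintro ⟨x, hx, rfl⟩; exact ⟨⟨x, hx⟩, (hι x hx).symm⟩
    · rintro ⟨x, rfl⟩; exact ⟨x, x.2, hι x x.2⟩

theorem sec_top_of_forall {G : Type*} [Group G] [Finite G]
    (h : ∀ x : G, Sec π ⊥ (zpowers x) → x = 1) : Sec πᶜ (⊥ : Subgroup G) ⊤ := by
  rw [sec_bot_iff_card]
  refine ⟨Nat.card_pos.ne', fun q hq hd hqπ => ?_⟩
  have : Fact q.Prime := ⟨hq⟩
  rw [card_top] at hd
  obtain ⟨x, hx⟩ := exists_prime_orderOf_dvd_card' q hd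
  have := h x (by
    rw [sec_bot_iff_card, Nat.card_zpowers, hx]
    simpa using PiNum.pow_prime hq hqπ 1)
  rw [this, orderOf_one] at hx
  exact hq.ne_one hx.symm

theorem main_step {d : ℕ}
    (IH : ∀ (G : Type) [Group G] [Finite G], Sol π G → DL π d G → Len π d (⊥ : Subgroup G))
    (n : ℕ) : ∀ (G : Type) [Group G] [Finite G], Nat.card G = n → Sol π G → DL π (d + 1) G →
      Len π (d + 1) (⊥ : Subgroup G) := by
  induction n using Nat.strong_induction_on with
  | _ n ih =>
  intro G _ _ hn hG hD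
  by_contra hcon
  have quot : ∀ (N : Subgroup G) [N.Normal], N ≠ ⊥ → Len π (d + 1) (⊥ : Subgroup (G ⧸ N)) :=
    fun N _ hN => ih _ (hn ▸ card_quot_lt hN) (G ⧸ N) rfl (hG.quotient N)
      (hD.of_surjective _ (QuotientGroup.mk'_surjective N))
  obtain ⟨p, hpπ, hp, V, L, hV⟩ := exists_prim hG hcon (fun N _ hN => (quot N hN).of_quotient)
  have hVn := hV.normal
  have hVπ : Sec π ⊥ V := fun x hx =>
    ⟨p, by simpa using PiNum.pow_prime hp hpπ 1, hV.pow x hx⟩
  have hcomap : ∀ H : Subgroup (G ⧸ V), Sec π ⊥ H → Sec π ⊥ (H.comap (QuotientGroup.mk' V)) := by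
    intro H hH
    have := hH.comap (QuotientGroup.mk' V)
    rw [MonoidHom.comap_bot, QuotientGroup.ker_mk'] at this
    exact hVπ.trans this
  have hVle : ∀ H : Subgroup (G ⧸ V), V ≤ H.comap (QuotientGroup.mk' V) := fun H x hx => by
    rw [mem_comap, QuotientGroup.mk'_apply, (QuotientGroup.eq_one_iff x).mpr hx]
    exact H.one_mem
  suffices h : ∃ R : Subgroup (G ⧸ V), R.Normal ∧ Sec π ⊥ R ∧ Len π d R by
    obtain ⟨R, hRn, hR, hR'⟩ := h
    have := hRn.comap (QuotientGroup.mk' V)
    exact hcon (Len.succ_of_sec (hcomap R hR) (hR'.comap _))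
  cases d with
  | zero =>
    refine ⟨⊥, inferInstance, Sec.of_le le_rfl, sec_top_of_forall fun x hx => ?_⟩
    obtain ⟨g, rfl⟩ := QuotientGroup.mk'_surjective V x
    have h1 := hD _ (hcomap _ hx)
    rw [QuotientGroup.mk'_apply, QuotientGroup.eq_one_iff]
    apply hV.cent
    intro v hv
    have : ⁅g, v⁆ ∈ dser ((zpowers (QuotientGroup.mk' V g)).comap (QuotientGroup.mk' V)) (0 + 1) :=
      commutator_mem_commutator (mem_zpowers _) (hVle _ hv)
    rw [h1, mem_bot] at this
    exact commutatorElement_eq_one_iff_mul_comm.mp this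
  | succ m =>
    have : Fact p.Prime := ⟨hp⟩
    obtain ⟨V', _, _, _, ρ, ι, hf, hι, hρ, hspan⟩ := exists_rep hV.pow hV.comm hV.cent
    refine middle hp hpπ hf (hG.quotient V) IH (quot V hV.ne) (fun K hK => ?_)
      (fun H hH => chain_of ρ ι hι hρ hspan H (hD _ (hcomap H hH)))
    have hK' : K.comap (QuotientGroup.mk' V) ≠ ⊤ := by
      intro h
      apply hK
      rw [← map_comap_eq_self_of_surjective (QuotientGroup.mk'_surjective V) K, h,
        map_top_of_surjective _ (QuotientGroup.mk'_surjective V)]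
    obtain ⟨M, P, hMn, hPn, hM, hP, hP'⟩ := ih _ (hn ▸ card_sub_lt hK') _ rfl (hG.subgroup _)
      (hD.of_injective _ (Subgroup.subtype_injective _))
    have hM0 : M = ⊥ := by
      rw [eq_bot_iff]
      intro x hx
      have hVs := hVπ.comap_bot (K.comap (QuotientGroup.mk' V)).subtype_injective
      have hVsn := hVn.comap (K.comap (QuotientGroup.mk' V)).subtype
      have : (x : G) ∈ V := by
        apply hV.cent
        intro v hv
        exact congrArg Subtype.val (commute_of_sec hVs hM (le_norm_of_normal _ _)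
          (le_norm_of_normal _ _) (a := ⟨v, hVle K hv⟩) hv hx).symm
      exact mem_bot.mpr (Sec.eq_one hVs hM this hx)
    have hs := MonoidHom.subgroupComap_surjective_of_surjective _ K (QuotientGroup.mk'_surjective V)
    rw [hM0] at hP
    exact ⟨P.map _, hPn.map _ hs, hP.map_bot _, hP'.map _ hs⟩

theorem main_DL (d : ℕ) : ∀ (G : Type) [Group G] [Finite G], Sol π G → DL π d G →
    Len π d (⊥ : Subgroup G) := by
  induction d with
  | zero => exact fun G _ _ _ hD => sec_top_of_forall fun x hx =>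
      mem_bot.mp ((hD _ hx : zpowers x = ⊥) ▸ mem_zpowers x)
  | succ d ih => exact fun G _ _ hG hD => main_step ih _ G rfl hG hD

theorem card_div_eq {G : Type*} [Group G] [Finite G] {A B : Subgroup G} (h : A ≤ B) :
    Nat.card B / Nat.card A = A.relIndex B := by
  have h1 := (A.subgroupOf B).card_mul_index
  rw [Nat.card_congr (subgroupOfEquivOfLe h).toEquiv] at h1
  rw [← h1, Nat.mul_div_cancel_left _ Nat.card_pos]
  rfl

end Pool.Agent.Lib.MP_fe96bf_al
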