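import Pool.Agent.Lib.MP_fe96bf_al.Reduce
import Pool.Agent.Lib.MP_fe96bf_al.Core

set_option autoImplicit false

namespace Pool.Agent.Lib.MP_fe96bf_al

open Subgroup
open scoped commutatorElement

variable {π : Set ℕ}

theorem len_of_centralizer {L : Type*} [Group L] [Finite L] {d : ℕ} {M P : Subgroup L} [M.Normal]
    [P.Normal] (hM : Sec πᶜ ⊥ M) (hP : Sec π M P) (h1 : Len π d P)
    (h2 : Len π d (centralizer (M : Set L) ⊔ M)) :
    ∃ R : Subgroup L, R.Normal ∧ Sec π ⊥ R ∧ Len π d R := by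
  have h3 : Len π d (centralizer (M : Set L)) :=
    h2.absorb (by rw [sup_comm]; exact (hM.mono bot_le le_rfl).sup_normal)
  obtain ⟨R, hRS, hR, hdec⟩ := schur_zass (π := π) (N := centralizer (M : Set L) ⊓ M)
    (S := centralizer (M : Set L) ⊓ P) (le_norm_of_normal _ _) (hM.mono le_rfl inf_le_right)
    ((Sec.of_le le_rfl).inf hP)
  have hcomm : ∀ r ∈ R, ∀ n ∈ centralizer (M : Set L) ⊓ M, Commute r n := fun r hr n hn =>
    (mem_centralizer_iff.mp (hRS hr).1 n hn.2).symm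
  refine ⟨R, ⟨fun r hr g => ?_⟩, hR, (h3.inf h1).absorb fun x hx => ?_⟩
  · obtain ⟨r', hr', n, hn, e⟩ := hdec (g * r * g⁻¹)
      ((inferInstance : (centralizer (M : Set L) ⊓ P).Normal).conj_mem r (hRS hr) g)
    obtain ⟨i, hi, hi'⟩ := hR r hr
    obtain ⟨j, hj, hj'⟩ := hR r' hr'
    obtain ⟨l, hl, hl'⟩ := hM n hn.2
    have e1 : (r' * n) ^ (i * j) = 1 := by
      rw [← e, conj_pow, pow_mul, mem_bot.mp hi']; simp
    rw [(hcomm r' hr' n hn).mul_pow, mul_comm i j, pow_mul, mem_bot.mp hj', one_pow, one_mul] at e1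
    rw [e, eq_one_of_pow (hj.mul hi) hl e1 (mem_bot.mp hl'), mul_one]
    exact hr'
  · obtain ⟨r, hr, n, hn, rfl⟩ := hdec x hx
    obtain ⟨l, hl, hl'⟩ := hM n hn.2
    refine ⟨l, hl, ?_⟩
    rw [(hcomm r hr n hn).mul_pow, mem_bot.mp hl', mul_one]
    exact R.pow_mem hr l

theorem sylIn_of_cover {G : Type*} [Group G] {r : ℕ} (hr : r.Prime) (hrπ : r ∈ π)
    {P X M : Subgroup G} [M.Normal] (hM : Sec πᶜ ⊥ M) (hP : IsPGroup r P) (hPX : P ≤ X)
    (hX : X ≤ P ⊔ M) : SylIn r P X := by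
  refine ⟨hPX, hP, fun S h1 h2 h3 y hy => ?_⟩
  obtain ⟨x, hx, v, hv, rfl⟩ := mem_sup_of_normal_right.mp (hX (h3 hy))
  have hvS : v ∈ S := (S.mul_mem_cancel_left (h2 hx)).mp hy
  rwa [Sec.eq_one (sec_of_isPGroup hr hrπ h1) hM hvS hv, mul_one]

theorem exists_Q {L : Type*} [Group L] [Finite L] {r : ℕ} (hr : r.Prime) (hrπ : r ∈ π)
    {P M : Subgroup L} [M.Normal] [(P ⊔ M).Normal] (hM : Sec πᶜ ⊥ M) (hP : IsPGroup r P)
    (hPM : ¬ P ≤ centralizer (M : Set L)) :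
    ∃ q : ℕ, q.Prime ∧ ∃ Q ≤ M, IsPGroup q Q ∧ P ≤ normalizer (Q : Set L) ∧
      ¬ P ≤ centralizer (Q : Set L) ∧
      ∀ g, ∃ n ∈ M, ∃ t ∈ normalizer (P : Set L) ⊓ normalizer (Q : Set L), g = n * t := by
  have h1 : (centralizer (P : Set L)).relIndex M ≠ 1 := fun h =>
    hPM (le_centralizer_iff.mp (relIndex_eq_one.mp h))
  obtain ⟨q, hq, hqd⟩ := Nat.exists_prime_and_dvd h1
  obtain ⟨Q1, hQ1⟩ := exists_sylIn q M
  obtain ⟨P', hP'⟩ := exists_sylIn r ((P ⊔ M) ⊓ normalizer (Q1 : Set L))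
  have hsec : Sec {r} M (P ⊔ M) :=
    ((sec_of_isPGroup hr (Set.mem_singleton r) hP).mono bot_le le_rfl).sup_normal
  have hcov := hP'.cover hr (hsec.mono le_rfl inf_le_left)
  have s1 : SylIn r P' (P ⊔ M) := by
    apply sylIn_of_cover hr hrπ hM hP'.pg (hP'.le.trans inf_le_left)
    intro x hx
    obtain ⟨n, hn, t, ht, rfl⟩ := hQ1.frattini hq (le_norm_of_normal ⊤ M (mem_top x))
    exact Subgroup.mul_mem _ (mem_sup_right hn)
      (hcov ⟨(Subgroup.mul_mem_cancel_left _ (mem_sup_right hn)).mp hx, ht⟩)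
  have s2 : SylIn r P (P ⊔ M) := sylIn_of_cover hr hrπ hM hP le_sup_left le_rfl
  obtain ⟨n, -, hn⟩ := s2.conj hr s1
  have hQ : SylIn q (cj n Q1) M := hQ1.cj (le_norm_of_normal ⊤ M (mem_top n))
  have hPQ : P ≤ normalizer ((cj n Q1 : Subgroup L) : Set L) := by
    rw [le_normalizer_iff]
    intro w hw y hy
    have := (mem_normalizer_iff.mp (hP'.le ((hn w).mp hw)).2 _).mp (mem_cj.mp hy)
    rw [mem_cj]
    simpa [mul_assoc] using this
  refine ⟨q, hq, cj n Q1, hQ.le, hQ.pg, hPQ, fun h => hQ.not_dvd hq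
    (hqd.trans (relIndex_dvd_of_le_left _ (le_centralizer_iff.mp h))), fun g => ?_⟩
  obtain ⟨n1, hn1, t1, ht1, rfl⟩ := hQ.frattini hq (le_norm_of_normal ⊤ M (mem_top g))
  obtain ⟨n2, hn2, t2, ht2, e⟩ := (s2.mono (le_inf le_sup_left hPQ) inf_le_left).frattini hr
    (norm_inf (le_norm_of_normal _ _) le_normalizer ht1)
  have ht2' : t2 ∈ normalizer ((cj n Q1 : Subgroup L) : Set L) :=
    (Subgroup.mul_mem_cancel_left _ hn2.2).mp (e ▸ ht1)
  obtain ⟨n3, hn3, w, hw, e2⟩ := mem_sup_of_normal_left.mp (sup_comm P M ▸ hn2.1)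
  exact ⟨n1 * n3, M.mul_mem hn1 hn3, w * t2, ⟨Subgroup.mul_mem _ (le_normalizer hw) ht2,
    Subgroup.mul_mem _ (hPQ hw) ht2'⟩, by rw [e, ← e2]; group⟩

theorem middle {L : Type} [Group L] [Finite L] {k V : Type} [Field k] [AddCommGroup V]
    [Module k V] [IsAlgClosed k] [FiniteDimensional k V] {ρ : L →* Module.End k V} {p : ℕ}
    (hp : p.Prime) [CharP k p] (hpπ : p ∈ π) (hf : Function.Injective ρ) (hL : Sol π L) {m : ℕ}
    (IH : ∀ (G : Type) [Group G] [Finite G], Sol π G → DL π (m + 1) G →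
      Len π (m + 1) (⊥ : Subgroup G))
    (h4 : Len π (m + 2) (⊥ : Subgroup L))
    (h3 : ∀ K : Subgroup L, K ≠ ⊤ → ∃ R : Subgroup K, R.Normal ∧ Sec π ⊥ R ∧ Len π (m + 1) R)
    (h1 : ∀ H : Subgroup L, Sec π ⊥ H → ∃ F, Chain ρ H F ∧ F (m + 2) = ⊥) :
    ∃ R : Subgroup L, R.Normal ∧ Sec π ⊥ R ∧ Len π (m + 1) R := by
  by_contra h2
  obtain ⟨M, P1, hMn, hP1n, hM, hP1, hP1'⟩ := h4
  obtain ⟨D, -, ⟨hDn, hCD, hD⟩, hDmax⟩ := Finite.exists_le_maximal
    (p := fun D : Subgroup L => D.Normal ∧ centralizer (M : Set L) ⊔ M ≤ D ∧ ¬ Len π (m + 1) D)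
    (a := centralizer (M : Set L) ⊔ M)
    ⟨inferInstance, le_rfl, fun h => h2 (len_of_centralizer hM hP1 hP1' h)⟩
  have hMD : M ≤ D := le_sup_right.trans hCD
  let f := QuotientGroup.mk' D
  have hfs : Function.Surjective f := QuotientGroup.mk'_surjective D
  have hker : ∀ x, f x = 1 ↔ x ∈ D := fun x => QuotientGroup.eq_one_iff x
  have hmapbot : ∀ Y : Subgroup L, Y.map f = ⊥ ↔ Y ≤ D := fun Y => by
    rw [Subgroup.map_eq_bot_iff, QuotientGroup.ker_mk']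
  have hG1 : ¬ Len π (m + 1) (⊥ : Subgroup (L ⧸ D)) := fun h => hD h.of_quotient
  obtain ⟨r, hrπ, hr, W, L1, hW⟩ := exists_prim (hL.quotient D) hG1 (by
    intro N hN hN0
    have hDN : D ≤ N.comap f := fun x hx => by
      rw [mem_comap, (hker x).mpr hx]; exact N.one_mem
    have : Len π (m + 1) (N.comap f) := by
      by_contra h
      apply hN0
      rw [← map_comap_eq_self_of_surjective hfs N, hmapbot]
      exact hDmax ⟨hN.comap f, hCD.trans hDN, h⟩ hDN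
    have := this.map f hfs
    rwa [map_comap_eq_self_of_surjective hfs] at this)
  have hWn := hW.normal
  have hWπ : Sec π ⊥ W := fun x hx =>
    ⟨r, by simpa using PiNum.pow_prime hr hrπ 1, hW.pow x hx⟩
  obtain ⟨U, hU, hWU, hUd⟩ : ∃ U : Subgroup (L ⧸ D), Sec π ⊥ U ∧ W ≤ U ∧
      cser W U (m + 1) ≠ ⊥ := by
    obtain ⟨U0, hU0, hU0d⟩ : ∃ U : Subgroup (L ⧸ D), Sec π ⊥ U ∧ dser U (m + 1) ≠ ⊥ := by
      by_contra h
      push Not at h
      exact hG1 (IH _ (hL.quotient D) h)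
    refine ⟨U0 ⊔ W, Sec.sup_bot (le_norm_of_normal _ _) hU0 hWπ, le_sup_right, fun h => hU0d ?_⟩
    exact le_bot_iff.mp ((dser_mono le_sup_left _).trans (hW.dser_eq_bot le_sup_right h).le)
  obtain ⟨X, ⟨hXn, hMX, hXW, hXD⟩, hXmin⟩ := exists_minimal_of_wellFoundedLT
    (fun X : Subgroup L => X.Normal ∧ M ≤ X ∧ X ≤ W.comap f ∧ ¬ X ≤ D)
    ⟨W.comap f, hWn.comap f, fun x hx => by
      rw [mem_comap, (hker x).mpr (hMD hx)]; exact W.one_mem, le_rfl, fun h => hW.ne (by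
        rw [← map_comap_eq_self_of_surjective hfs W, hmapbot]; exact h)⟩
  obtain ⟨P, hP⟩ := exists_sylIn r X
  have hcov : X ≤ P ⊔ D := hP.cover hr fun x hx =>
    ⟨r, by simpa using PiNum.pow_prime hr (Set.mem_singleton r) 1,
      (hker _).mp (by rw [map_pow]; exact hW.pow _ (hXW hx))⟩
  have hPD : ¬ P ≤ D := fun h => hXD (hcov.trans (sup_le h le_rfl))
  have hPW : P.map f = W := by
    apply le_antisymm (map_le_iff_le_comap.mpr (hP.le.trans hXW))
    refine (hW.min _ (hXn.map f hfs) (fun h => hXD ((hmapbot X).mp h))).trans ?_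
    refine (map_mono hcov).trans ?_
    rw [Subgroup.map_sup, (hmapbot D).mpr le_rfl, sup_bot_eq]
  have hK : normalizer (P : Set L) ⊔ M = ⊤ := by
    by_contra hK
    obtain ⟨R, hRn, hR, hR'⟩ := h3 _ hK
    apply hG1
    have hs : Function.Surjective (f.comp (normalizer (P : Set L) ⊔ M).subtype) := by
      intro y
      obtain ⟨x, rfl⟩ := hfs y
      obtain ⟨n, hn, t, ht, rfl⟩ := hP.frattini hr (le_norm_of_normal ⊤ X (mem_top x))
      obtain ⟨w, hw, z, hz, rfl⟩ := mem_sup_of_normal_right.mp (hcov hn)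
      refine ⟨⟨w * t, mem_sup_left (Subgroup.mul_mem _ (le_normalizer hw) ht)⟩, ?_⟩
      simp only [MonoidHom.comp_apply, Subgroup.subtype_apply, map_mul, (hker z).mpr hz, mul_one]
    refine (hR'.map _ hs).mono ?_
    rintro _ ⟨x, hx, rfl⟩
    rw [mem_bot, MonoidHom.comp_apply, hker]
    apply le_sup_left.trans hCD
    rw [mem_centralizer_iff]
    intro y hy
    refine (commute_of_sec (hR.map_bot (normalizer (P : Set L) ⊔ M).subtype) hM
      (le_norm_of_normal _ _) ?_ ⟨x, hx, rfl⟩ hy).symm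
    rw [le_normalizer_iff]
    rintro z hz _ ⟨u, hu, rfl⟩
    exact ⟨_, hRn.conj_mem u hu ⟨z, mem_sup_right hz⟩, rfl⟩
  have hPMn : (P ⊔ M).Normal := by
    rw [← normalizer_eq_top_iff, eq_top_iff, ← hK]
    exact sup_le (norm_sup le_rfl (le_norm_of_normal _ _)) (le_sup_right.trans le_normalizer)
  obtain ⟨q, hq, Q, hQM, hQq, hPQ, hPQ', hdec⟩ := exists_Q hr hrπ hM hP.pg
    (fun h => hPD (h.trans (le_sup_left.trans hCD)))
  obtain ⟨U1, hU1T, hU1, hU1f⟩ := exists_lift f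
    (K := normalizer (P : Set L) ⊓ normalizer (Q : Set L)) hU (by
      intro y _
      obtain ⟨x, rfl⟩ := hfs y
      obtain ⟨n, hn, t, ht, rfl⟩ := hdec x
      exact ⟨t, ht, by rw [map_mul, (hker n).mpr (hMD hn), one_mul]⟩)
  have hPπ : Sec π ⊥ P := sec_of_isPGroup hr hrπ hP.pg
  have hH : Sec π ⊥ (U1 ⊔ P) := Sec.sup_bot (hU1T.trans inf_le_left) hU1 hPπ
  have hHT : U1 ⊔ P ≤ normalizer (P : Set L) ⊓ normalizer (Q : Set L) :=
    sup_le hU1T (le_inf le_normalizer hPQ)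
  have hHP := hHT.trans inf_le_left
  obtain ⟨F, hF, hFm⟩ := h1 _ hH
  apply hPQ'
  apply core hp hpπ hf hF hFm hHT le_sup_right inf_le_left inf_le_right hH (hM.mono le_rfl hQM) hq
    hQq (cser_le hHP m) (cser_le_dser le_sup_right m) (norm_cser hHP m)
  intro Y hYP hTY hAY
  have hYD : ¬ Y ≤ D := by
    intro h
    apply hUd
    have := (hmapbot (cser P (U1 ⊔ P) (m + 1))).mpr (hAY.trans h)
    rwa [map_cser, Subgroup.map_sup, hU1f, hPW, sup_eq_left.mpr hWU] at this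
  have hYMn : (Y ⊔ M).Normal := by
    rw [← normalizer_eq_top_iff, eq_top_iff]
    intro g _
    obtain ⟨n, hn, t, ht, rfl⟩ := hdec g
    exact Subgroup.mul_mem _ (le_normalizer (mem_sup_right hn))
      (norm_sup hTY (le_norm_of_normal _ _) ht)
  have hle : Y ⊔ M ≤ X := sup_le (hYP.trans hP.le) hMX
  have := hXmin ⟨hYMn, le_sup_right, hle.trans hXW, fun h => hYD (le_sup_left.trans h)⟩ hle
  intro w hw
  obtain ⟨y, hy, n, hn, rfl⟩ := mem_sup_of_normal_right.mp (this (hP.le hw))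
  rwa [Sec.eq_one hPπ hM ((P.mul_mem_cancel_left (hYP hy)).mp hw) hn, mul_one]

end Pool.Agent.Lib.MP_fe96bf_al
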