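import Pool.Agent.Lib.MP_fe96bf_al.Textbook

set_option autoImplicit false

namespace Pool.Agent.Lib.MP_fe96bf_al.Nil

open Subgroup
open scoped commutatorElement

variable {G : Type*} [Group G] {G' : Type*} [Group G'] {π : Set ℕ}

def NS (A B : Subgroup G) : Prop := ∃ c, B.lowerCentralSeries c ≤ A

theorem NS.mono {A A' B B' : Subgroup G} (h : NS A B) (hA : A ≤ A') (hB : B' ≤ B) : NS A' B' := by
  obtain ⟨c, hc⟩ := h
  exact ⟨c, ((lowerCentralSeries_mono c hB).trans hc).trans hA⟩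

theorem NS.of_le {A B : Subgroup G} (h : B ≤ A) : NS A B := ⟨0, h⟩

theorem NS.map {A B : Subgroup G} (h : NS A B) (f : G →* G') : NS (A.map f) (B.map f) := by
  obtain ⟨c, hc⟩ := h
  exact ⟨c, by rw [← map_lowerCentralSeries]; exact map_mono hc⟩

theorem NS.comap {A B : Subgroup G'} (h : NS A B) (f : G →* G') : NS (A.comap f) (B.comap f) := by
  obtain ⟨c, hc⟩ := h
  refine ⟨c, ?_⟩
  rw [← map_le_iff_le_comap, map_lowerCentralSeries]
  exact (lowerCentralSeries_mono c (map_comap_le f B)).trans hc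

theorem NS.inf {A B A' B' : Subgroup G} (h : NS A B) (h' : NS A' B') : NS (A ⊓ A') (B ⊓ B') := by
  obtain ⟨c, hc⟩ := h
  obtain ⟨c', hc'⟩ := h'
  refine ⟨c + c', le_inf ?_ ?_⟩
  · exact ((Subgroup.lowerCentralSeries_antitone _ (Nat.le_add_right c c')).trans
      (lowerCentralSeries_mono c inf_le_left)).trans hc
  · exact ((Subgroup.lowerCentralSeries_antitone _ (Nat.le_add_left c' c)).trans
      (lowerCentralSeries_mono c' inf_le_right)).trans hc'

theorem NS.sup_normal {N U : Subgroup G} [N.Normal] (h : NS N U) : NS N (U ⊔ N) := by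
  obtain ⟨c, hc⟩ := h
  refine ⟨c, ?_⟩
  have e : ∀ Y : Subgroup G, Y.map (QuotientGroup.mk' N) = ⊥ ↔ Y ≤ N := fun Y => by
    rw [Subgroup.map_eq_bot_iff, QuotientGroup.ker_mk']
  rw [← e, map_lowerCentralSeries, Subgroup.map_sup, (e N).mpr le_rfl, sup_bot_eq,
    ← map_lowerCentralSeries, e]
  exact hc

theorem ns_bot_iff {B : Subgroup G} : NS ⊥ B ↔ Group.IsNilpotent B := by
  rw [isNilpotent_iff_lowerCentralSeries]
  exact ⟨fun ⟨c, hc⟩ => ⟨c, le_bot_iff.mp hc⟩, fun ⟨c, hc⟩ => ⟨c, hc.le⟩⟩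

theorem ns_of_p [Finite G] {p : ℕ} (hp : p.Prime) {B : Subgroup G} (h : Sec {p} ⊥ B) : NS ⊥ B := by
  have : Fact p.Prime := ⟨hp⟩
  exact ns_bot_iff.mpr h.isPGroup.isNilpotent

theorem syl_normal [Finite G] {q : ℕ} (hq : q.Prime) {S R : Subgroup G} [R.Normal]
    (hR : NS ⊥ R) (hS : SylIn q S R) : S.Normal := by
  have : Fact q.Prime := ⟨hq⟩
  have := ns_bot_iff.mp hR
  have h1 : (S.subgroupOf R).Normal := (inferInstance : hS.toSylow.toSubgroup.Normal)
  have h2 : R ≤ normalizer (S : Set G) := (normal_subgroupOf_iff_le_normalizer hS.le).mp h1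
  rw [← normalizer_eq_top_iff, eq_top_iff]
  intro g _
  obtain ⟨n, hn, t, ht, rfl⟩ := hS.frattini hq (le_norm_of_normal ⊤ R (mem_top g))
  exact Subgroup.mul_mem _ (h2 hn) ht

theorem sec_syl [Finite G] {q : ℕ} (hq : q.Prime) {S R : Subgroup G} [S.Normal]
    (hS : SylIn q S R) : Sec {q}ᶜ S R :=
  sec_iff_relIndex.mpr ⟨(S.subgroupOf R).index_ne_zero_of_finite, fun r _ hr h => by
    rw [Set.mem_singleton_iff.mp h] at hr; exact hS.not_dvd hq hr⟩

def NLen (π : Set ℕ) : ℕ → Subgroup G → Prop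
  | 0, N => Sec πᶜ N ⊤
  | d + 1, N => ∃ M P : Subgroup G, M.Normal ∧ P.Normal ∧ Sec πᶜ N M ∧ Sec π M P ∧ NS M P ∧
      NLen π d P

theorem NLen.absorb {d : ℕ} {N N' : Subgroup G} (h : NLen π d N') (hN : Sec πᶜ N N') :
    NLen π d N := by
  cases d with
  | zero => exact hN.trans h
  | succ d =>
    obtain ⟨M, P, h1, h2, h3, h4, h5⟩ := h
    exact ⟨M, P, h1, h2, hN.trans h3, h4, h5⟩

theorem NLen.mono {d : ℕ} {N N' : Subgroup G} (h : NLen π d N) (hN : N ≤ N') : NLen π d N' :=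
  h.absorb (Sec.of_le hN)

theorem NLen.inf {d : ℕ} :
    ∀ {N N' : Subgroup G}, NLen π d N → NLen π d N' → NLen π d (N ⊓ N') := by
  induction d with
  | zero => intro N N' h h'; simpa [NLen] using Sec.inf h h'
  | succ d ih =>
    rintro N N' ⟨M, P, h1, h2, h3, h4, h6, h5⟩ ⟨M', P', h1', h2', h3', h4', h6', h5'⟩
    exact ⟨M ⊓ M', P ⊓ P', inferInstance, inferInstance, h3.inf h3', h4.inf h4', h6.inf h6',
      ih h5 h5'⟩

theorem NLen.comap {d : ℕ} (f : G →* G') :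
    ∀ {N : Subgroup G'}, NLen π d N → NLen π d (N.comap f) := by
  induction d with
  | zero => intro N h; simpa [NLen] using Sec.comap h f
  | succ d ih =>
    rintro N ⟨M, P, h1, h2, h3, h4, h6, h5⟩
    exact ⟨M.comap f, P.comap f, h1.comap f, h2.comap f, h3.comap f, h4.comap f, h6.comap f, ih h5⟩

theorem NLen.map {d : ℕ} (f : G →* G') (hf : Function.Surjective f) :
    ∀ {N : Subgroup G}, NLen π d N → NLen π d (N.map f) := by
  induction d with
  | zero =>
    intro N h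
    have := Sec.map h f
    rwa [map_top_of_surjective f hf] at this
  | succ d ih =>
    rintro N ⟨M, P, h1, h2, h3, h4, h6, h5⟩
    exact ⟨M.map f, P.map f, h1.map f hf, h2.map f hf, h3.map f, h4.map f, h6.map f, ih h5⟩

theorem NLen.top (d : ℕ) : NLen π d (⊤ : Subgroup G) := by
  induction d with
  | zero => exact Sec.of_le le_rfl
  | succ d ih =>
    exact ⟨⊤, ⊤, inferInstance, inferInstance, Sec.of_le le_rfl, Sec.of_le le_rfl,
      NS.of_le le_rfl, ih⟩

theorem NLen.succ_of_p [Finite G] {d p : ℕ} (hp : p.Prime) (hpπ : p ∈ π) {P : Subgroup G}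
    [P.Normal] (h : Sec {p} ⊥ P) (hP : NLen π d P) : NLen π (d + 1) (⊥ : Subgroup G) :=
  ⟨⊥, P, inferInstance, inferInstance, Sec.of_le le_rfl,
    h.monoPi (Set.singleton_subset_iff.mpr hpπ), ns_of_p hp h, hP⟩

theorem NLen.succ_le {d : ℕ} {N : Subgroup G} [N.Normal] (h : NLen π (d + 1) N) :
    ∃ M P : Subgroup G, M.Normal ∧ P.Normal ∧ N ≤ M ∧ M ≤ P ∧ Sec πᶜ N M ∧ Sec π M P ∧ NS M P ∧
      NLen π d P := by
  obtain ⟨M, P, h1, h2, h3, h4, h6, h5⟩ := h
  refine ⟨M ⊔ N, P ⊔ (M ⊔ N), inferInstance, inferInstance, le_sup_right, le_sup_right,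
    h3.sup_normal, (h4.mono le_sup_left le_rfl).sup_normal,
    (h6.mono le_sup_left le_rfl).sup_normal, h5.mono le_sup_left⟩

theorem NLen.of_quotient {d : ℕ} {N : Subgroup G} [N.Normal]
    (h : NLen π d (⊥ : Subgroup (G ⧸ N))) : NLen π d N := by
  have := h.comap (QuotientGroup.mk' N)
  rwa [MonoidHom.comap_bot, QuotientGroup.ker_mk'] at this

theorem NLen.series {d : ℕ} : ∀ (N : Subgroup G) [N.Normal], NLen π d N →
    ∃ T : ℕ → Subgroup G, T 0 = N ∧ (∀ i, 2 * d + 1 ≤ i → T i = ⊤) ∧ (∀ i, T i ≤ T (i + 1)) ∧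
      (∀ i, (T i).Normal) ∧ (∀ i ≤ d, Sec πᶜ (T (2 * i)) (T (2 * i + 1))) ∧
      (∀ i < d, Sec π (T (2 * i + 1)) (T (2 * i + 2)) ∧ NS (T (2 * i + 1)) (T (2 * i + 2))) := by
  induction d with
  | zero =>
    intro N hN h
    refine ⟨fun i => if i = 0 then N else ⊤, by simp, fun i hi => ?_, fun i => by simp,
      fun i => ?_, fun i hi => ?_, fun i hi => by omega⟩
    · have : i ≠ 0 := by omega
      simp [this]
    · by_cases h : i = 0 <;> simp [h, hN]
    · obtain rfl : i = 0 := by omega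
      simpa [NLen] using h
  | succ d ih =>
    intro N hN h
    obtain ⟨M, P, h1, h2, h3, h4, h5, h6, h8, h7⟩ := h.succ_le
    obtain ⟨T, t0, t1, t2, t3, t4, t5⟩ := ih P h7
    refine ⟨fun i => match i with | 0 => N | 1 => M | i + 2 => T i, rfl, fun i hi => ?_,
      fun i => ?_, fun i => ?_, fun i hi => ?_, fun i hi => ?_⟩
    · obtain ⟨j, rfl⟩ : ∃ j, i = j + 2 := ⟨i - 2, by omega⟩
      exact t1 j (by omega)
    · match i with
      | 0 => exact h3
      | 1 => show M ≤ T 0; rw [t0]; exact h4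
      | i + 2 => exact t2 i
    · match i with
      | 0 => exact hN
      | 1 => exact h1
      | i + 2 => exact t3 i
    · match i with
      | 0 => exact h5
      | i + 1 => exact t4 i (by omega)
    · match i with
      | 0 => show Sec π M (T 0) ∧ NS M (T 0); rw [t0]; exact ⟨h6, h8⟩
      | i + 1 => exact t5 i (by omega)

theorem nilpotent_factor {A B : Subgroup G} [A.Normal] (h : NS A B) :
    Group.IsNilpotent (B ⧸ A.subgroupOf B) := by
  obtain ⟨c, hc⟩ := h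
  rw [Subgroup.nilpotent_iff_lowerCentralSeries]
  refine ⟨c, ?_⟩
  rw [← map_top_of_surjective _ (QuotientGroup.mk'_surjective (A.subgroupOf B)),
    ← map_lowerCentralSeries, Subgroup.map_eq_bot_iff, QuotientGroup.ker_mk']
  intro x hx
  apply hc
  rw [← top_subtype_lowerCentralSeries]
  exact ⟨x, hx, rfl⟩

/-- The primitive structure from a normal p'-section above the monolith. -/
theorem prim_of [Finite G] {p : ℕ} {V K : Subgroup G} [hVn : V.Normal] [hK : K.Normal]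
    (hV0 : V ≠ ⊥) (hpow : ∀ v ∈ V, v ^ p = 1) (hcomm : ∀ v ∈ V, ∀ w ∈ V, v * w = w * v)
    (hmin : ∀ N : Subgroup G, N.Normal → N ≠ ⊥ → V ≤ N) (hVπ : Sec {p} ⊥ V)
    (h1 : Sec {p}ᶜ V K) (hKV : ¬ K ≤ V) : ∃ L, Prim p V L := by
  have hno : ∀ N : Subgroup G, N.Normal → Sec {p}ᶜ ⊥ N → N = ⊥ := by
    intro N hN h
    by_contra h0
    apply hV0
    rw [eq_bot_iff]
    exact fun x hx => mem_bot.mpr (Sec.eq_one hVπ h hx (hmin N hN h0 hx))
  obtain ⟨M, hMK, hM, hdec⟩ := schur_zass (π := {p}ᶜ) (le_norm_of_normal K V)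
    (by rwa [compl_compl]) h1
  have : IsMulCommutative V := ⟨⟨fun a b => Subtype.ext (hcomm a a.2 b b.2)⟩⟩
  have dec : ∀ x, ∃ v ∈ V, ∃ l ∈ normalizer (M : Set G), x = v * l := by
    intro g
    obtain ⟨u, hu, h⟩ := conj_of_abelian (M' := cj g M) hVπ hM (hM.cj g) (by
      intro x hx
      have hxK : x ∈ K := by
        have := hK.conj_mem _ (hMK (mem_cj.mp hx)) g
        simpa [mul_assoc] using this
      obtain ⟨r, hr, n, hn, rfl⟩ := hdec x hxK
      rw [sup_comm]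
      exact mul_mem_sup hr hn)
    refine ⟨u, hu, u⁻¹ * g, mem_normalizer_fintype fun m hm => ?_, by group⟩
    have := h (g * m * g⁻¹) (mem_cj.mpr (by simpa [mul_assoc] using hm))
    simpa [mul_assoc] using this
  have disj : V ⊓ normalizer (M : Set G) = ⊥ := by
    by_contra h
    have hle := hmin _ ⟨fun x hx g => by
      obtain ⟨v, hv, l, hl, rfl⟩ := dec g
      have h1 : l * x * l⁻¹ ∈ V := hVn.conj_mem x hx.1 l
      have e : v * l * x * (v * l)⁻¹ = l * x * l⁻¹ := by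
        calc v * l * x * (v * l)⁻¹ = v * (l * x * l⁻¹) * v⁻¹ := by group
          _ = l * x * l⁻¹ := by rw [hcomm v hv _ h1]; group
      rw [e]
      exact ⟨h1, Subgroup.mul_mem _ (Subgroup.mul_mem _ hl hx.2) (Subgroup.inv_mem _ hl)⟩⟩ h
    have hMn : M.Normal := by
      rw [← normalizer_eq_top_iff, eq_top_iff]
      intro g _
      obtain ⟨v, hv, l, hl, rfl⟩ := dec g
      exact Subgroup.mul_mem _ (hle hv).2 hl
    apply hKV
    intro x hx
    obtain ⟨r, hr, n, hn, rfl⟩ := hdec x hx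
    rw [hno M hMn hM, mem_bot] at hr
    rwa [hr, one_mul]
  have disj' : ∀ x ∈ normalizer (M : Set G), x ∈ V → x = 1 := fun x h1 h2 =>
    mem_bot.mp (disj ▸ (⟨h2, h1⟩ : x ∈ V ⊓ normalizer (M : Set G)))
  have cent : normalizer (M : Set G) ⊓ centralizer (V : Set G) = ⊥ := by
    by_contra h
    have hle := hmin _ ⟨fun x hx g => by
      obtain ⟨v, hv, l, hl, rfl⟩ := dec g
      have h1 : l * x * l⁻¹ ∈ centralizer (V : Set G) :=
        (inferInstance : (centralizer (V : Set G)).Normal).conj_mem x hx.2 l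
      have e : v * l * x * (v * l)⁻¹ = l * x * l⁻¹ := by
        calc v * l * x * (v * l)⁻¹ = v * (l * x * l⁻¹) * v⁻¹ := by group
          _ = l * x * l⁻¹ := by rw [mem_centralizer_iff.mp h1 v hv]; group
      rw [e]
      exact ⟨Subgroup.mul_mem _ (Subgroup.mul_mem _ hl hx.1) (Subgroup.inv_mem _ hl), h1⟩⟩ h
    apply hV0
    rw [eq_bot_iff]
    exact fun x hx => mem_bot.mpr (disj' x (hle hx).1 hx)
  refine ⟨normalizer (M : Set G), hVn, hV0, hpow, hcomm, hmin, dec, disj', fun x hx => ?_⟩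
  obtain ⟨v, hv, l, hl, rfl⟩ := dec x
  have : l ∈ normalizer (M : Set G) ⊓ centralizer (V : Set G) := by
    refine ⟨hl, mem_centralizer_iff.mpr fun w hw => ?_⟩
    have := hx w hw
    rw [← mul_assoc, ← hcomm v hv w hw, mul_assoc, mul_assoc] at this
    exact (mul_left_cancel this).symm
  rw [cent, mem_bot] at this
  rwa [this, mul_one]

theorem elem_of_min [Finite G] {p : ℕ} (hp : p.Prime) {V : Subgroup G} [hVn : V.Normal]
    (hV0 : V ≠ ⊥) (hVp : IsPGroup p V) (hmin : ∀ N : Subgroup G, N.Normal → N ≠ ⊥ → V ≤ N) :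
    ∀ v ∈ V, v ^ p = 1 ∧ ∀ w ∈ V, v * w = w * v := by
  have : Fact p.Prime := ⟨hp⟩
  let V' : Subgroup G :=
    { carrier := {v | v ∈ V ∧ v ^ p = 1 ∧ ∀ w ∈ V, v * w = w * v}
      one_mem' := ⟨V.one_mem, one_pow _, by simp⟩
      mul_mem' := fun {a b} ha hb => ⟨V.mul_mem ha.1 hb.1, by
        rw [Commute.mul_pow (ha.2.2 b hb.1), ha.2.1, hb.2.1, one_mul], fun w hw => by
        rw [mul_assoc, hb.2.2 w hw, ← mul_assoc, ha.2.2 w hw, mul_assoc]⟩
      inv_mem' := fun {a} ha => ⟨V.inv_mem ha.1, by rw [inv_pow, ha.2.1, inv_one], fun w hw =>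
        (Commute.inv_left (ha.2.2 w hw)).eq⟩ }
  have hV' : V ≤ V' := by
    apply hmin
    · refine ⟨fun x hx g => ⟨hVn.conj_mem x hx.1 g, by rw [conj_pow, hx.2.1]; group,
        fun w hw => ?_⟩⟩
      have := hx.2.2 _ (hVn.conj_mem w hw g⁻¹)
      calc g * x * g⁻¹ * w = g * (x * (g⁻¹ * w * g⁻¹⁻¹)) * g⁻¹ := by group
        _ = w * (g * x * g⁻¹) := by rw [this]; group
    · have : Nontrivial V := (Subgroup.nontrivial_iff_ne_bot V).mpr hV0
      have h1 := hVp.center_nontrivial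
      obtain ⟨n, hn0, hcard⟩ := (hVp.to_subgroup (center V)).nontrivial_iff_card.mp h1
      obtain ⟨z, hz⟩ := exists_prime_orderOf_dvd_card' (G := center V) p
        (by rw [hcard]; exact dvd_pow_self p hn0.ne')
      intro h
      have hz1 : ((z : V) : G) ∈ V' := by
        refine ⟨z.1.2, ?_, fun w hw => ?_⟩
        · have := pow_orderOf_eq_one z
          rw [hz] at this
          exact congrArg (fun y : center V => ((y : V) : G)) this
        · exact (congrArg Subtype.val (mem_center_iff.mp z.2 ⟨w, hw⟩)).symm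
      rw [h, mem_bot] at hz1
      have : z = 1 := Subtype.ext (Subtype.ext hz1)
      rw [this, orderOf_one] at hz
      exact hp.ne_one hz.symm
  exact fun v hv => (hV' hv).2

theorem exists_primN [Finite G] (hG : Sol π G) {d : ℕ} (hn : ¬ NLen π (d + 1) (⊥ : Subgroup G))
    (hq : ∀ N : Subgroup G, N.Normal → N ≠ ⊥ → NLen π (d + 1) N) :
    ∃ p ∈ π, p.Prime ∧ ∃ V L : Subgroup G, Prim p V L := by
  have hG0 : (⊥ : Subgroup G) ≠ ⊤ := fun h => hn (h ▸ NLen.top _)
  obtain ⟨V, ⟨hVn, hV0⟩, hVmin⟩ := exists_minimal_of_wellFoundedLT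
    (fun N : Subgroup G => N.Normal ∧ N ≠ ⊥) ⟨⊤, inferInstance, hG0.symm⟩
  have hmin : ∀ N : Subgroup G, N.Normal → N ≠ ⊥ → V ≤ N := by
    intro N hN hN0
    refine le_trans (hVmin (y := V ⊓ N) ⟨inferInstance, fun h => hn ?_⟩ inf_le_left) inf_le_right
    exact h ▸ (hq V hVn hV0).inf (hq N hN hN0)
  have hno : ∀ N : Subgroup G, N.Normal → Sec πᶜ ⊥ N → N = ⊥ := by
    intro N hN h
    by_contra h0
    exact hn ((hq N hN h0).absorb h)
  obtain ⟨N0, hN0, hN00, hN0'⟩ := hG.exists_bottom hG0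
  obtain ⟨p, hpπ, hp, hN0p⟩ := hN0'.resolve_left fun h => hN00 (hno N0 hN0 h)
  have hVp : Sec {p} ⊥ V := hN0p.mono le_rfl (hmin N0 hN0 hN00)
  have hel := elem_of_min hp hV0 hVp.isPGroup hmin
  suffices h : ∃ K : Subgroup G, K.Normal ∧ Sec {p}ᶜ V K ∧ ¬ K ≤ V by
    obtain ⟨K, hK, h1, h2⟩ := h
    obtain ⟨L, hL⟩ := prim_of hV0 (fun v hv => (hel v hv).1) (fun v hv => (hel v hv).2) hmin hVp
      h1 h2
    exact ⟨p, hpπ, hp, V, L, hL⟩
  obtain ⟨K, P, hK, hP, hVK, hKP, h1, h2, h4, h3⟩ := (hq V hVn hV0).succ_le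
  by_cases hKV : K ≤ V
  swap
  · exact ⟨K, hK, h1.monoPi fun q hq e => hq (Set.mem_singleton_iff.mp e ▸ hpπ), hKV⟩
  let f := QuotientGroup.mk' V
  have hfs : Function.Surjective f := QuotientGroup.mk'_surjective V
  have hmapbot : ∀ Y : Subgroup G, Y.map f = ⊥ ↔ Y ≤ V := fun Y => by
    rw [Subgroup.map_eq_bot_iff, QuotientGroup.ker_mk']
  have hcb : (⊥ : Subgroup (G ⧸ V)).comap f = V := by
    rw [MonoidHom.comap_bot, QuotientGroup.ker_mk']
  have hPn := hP.map f hfs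
  have hPN : NS ⊥ (P.map f) := by
    have := h4.map f
    rwa [(hmapbot K).mpr hKV] at this
  by_cases hpp : Sec {p} ⊥ (P.map f)
  · exfalso
    have := hpp.comap f
    rw [hcb] at this
    exact hn (NLen.succ_of_p hp hpπ (hVp.trans (this.mono le_rfl (le_comap_map f P))) h3)
  rw [sec_bot_iff_card] at hpp
  obtain ⟨q, hq', hqd, hqp⟩ : ∃ q : ℕ, q.Prime ∧ q ∣ Nat.card (P.map f) ∧ q ≠ p := by
    by_contra hc
    push Not at hc
    exact hpp ⟨Nat.card_pos.ne', fun q h1 h2 => hc q h1 h2⟩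
  obtain ⟨S, hS⟩ := exists_sylIn q (P.map f)
  have hSn := syl_normal hq' hPN hS
  refine ⟨S.comap f, hSn.comap f, ?_, fun h => ?_⟩
  · have := (sec_of_isPGroup (π := {p}ᶜ) hq' hqp hS.pg).comap f
    rwa [hcb] at this
  · apply hS.not_dvd hq'
    have : S = ⊥ := by rw [← map_comap_eq_self_of_surjective hfs S, hmapbot]; exact h
    rwa [this, relIndex_bot_left]

end Pool.Agent.Lib.MP_fe96bf_al.Nil
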