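import Pool.Agent.Lib.MP_fe96bf_al.N1

set_option autoImplicit false

namespace Pool.Agent.Lib.MP_fe96bf_al.Nil

open Subgroup
open scoped commutatorElement

variable {π : Set ℕ}

theorem nlen_of_centralizer {L : Type*} [Group L] [Finite L] {d : ℕ} {M P : Subgroup L} [M.Normal]
    [P.Normal] (hM : Sec πᶜ ⊥ M) (hP : Sec π M P) (hN : NS M P) (h1 : NLen π d P)
    (h2 : NLen π d (centralizer (M : Set L) ⊔ M)) :
    ∃ R : Subgroup L, R.Normal ∧ Sec π ⊥ R ∧ NS ⊥ R ∧ NLen π d R := by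
  have h3 : NLen π d (centralizer (M : Set L)) :=
    h2.absorb (by rw [sup_comm]; exact (hM.mono bot_le le_rfl).sup_normal)
  obtain ⟨R, hRS, hR, hdec⟩ := schur_zass (π := π) (N := centralizer (M : Set L) ⊓ M)
    (S := centralizer (M : Set L) ⊓ P) (le_norm_of_normal _ _) (hM.mono le_rfl inf_le_right)
    ((Sec.of_le le_rfl).inf hP)
  have hcomm : ∀ r ∈ R, ∀ n ∈ centralizer (M : Set L) ⊓ M, Commute r n := fun r hr n hn =>
    (mem_centralizer_iff.mp (hRS hr).1 n hn.2).symm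
  refine ⟨R, ⟨fun r hr g => ?_⟩, hR, ?_, (h3.inf h1).absorb fun x hx => ?_⟩
  · obtain ⟨r', hr', n, hn, e⟩ := hdec (g * r * g⁻¹)
      ((inferInstance : (centralizer (M : Set L) ⊓ P).Normal).conj_mem r (hRS hr) g)
    obtain ⟨i, hi, hi'⟩ := hR r hr
    obtain ⟨j, hj, hj'⟩ := hR r' hr'
    obtain ⟨l, hl, hl'⟩ := hM n hn.2
    have e1 : (r' * n) ^ (i * j) = 1 := by
      rw [← e, conj_pow, pow_mul, mem_bot.mp hi']; simp
    rw [(hcomm r' hr' n hn).mul_pow, mul_comm i j, pow_mul, mem_bot.mp hj', one_pow, one_mul] at e1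
    rw [e, eq_one_of_pow (hj.mul hi) hl e1 (mem_bot.mp hl'), mul_one]
    exact hr'
  · obtain ⟨c, hc⟩ := hN
    refine ⟨c, fun x hx => mem_bot.mpr (Sec.eq_one hR hM (lowerCentralSeries_le_self R c hx) ?_)⟩
    exact hc (lowerCentralSeries_mono c (hRS.trans inf_le_right) hx)
  · obtain ⟨r, hr, n, hn, rfl⟩ := hdec x hx
    obtain ⟨l, hl, hl'⟩ := hM n hn.2
    refine ⟨l, hl, ?_⟩
    rw [(hcomm r hr n hn).mul_pow, mem_bot.mp hl', mul_one]
    exact R.pow_mem hr l

theorem caseB {L : Type} [Group L] [Finite L] {k V : Type} [Field k] [AddCommGroup V]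
    [Module k V] {ρ : L →* Module.End k V} {p : ℕ}
    (hp : p.Prime) [CharP k p] (hf : Function.Injective ρ) (hL : Sol π L) {m : ℕ}
    (IH : ∀ (G : Type) [Group G] [Finite G], Sol π G → DL π (m + 1) G →
      NLen π (m + 1) (⊥ : Subgroup G))
    (h1 : ∀ H : Subgroup L, Sec π ⊥ H → ∃ F, Chain ρ H F ∧ F (m + 2) = ⊥)
    (hR : ∃ R : Subgroup L, R.Normal ∧ Sec π ⊥ R ∧ NS ⊥ R ∧ NLen π (m + 1) R) :
    ∃ R : Subgroup L, R.Normal ∧ Sec {p} ⊥ R ∧ NLen π (m + 1) R := by
  have := Fintype.ofFinite L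
  obtain ⟨R, hRn, -, hRN, hR'⟩ := hR
  obtain ⟨S, hS⟩ := exists_sylIn p R
  have hSn := syl_normal hp hRN hS
  refine ⟨S, hSn, sec_of_isPGroup hp (Set.mem_singleton p) hS.pg, ?_⟩
  by_contra h2
  obtain ⟨D, -, ⟨hDn, hCD, hD⟩, hDmax⟩ := Finite.exists_le_maximal
    (p := fun D : Subgroup L => D.Normal ∧ S ≤ D ∧ ¬ NLen π (m + 1) D) (a := S)
    ⟨hSn, le_rfl, h2⟩
  let f := QuotientGroup.mk' D
  have hfs : Function.Surjective f := QuotientGroup.mk'_surjective D
  have hker : ∀ x, f x = 1 ↔ x ∈ D := fun x => QuotientGroup.eq_one_iff x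
  have hmapbot : ∀ Y : Subgroup L, Y.map f = ⊥ ↔ Y ≤ D := fun Y => by
    rw [Subgroup.map_eq_bot_iff, QuotientGroup.ker_mk']
  have hG1 : ¬ NLen π (m + 1) (⊥ : Subgroup (L ⧸ D)) := fun h => hD h.of_quotient
  obtain ⟨r, hrπ, hr, W, L1, hW⟩ := exists_primN (hL.quotient D) hG1 (by
    intro N hN hN0
    have hDN : D ≤ N.comap f := fun x hx => by
      rw [mem_comap, (hker x).mpr hx]; exact N.one_mem
    have : NLen π (m + 1) (N.comap f) := by
      by_contra h
      apply hN0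
      rw [← map_comap_eq_self_of_surjective hfs N, hmapbot]
      exact hDmax ⟨hN.comap f, hCD.trans hDN, h⟩ hDN
    have := this.map f hfs
    rwa [map_comap_eq_self_of_surjective hfs] at this)
  have hWn := hW.normal
  have hWπ : Sec π ⊥ W := fun x hx =>
    ⟨r, by simpa using PiNum.pow_prime hr hrπ 1, hW.pow x hx⟩
  obtain ⟨U, hU, hWU, hUd⟩ : ∃ U : Subgroup (L ⧸ D), Sec π ⊥ U ∧ W ≤ U ∧
      cser W U (m + 1) ≠ ⊥ := by
    obtain ⟨U0, hU0, hU0d⟩ : ∃ U : Subgroup (L ⧸ D), Sec π ⊥ U ∧ dser U (m + 1) ≠ ⊥ := by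
      by_contra h
      push Not at h
      exact hG1 (IH _ (hL.quotient D) h)
    refine ⟨U0 ⊔ W, Sec.sup_bot (le_norm_of_normal _ _) hU0 hWπ, le_sup_right, fun h => hU0d ?_⟩
    exact le_bot_iff.mp ((dser_mono le_sup_left _).trans (hW.dser_eq_bot le_sup_right h).le)
  have hWR : W ≤ R.map f :=
    hW.min _ (hRn.map f hfs) fun h => hD (hR'.mono ((hmapbot R).mp h))
  have hRp : Sec {p}ᶜ ⊥ (R.map f) := by
    have := (sec_syl hp hS).map f
    rwa [(hmapbot S).mpr hCD] at this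
  obtain ⟨H, -, hH, hHf⟩ := exists_lift f (K := ⊤) hU
    (by rw [map_top_of_surjective f hfs]; exact le_top)
  obtain ⟨F, hF, hFm⟩ := h1 H hH
  apply hUd
  rw [eq_bot_iff]
  intro w hw
  have hw1 : w ∈ W := cser_le (le_norm_of_normal U W) _ hw
  have hw2 := cser_le_dser hWU _ hw
  rw [← hHf, ← map_dser] at hw2
  obtain ⟨a, ha, rfl⟩ := hw2
  have hap : a ^ p = 1 := pow_eq_one_of_quad hf (fun v => by
    have := hF.quad (m + 1) ha ha v
    rwa [hFm, Submodule.mem_bot, sub_eq_zero] at this)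
  obtain ⟨n, hn, hn'⟩ := hRp _ (hWR hw1)
  refine mem_bot.mpr (eq_one_of_pow (π := {p}) (m := p) ?_ hn ?_ (mem_bot.mp hn'))
  · simpa using PiNum.pow_prime hp (Set.mem_singleton p) 1
  · rw [← map_pow, hap, map_one]

theorem middleN {L : Type} [Group L] [Finite L] {k V : Type} [Field k] [AddCommGroup V]
    [Module k V] [IsAlgClosed k] [FiniteDimensional k V] {ρ : L →* Module.End k V} {p : ℕ}
    (hp : p.Prime) [CharP k p] (hpπ : p ∈ π) (hf : Function.Injective ρ) (hL : Sol π L) {m : ℕ}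
    (IH : ∀ (G : Type) [Group G] [Finite G], Sol π G → DL π (m + 1) G →
      NLen π (m + 1) (⊥ : Subgroup G))
    (h4 : NLen π (m + 2) (⊥ : Subgroup L))
    (h3 : ∀ K : Subgroup L, K ≠ ⊤ → ∃ R : Subgroup K, R.Normal ∧ Sec π ⊥ R ∧ NLen π (m + 1) R)
    (h1 : ∀ H : Subgroup L, Sec π ⊥ H → ∃ F, Chain ρ H F ∧ F (m + 2) = ⊥) :
    ∃ R : Subgroup L, R.Normal ∧ Sec {p} ⊥ R ∧ NLen π (m + 1) R := by
  by_contra h2
  obtain ⟨M, P1, hMn, hP1n, hM, hP1, hP1N, hP1'⟩ := h4
  obtain ⟨D, -, ⟨hDn, hCD, hD⟩, hDmax⟩ := Finite.exists_le_maximal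
    (p := fun D : Subgroup L => D.Normal ∧ centralizer (M : Set L) ⊔ M ≤ D ∧ ¬ NLen π (m + 1) D)
    (a := centralizer (M : Set L) ⊔ M)
    ⟨inferInstance, le_rfl, fun h => h2 (caseB hp hf hL IH h1 (nlen_of_centralizer hM hP1 hP1N hP1' h))⟩
  have hMD : M ≤ D := le_sup_right.trans hCD
  let f := QuotientGroup.mk' D
  have hfs : Function.Surjective f := QuotientGroup.mk'_surjective D
  have hker : ∀ x, f x = 1 ↔ x ∈ D := fun x => QuotientGroup.eq_one_iff x
  have hmapbot : ∀ Y : Subgroup L, Y.map f = ⊥ ↔ Y ≤ D := fun Y => by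
    rw [Subgroup.map_eq_bot_iff, QuotientGroup.ker_mk']
  have hG1 : ¬ NLen π (m + 1) (⊥ : Subgroup (L ⧸ D)) := fun h => hD h.of_quotient
  obtain ⟨r, hrπ, hr, W, L1, hW⟩ := exists_primN (hL.quotient D) hG1 (by
    intro N hN hN0
    have hDN : D ≤ N.comap f := fun x hx => by
      rw [mem_comap, (hker x).mpr hx]; exact N.one_mem
    have : NLen π (m + 1) (N.comap f) := by
      by_contra h
      apply hN0
      rw [← map_comap_eq_self_of_surjective hfs N, hmapbot]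
      exact hDmax ⟨hN.comap f, hCD.trans hDN, h⟩ hDN
    have := this.map f hfs
    rwa [map_comap_eq_self_of_surjective hfs] at this)
  have hWn := hW.normal
  have hWπ : Sec π ⊥ W := fun x hx =>
    ⟨r, by simpa using PiNum.pow_prime hr hrπ 1, hW.pow x hx⟩
  obtain ⟨U, hU, hWU, hUd⟩ : ∃ U : Subgroup (L ⧸ D), Sec π ⊥ U ∧ W ≤ U ∧
      cser W U (m + 1) ≠ ⊥ := by
    obtain ⟨U0, hU0, hU0d⟩ : ∃ U : Subgroup (L ⧸ D), Sec π ⊥ U ∧ dser U (m + 1) ≠ ⊥ := by
      by_contra h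
      push Not at h
      exact hG1 (IH _ (hL.quotient D) h)
    refine ⟨U0 ⊔ W, Sec.sup_bot (le_norm_of_normal _ _) hU0 hWπ, le_sup_right, fun h => hU0d ?_⟩
    exact le_bot_iff.mp ((dser_mono le_sup_left _).trans (hW.dser_eq_bot le_sup_right h).le)
  obtain ⟨X, ⟨hXn, hMX, hXW, hXD⟩, hXmin⟩ := exists_minimal_of_wellFoundedLT
    (fun X : Subgroup L => X.Normal ∧ M ≤ X ∧ X ≤ W.comap f ∧ ¬ X ≤ D)
    ⟨W.comap f, hWn.comap f, fun x hx => by
      rw [mem_comap, (hker x).mpr (hMD hx)]; exact W.one_mem, le_rfl, fun h => hW.ne (by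
        rw [← map_comap_eq_self_of_surjective hfs W, hmapbot]; exact h)⟩
  obtain ⟨P, hP⟩ := exists_sylIn r X
  have hcov : X ≤ P ⊔ D := hP.cover hr fun x hx =>
    ⟨r, by simpa using PiNum.pow_prime hr (Set.mem_singleton r) 1,
      (hker _).mp (by rw [map_pow]; exact hW.pow _ (hXW hx))⟩
  have hPD : ¬ P ≤ D := fun h => hXD (hcov.trans (sup_le h le_rfl))
  have hPW : P.map f = W := by
    apply le_antisymm (map_le_iff_le_comap.mpr (hP.le.trans hXW))
    refine (hW.min _ (hXn.map f hfs) (fun h => hXD ((hmapbot X).mp h))).trans ?_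
    refine (map_mono hcov).trans ?_
    rw [Subgroup.map_sup, (hmapbot D).mpr le_rfl, sup_bot_eq]
  have hK : normalizer (P : Set L) ⊔ M = ⊤ := by
    by_contra hK
    obtain ⟨R, hRn, hR, hR'⟩ := h3 _ hK
    apply hG1
    have hs : Function.Surjective (f.comp (normalizer (P : Set L) ⊔ M).subtype) := by
      intro y
      obtain ⟨x, rfl⟩ := hfs y
      obtain ⟨n, hn, t, ht, rfl⟩ := hP.frattini hr (le_norm_of_normal ⊤ X (mem_top x))
      obtain ⟨w, hw, z, hz, rfl⟩ := mem_sup_of_normal_right.mp (hcov hn)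
      refine ⟨⟨w * t, mem_sup_left (Subgroup.mul_mem _ (le_normalizer hw) ht)⟩, ?_⟩
      simp only [MonoidHom.comp_apply, Subgroup.subtype_apply, map_mul, (hker z).mpr hz, mul_one]
    refine (hR'.map _ hs).mono ?_
    rintro _ ⟨x, hx, rfl⟩
    rw [mem_bot, MonoidHom.comp_apply, hker]
    apply le_sup_left.trans hCD
    rw [mem_centralizer_iff]
    intro y hy
    refine (commute_of_sec (hR.map_bot (normalizer (P : Set L) ⊔ M).subtype) hM
      (le_norm_of_normal _ _) ?_ ⟨x, hx, rfl⟩ hy).symm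
    rw [le_normalizer_iff]
    rintro z hz _ ⟨u, hu, rfl⟩
    exact ⟨_, hRn.conj_mem u hu ⟨z, mem_sup_right hz⟩, rfl⟩
  have hPMn : (P ⊔ M).Normal := by
    rw [← normalizer_eq_top_iff, eq_top_iff, ← hK]
    exact sup_le (norm_sup le_rfl (le_norm_of_normal _ _)) (le_sup_right.trans le_normalizer)
  obtain ⟨q, hq, Q, hQM, hQq, hPQ, hPQ', hdec⟩ := exists_Q hr hrπ hM hP.pg
    (fun h => hPD (h.trans (le_sup_left.trans hCD)))
  obtain ⟨U1, hU1T, hU1, hU1f⟩ := exists_lift f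
    (K := normalizer (P : Set L) ⊓ normalizer (Q : Set L)) hU (by
      intro y _
      obtain ⟨x, rfl⟩ := hfs y
      obtain ⟨n, hn, t, ht, rfl⟩ := hdec x
      exact ⟨t, ht, by rw [map_mul, (hker n).mpr (hMD hn), one_mul]⟩)
  have hPπ : Sec π ⊥ P := sec_of_isPGroup hr hrπ hP.pg
  have hH : Sec π ⊥ (U1 ⊔ P) := Sec.sup_bot (hU1T.trans inf_le_left) hU1 hPπ
  have hHT : U1 ⊔ P ≤ normalizer (P : Set L) ⊓ normalizer (Q : Set L) :=
    sup_le hU1T (le_inf le_normalizer hPQ)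
  have hHP := hHT.trans inf_le_left
  obtain ⟨F, hF, hFm⟩ := h1 _ hH
  apply hPQ'
  apply core hp hpπ hf hF hFm hHT le_sup_right inf_le_left inf_le_right hH (hM.mono le_rfl hQM) hq
    hQq (cser_le hHP m) (cser_le_dser le_sup_right m) (norm_cser hHP m)
  intro Y hYP hTY hAY
  have hYD : ¬ Y ≤ D := by
    intro h
    apply hUd
    have := (hmapbot (cser P (U1 ⊔ P) (m + 1))).mpr (hAY.trans h)
    rwa [map_cser, Subgroup.map_sup, hU1f, hPW, sup_eq_left.mpr hWU] at this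
  have hYMn : (Y ⊔ M).Normal := by
    rw [← normalizer_eq_top_iff, eq_top_iff]
    intro g _
    obtain ⟨n, hn, t, ht, rfl⟩ := hdec g
    exact Subgroup.mul_mem _ (le_normalizer (mem_sup_right hn))
      (norm_sup hTY (le_norm_of_normal _ _) ht)
  have hle : Y ⊔ M ≤ X := sup_le (hYP.trans hP.le) hMX
  have := hXmin ⟨hYMn, le_sup_right, hle.trans hXW, fun h => hYD (le_sup_left.trans h)⟩ hle
  intro w hw
  obtain ⟨y, hy, n, hn, rfl⟩ := mem_sup_of_normal_right.mp (this (hP.le hw))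
  rwa [Sec.eq_one hPπ hM ((P.mul_mem_cancel_left (hYP hy)).mp hw) hn, mul_one]

theorem main_stepN {d : ℕ}
    (IH : ∀ (G : Type) [Group G] [Finite G], Sol π G → DL π d G → NLen π d (⊥ : Subgroup G))
    (n : ℕ) : ∀ (G : Type) [Group G] [Finite G], Nat.card G = n → Sol π G → DL π (d + 1) G →
      NLen π (d + 1) (⊥ : Subgroup G) := by
  induction n using Nat.strong_induction_on with
  | _ n ih =>
  intro G _ _ hn hG hD
  by_contra hcon
  have quot : ∀ (N : Subgroup G) [N.Normal], N ≠ ⊥ → NLen π (d + 1) (⊥ : Subgroup (G ⧸ N)) :=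
    fun N _ hN => ih _ (hn ▸ card_quot_lt hN) (G ⧸ N) rfl (hG.quotient N)
      (hD.of_surjective _ (QuotientGroup.mk'_surjective N))
  obtain ⟨p, hpπ, hp, V, L, hV⟩ := exists_primN hG hcon (fun N _ hN => (quot N hN).of_quotient)
  have hVn := hV.normal
  have hVπ : Sec π ⊥ V := fun x hx =>
    ⟨p, by simpa using PiNum.pow_prime hp hpπ 1, hV.pow x hx⟩
  have hcomap : ∀ H : Subgroup (G ⧸ V), Sec π ⊥ H → Sec π ⊥ (H.comap (QuotientGroup.mk' V)) := by
    intro H hH
    have := hH.comap (QuotientGroup.mk' V)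
    rw [MonoidHom.comap_bot, QuotientGroup.ker_mk'] at this
    exact hVπ.trans this
  have hVle : ∀ H : Subgroup (G ⧸ V), V ≤ H.comap (QuotientGroup.mk' V) := fun H x hx => by
    rw [mem_comap, QuotientGroup.mk'_apply, (QuotientGroup.eq_one_iff x).mpr hx]
    exact H.one_mem
  suffices h : ∃ R : Subgroup (G ⧸ V), R.Normal ∧ Sec {p} ⊥ R ∧ NLen π d R by
    obtain ⟨R, hRn, hR, hR'⟩ := h
    have := hRn.comap (QuotientGroup.mk' V)
    have h5 := hR.comap (QuotientGroup.mk' V)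
    rw [MonoidHom.comap_bot, QuotientGroup.ker_mk'] at h5
    have hVp : Sec {p} ⊥ V := fun x hx =>
      ⟨p, by simpa using PiNum.pow_prime hp (Set.mem_singleton p) 1, hV.pow x hx⟩
    exact hcon (NLen.succ_of_p hp hpπ (hVp.trans h5) (hR'.comap _))
  cases d with
  | zero =>
    refine ⟨⊥, inferInstance, Sec.of_le le_rfl, sec_top_of_forall fun x hx => ?_⟩
    obtain ⟨g, rfl⟩ := QuotientGroup.mk'_surjective V x
    have h1 := hD _ (hcomap _ hx)
    rw [QuotientGroup.mk'_apply, QuotientGroup.eq_one_iff]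
    apply hV.cent
    intro v hv
    have : ⁅g, v⁆ ∈ dser ((zpowers (QuotientGroup.mk' V g)).comap (QuotientGroup.mk' V)) (0 + 1) :=
      commutator_mem_commutator (mem_zpowers _) (hVle _ hv)
    rw [h1, mem_bot] at this
    exact commutatorElement_eq_one_iff_mul_comm.mp this
  | succ m =>
    have : Fact p.Prime := ⟨hp⟩
    obtain ⟨V', _, _, _, ρ, ι, hf, hι, hρ, hspan⟩ := exists_rep hV.pow hV.comm hV.cent
    refine middleN hp hpπ hf (hG.quotient V) IH (quot V hV.ne) (fun K hK => ?_)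
      (fun H hH => chain_of ρ ι hι hρ hspan H (hD _ (hcomap H hH)))
    have hK' : K.comap (QuotientGroup.mk' V) ≠ ⊤ := by
      intro h
      apply hK
      rw [← map_comap_eq_self_of_surjective (QuotientGroup.mk'_surjective V) K, h,
        map_top_of_surjective _ (QuotientGroup.mk'_surjective V)]
    obtain ⟨M, P, hMn, hPn, hM, hP, -, hP'⟩ := ih _ (hn ▸ card_sub_lt hK') _ rfl (hG.subgroup _)
      (hD.of_injective _ (Subgroup.subtype_injective _))
    have hM0 : M = ⊥ := by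
      rw [eq_bot_iff]
      intro x hx
      have hVs := hVπ.comap_bot (K.comap (QuotientGroup.mk' V)).subtype_injective
      have hVsn := hVn.comap (K.comap (QuotientGroup.mk' V)).subtype
      have : (x : G) ∈ V := by
        apply hV.cent
        intro v hv
        exact congrArg Subtype.val (commute_of_sec hVs hM (le_norm_of_normal _ _)
          (le_norm_of_normal _ _) (a := ⟨v, hVle K hv⟩) hv hx).symm
      exact mem_bot.mpr (Sec.eq_one hVs hM this hx)
    have hs := MonoidHom.subgroupComap_surjective_of_surjective _ K (QuotientGroup.mk'_surjective V)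
    rw [hM0] at hP
    exact ⟨P.map _, hPn.map _ hs, hP.map_bot _, hP'.map _ hs⟩

theorem main_NDL (d : ℕ) : ∀ (G : Type) [Group G] [Finite G], Sol π G → DL π d G →
    NLen π d (⊥ : Subgroup G) := by
  induction d with
  | zero => exact fun G _ _ _ hD => sec_top_of_forall fun x hx =>
      mem_bot.mp ((hD _ hx : zpowers x = ⊥) ▸ mem_zpowers x)
  | succ d ih => exact fun G _ _ hG hD => main_stepN ih _ G rfl hG hD

end Pool.Agent.Lib.MP_fe96bf_al.Nil
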