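import Pool.Agent.Lib.MP_fe96bf_al.N2

set_option autoImplicit false

namespace Pool.Agent.Lib.MP_fe96bf_al.Nil

open Subgroup

variable {π : Set ℕ}

theorem dser_le_of_hall {G : Type} [Group G] [Finite G] {H A B : Subgroup G} [A.Normal]
    [hB : B.Normal] (hH : Sec π ⊥ H) (hi : PiNum πᶜ H.index) {d : ℕ} (hd : dser H d = ⊥)
    (hs : Sec π A B) : dser B d ≤ A := by
  have hf := QuotientGroup.mk'_surjective A
  have e : ∀ Y : Subgroup G, Y.map (QuotientGroup.mk' A) = ⊥ ↔ Y ≤ A := fun Y => by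
    rw [Subgroup.map_eq_bot_iff, QuotientGroup.ker_mk']
  have := hB.map _ hf
  have h1 := hs.map (QuotientGroup.mk' A)
  rw [(e A).mpr le_rfl] at h1
  have h2 := le_hall (hH.map_bot (QuotientGroup.mk' A)) (hi.of_dvd (H.index_map_dvd hf)) h1
  rw [← e, eq_bot_iff, map_dser]
  refine (dser_mono h2 d).trans ?_
  rw [← map_dser, hd, Subgroup.map_bot]

end Pool.Agent.Lib.MP_fe96bf_al.Nil
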