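import Pool.Agent.Lib.MP_fe96bf_al.Basic

set_option autoImplicit false

namespace Pool.Agent.Lib.MP_fe96bf_al

open Subgroup
open scoped commutatorElement

variable {G : Type*} [Group G]

def yy (a x : G) : G := a⁻¹ * x⁻¹ * a * x

theorem yy_eq_one_iff {a x : G} : yy a x = 1 ↔ Commute a x := by
  unfold yy
  constructor
  · intro h
    show a * x = x * a
    calc a * x = x * a * (a⁻¹ * x⁻¹ * a * x) := by group
      _ = x * a := by rw [h, mul_one]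
  · intro h
    calc a⁻¹ * x⁻¹ * a * x = a⁻¹ * x⁻¹ * (a * x) := by group
      _ = 1 := by rw [h.eq]; group

theorem fixfree {a x : G} {p n : ℕ} (hpn : Nat.Coprime p n) (ha : a ^ p = 1)
    (hy : (yy a x) ^ n = 1) (h : Commute a (yy a x)) : yy a x = 1 := by
  have h1 : ∀ j : ℕ, (a ^ j)⁻¹ * x⁻¹ * a ^ j = (yy a x) ^ j * x⁻¹ := by
    intro j
    induction j with
    | zero => simp
    | succ j ih =>
      have h2 : a⁻¹ * (yy a x) ^ j * a = (yy a x) ^ j := by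
        rw [mul_assoc, ← (h.pow_right j).eq]; group
      calc (a ^ (j + 1))⁻¹ * x⁻¹ * a ^ (j + 1) = a⁻¹ * ((a ^ j)⁻¹ * x⁻¹ * a ^ j) * a := by
            rw [pow_succ]; group
        _ = (a⁻¹ * (yy a x) ^ j * a) * (a⁻¹ * x⁻¹ * a * x) * x⁻¹ := by rw [ih]; group
        _ = (yy a x) ^ (j + 1) * x⁻¹ := by rw [h2, pow_succ]; rfl
  have h2 := h1 p
  rw [ha] at h2
  have h3 : (yy a x) ^ p = 1 := by simpa using h2.symm
  have : orderOf (yy a x) ∣ Nat.gcd p n :=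
    Nat.dvd_gcd (orderOf_dvd_of_pow_eq_one h3) (orderOf_dvd_of_pow_eq_one hy)
  rw [hpn] at this
  exact orderOf_eq_one_iff.mp (Nat.dvd_one.mp this)

theorem commute_of_sq {b z : G} {n : ℕ} (hn : Odd n) (hb : b ^ n = 1) (h : Commute (b * b) z) :
    Commute b z := by
  obtain ⟨j, hj⟩ := hn
  have : b = (b * b) ^ (j + 1) := by
    rw [← pow_two, ← pow_mul, show 2 * (j + 1) = n + 1 by omega, pow_succ, hb, one_mul]
  rw [this]
  exact h.pow_left _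

structure OddSetup (E A B : Subgroup G) (p n : ℕ) : Prop where
  comE : ∀ x ∈ E, ∀ y ∈ E, x * y = y * x
  comA : ∀ x ∈ A, ∀ y ∈ A, x * y = y * x
  nBE : B ≤ normalizer (E : Set G)
  nBA : B ≤ normalizer (A : Set G)
  AB : A ≤ B
  oddB : ∀ b ∈ B, ∃ j, Odd j ∧ b ^ j = 1
  powA : ∀ a ∈ A, a ^ p = 1
  powE : ∀ x ∈ E, x ^ n = 1
  cop : Nat.Coprime p n
  sq : ∀ a ∈ A, ∀ x ∈ E, yy a x * yy a x = 1
  four : ∀ a ∈ A, ∀ x1 ∈ E, ∀ x2 ∈ E, ∀ x3 ∈ E, yy a x1 ≠ 1 → yy a x2 ≠ 1 →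
    yy a x1 * yy a x2 ≠ 1 → yy a x3 = 1 ∨ yy a x1 * yy a x3 = 1 ∨ yy a x2 * yy a x3 = 1 ∨
      yy a x1 * yy a x2 * yy a x3 = 1

variable {E A B : Subgroup G} {p n : ℕ}

theorem OddSetup.conj (h : OddSetup E A B p n) {b x : G} (hb : b ∈ B) (hx : x ∈ E) :
    b⁻¹ * x * b ∈ E := (mem_normalizer_iff''.mp (h.nBE hb) x).mp hx

theorem OddSetup.yy_mem (h : OddSetup E A B p n) {a x : G} (ha : a ∈ A) (hx : x ∈ E) :
    yy a x ∈ E := E.mul_mem (h.conj (h.AB ha) (E.inv_mem hx)) hx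

theorem OddSetup.yy_mul (h : OddSetup E A B p n) {a x y : G} (ha : a ∈ A) (hx : x ∈ E)
    (hy : y ∈ E) : yy a (x * y) = yy a x * yy a y := by
  have h1 := h.comE x hx _ (h.conj (h.AB ha) (E.inv_mem hy))
  have h2 := h.comE x hx y hy
  unfold yy
  calc a⁻¹ * (x * y)⁻¹ * a * (x * y) = a⁻¹ * (y * x)⁻¹ * a * (x * y) := by rw [h2]
    _ = a⁻¹ * x⁻¹ * a * (a⁻¹ * y⁻¹ * a * x) * y := by group
    _ = a⁻¹ * x⁻¹ * a * x * (a⁻¹ * y⁻¹ * a * y) := by rw [← h1]; group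

def OddSetup.D (h : OddSetup E A B p n) {a : G} (ha : a ∈ A) : Subgroup G where
  carrier := {e | ∃ x ∈ E, yy a x = e}
  one_mem' := ⟨1, E.one_mem, by simp [yy]⟩
  mul_mem' := by
    rintro _ _ ⟨x, hx, rfl⟩ ⟨y, hy, rfl⟩
    exact ⟨x * y, E.mul_mem hx hy, h.yy_mul ha hx hy⟩
  inv_mem' := by
    rintro _ ⟨x, hx, rfl⟩
    exact ⟨x, hx, eq_inv_of_mul_eq_one_left (h.sq a ha x hx)⟩

theorem OddSetup.D_le (h : OddSetup E A B p n) {a : G} (ha : a ∈ A) : h.D ha ≤ E := by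
  rintro _ ⟨x, hx, rfl⟩; exact h.yy_mem ha hx

theorem OddSetup.D_sq (h : OddSetup E A B p n) {a : G} (ha : a ∈ A) {u : G} (hu : u ∈ h.D ha) :
    u * u = 1 := by
  obtain ⟨x, hx, rfl⟩ := hu; exact h.sq a ha x hx

theorem OddSetup.D_free (h : OddSetup E A B p n) {a : G} (ha : a ∈ A) {u : G} (hu : u ∈ h.D ha)
    (hc : Commute a u) : u = 1 := by
  obtain ⟨x, hx, rfl⟩ := hu
  exact fixfree h.cop (h.powA a ha) (h.powE _ (h.yy_mem ha hx)) hc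

theorem OddSetup.D_conj (h : OddSetup E A B p n) {a a' : G} (ha : a ∈ A) (ha' : a' ∈ A) {u : G}
    (hu : u ∈ h.D ha) : a'⁻¹ * u * a' ∈ h.D ha := by
  obtain ⟨x, hx, rfl⟩ := hu
  refine ⟨a'⁻¹ * x * a', h.conj (h.AB ha') hx, ?_⟩
  have := h.comA a ha a' ha'
  unfold yy
  calc a⁻¹ * (a'⁻¹ * x * a')⁻¹ * a * (a'⁻¹ * x * a')
      = (a' * a)⁻¹ * x⁻¹ * (a' * a) * a'⁻¹ * x * a' := by group
    _ = a'⁻¹ * (a⁻¹ * x⁻¹ * a * x) * a' := by rw [← this]; group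

theorem OddSetup.D_four (h : OddSetup E A B p n) {a : G} (ha : a ∈ A) {u v w : G}
    (hu : u ∈ h.D ha) (hv : v ∈ h.D ha) (hw : w ∈ h.D ha) (h1 : u ≠ 1) (h2 : v ≠ 1)
    (h3 : u ≠ v) : w = 1 ∨ w = u ∨ w = v ∨ w = u * v := by
  have k : ∀ s ∈ h.D ha, ∀ t, s * t = 1 → t = s := fun s hs t hst => by
    have := h.D_sq ha hs
    exact mul_left_cancel (hst.trans this.symm)
  have huv := (h.D ha).mul_mem hu hv
  have k3 : u * v ≠ 1 := fun hh => h3 (k u hu v hh).symm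
  obtain ⟨x1, hx1, e1⟩ := hu
  obtain ⟨x2, hx2, e2⟩ := hv
  obtain ⟨x3, hx3, e3⟩ := hw
  have := h.four a ha x1 hx1 x2 hx2 x3 hx3 (e1 ▸ h1) (e2 ▸ h2) (by rw [e1, e2]; exact k3)
  rw [e1, e2, e3] at this
  rcases this with h4 | h4 | h4 | h4
  · exact Or.inl h4
  · exact Or.inr (Or.inl (k u ⟨x1, hx1, e1⟩ w h4))
  · exact Or.inr (Or.inr (Or.inl (k v ⟨x2, hx2, e2⟩ w h4)))
  · exact Or.inr (Or.inr (Or.inr (k _ huv w h4)))

theorem conj_ne_one {a u : G} (h : u ≠ 1) : a⁻¹ * u * a ≠ 1 := fun h' => h (by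
  calc u = a * (a⁻¹ * u * a) * a⁻¹ := by group
    _ = 1 := by rw [h']; group)

theorem commute_of_conj {a u : G} (h : u = a⁻¹ * u * a) : Commute a u := by
  show a * u = u * a
  nth_rewrite 1 [h]; group

theorem OddSetup.D_le_of (h : OddSetup E A B p n) {a a' : G} (ha : a ∈ A) (ha' : a' ∈ A)
    {u : G} (hu : u ∈ h.D ha') (hne : yy a u ≠ 1) : h.D ha' ≤ h.D ha := by
  have w1 : yy a u ∈ h.D ha := ⟨u, h.D_le ha' hu, rfl⟩
  have w2 : yy a u ∈ h.D ha' :=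
    (h.D ha').mul_mem (h.D_conj ha' ha ((h.D ha').inv_mem hu)) hu
  have w3 := h.D_conj ha ha w1
  have w4 := h.D_conj ha' ha w2
  intro w hw
  rcases h.D_four ha' w2 w4 hw hne (conj_ne_one hne)
    (fun e => hne (h.D_free ha w1 (commute_of_conj e))) with e | e | e | e
  · rw [e]; exact Subgroup.one_mem _
  · rw [e]; exact w1
  · rw [e]; exact w3
  · rw [e]; exact Subgroup.mul_mem _ w1 w3

theorem OddSetup.D_le_D (h : OddSetup E A B p n) {a a' : G} (ha : a ∈ A) (ha' : a' ∈ A)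
    {y : G} (hy : y ∈ h.D ha) (hy1 : y ≠ 1) : h.D ha' ≤ h.D ha := by
  by_cases h1 : ∃ u ∈ h.D ha', yy a u ≠ 1
  · obtain ⟨u, hu, hne⟩ := h1
    exact h.D_le_of ha ha' hu hne
  push Not at h1
  by_cases h2 : ∃ u ∈ h.D ha, yy a' u ≠ 1
  · obtain ⟨u, hu, hne⟩ := h2
    exact absurd (h.D_free ha hy (yy_eq_one_iff.mp (h1 y (h.D_le_of ha' ha hu hne hy)))) hy1
  push Not at h2
  intro u hu
  by_contra hun
  have hu1 : u ≠ 1 := fun e => hun (e ▸ Subgroup.one_mem _)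
  have haa := A.mul_mem ha ha'
  have e1 : ∀ s ∈ h.D ha, yy (a * a') s = yy a s := by
    intro s hs
    have := (yy_eq_one_iff.mp (h2 _ (h.D_conj ha ha ((h.D ha).inv_mem hs)))).eq
    unfold yy
    calc (a * a')⁻¹ * s⁻¹ * (a * a') * s = a'⁻¹ * (a⁻¹ * s⁻¹ * a * a') * s := by group
      _ = a⁻¹ * s⁻¹ * a * s := by rw [← this]; group
  have e2 : yy (a * a') u = yy a' u := by
    have := (yy_eq_one_iff.mp (h1 _ ((h.D ha').inv_mem hu))).eq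
    unfold yy
    calc (a * a')⁻¹ * u⁻¹ * (a * a') * u = a'⁻¹ * a⁻¹ * (u⁻¹ * a) * a' * u := by group
      _ = a'⁻¹ * u⁻¹ * a' * u := by rw [← this]; group
  have free : ∀ s ∈ h.D ha, s ≠ 1 → yy a s ≠ 1 := fun s hs hs1 e =>
    hs1 (h.D_free ha hs (yy_eq_one_iff.mp e))
  have hz := h.D_conj ha ha hy
  have hyz : y ≠ a⁻¹ * y * a := fun e => hy1 (h.D_free ha hy (commute_of_conj e))
  have m1 : yy a y ∈ h.D haa := ⟨y, h.D_le ha hy, e1 y hy⟩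
  have m2 : yy a (a⁻¹ * y * a) ∈ h.D haa := ⟨_, h.D_le ha hz, e1 _ hz⟩
  have m3 : yy a' u ∈ h.D haa := ⟨u, h.D_le ha' hu, e2⟩
  have n1 : yy a y ∈ h.D ha := ⟨y, h.D_le ha hy, rfl⟩
  have n2 : yy a (a⁻¹ * y * a) ∈ h.D ha := ⟨_, h.D_le ha hz, rfl⟩
  have n3 : yy a' u ∈ h.D ha' := ⟨u, h.D_le ha' hu, rfl⟩
  have hne : yy a y ≠ yy a (a⁻¹ * y * a) := by
    intro e
    apply free _ ((h.D ha).mul_mem hy hz)
    · intro e'
      exact hyz (mul_left_cancel ((h.D_sq ha hy).trans e'.symm))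
    · rw [h.yy_mul ha (h.D_le ha hy) (h.D_le ha hz), ← e]
      exact h.D_sq ha n1
  have : yy a' u ∈ h.D ha := by
    rcases h.D_four haa m1 m2 m3 (free y hy hy1) (free _ hz (conj_ne_one hy1)) hne
      with e | e | e | e
    · rw [e]; exact Subgroup.one_mem _
    · rw [e]; exact n1
    · rw [e]; exact n2
    · rw [e]; exact Subgroup.mul_mem _ n1 n2
  have h3 := h.D_free ha this (yy_eq_one_iff.mp (h1 _ n3))
  exact hu1 (h.D_free ha' hu (yy_eq_one_iff.mp h3))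

theorem OddSetup.final (h : OddSetup E A B p n) {a x : G} (ha : a ∈ A) (hx : x ∈ E)
    (hy1 : yy a x ≠ 1) {b1 b2 : G} (hb1 : b1 ∈ B) (hb2 : b2 ∈ B) : Commute ⁅b1, b2⁆ (yy a x) := by
  have hy : yy a x ∈ h.D ha := ⟨x, hx, rfl⟩
  generalize yy a x = y at hy hy1
  have hB : ∀ b ∈ B, ∀ u ∈ h.D ha, b⁻¹ * u * b ∈ h.D ha := by
    rintro b hb _ ⟨x, hx, rfl⟩
    have ha' : b⁻¹ * a * b ∈ A := (mem_normalizer_iff''.mp (h.nBA hb) a).mp ha
    apply h.D_le_D ha ha' hy hy1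
    exact ⟨b⁻¹ * x * b, h.conj hb hx, by unfold yy; group⟩
  have hz := h.D_conj ha ha hy
  have hyz : y ≠ a⁻¹ * y * a := fun e => hy1 (h.D_free ha hy (commute_of_conj e))
  have hz1 : a⁻¹ * y * a ≠ 1 := conj_ne_one hy1
  obtain ⟨z, hzdef⟩ : ∃ z, z = a⁻¹ * y * a := ⟨_, rfl⟩
  rw [← hzdef] at hz hyz hz1
  have cyz : y * z = z * y := h.comE _ (h.D_le ha hy) _ (h.D_le ha hz)
  have haz : a⁻¹ * z * a = y * z := by
    rcases h.D_four ha hy hz (h.D_conj ha ha hz) hy1 hz1 hyz with e | e | e | e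
    · exact absurd e (conj_ne_one hz1)
    · exfalso
      obtain ⟨j, hj, hj'⟩ := h.oddB a (h.AB ha)
      apply hy1
      apply h.D_free ha hy
      apply commute_of_sq hj hj'
      apply commute_of_conj
      nth_rewrite 1 [← e, hzdef]
      group
    · exact absurd (h.D_free ha hz (commute_of_conj e.symm)) hz1
    · exact e
  have key : ∀ b ∈ B, b⁻¹ * y * b = y → b ∈ centralizer (h.D ha : Set G) := by
    intro b hb hby
    have hbz : b⁻¹ * z * b = z := by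
      rcases h.D_four ha hy hz (hB b hb z hz) hy1 hz1 hyz with e | e | e | e
      · exact absurd e (conj_ne_one hz1)
      · exfalso
        apply hyz
        calc y = b * (b⁻¹ * y * b) * b⁻¹ := by group
          _ = b * (b⁻¹ * z * b) * b⁻¹ := by rw [hby, e]
          _ = z := by group
      · exact e
      · obtain ⟨j, hj, hj'⟩ := h.oddB b hb
        have : Commute b z := by
          apply commute_of_sq hj hj'
          apply commute_of_conj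
          calc z = (y * y) * z := by rw [h.D_sq ha hy, one_mul]
            _ = (b⁻¹ * y * b) * (b⁻¹ * z * b) := by rw [hby, e, mul_assoc]
            _ = b⁻¹ * (y * z) * b := by group
            _ = (b * b)⁻¹ * z * (b * b) := by rw [← e]; simp only [mul_inv_rev, mul_assoc]
        rw [mul_assoc, ← this.eq]; group
    rw [mem_centralizer_iff]
    intro u hu
    have c1 := (commute_of_conj hby.symm).symm
    have c2 := (commute_of_conj hbz.symm).symm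
    rcases h.D_four ha hy hz hu hy1 hz1 hyz with e | e | e | e
    · rw [e]; simp
    · rw [e]; exact c1.eq
    · rw [e]; exact c2.eq
    · rw [e]; exact (c1.mul_left c2).eq
  have dec : ∀ b ∈ B, ∃ j : ℕ, ∃ c ∈ centralizer (h.D ha : Set G), b = c * a ^ j := by
    intro b hb
    have aux : ∀ j : ℕ, b⁻¹ * y * b = (a ^ j)⁻¹ * y * a ^ j →
        ∃ j : ℕ, ∃ c ∈ centralizer (h.D ha : Set G), b = c * a ^ j := by
      intro j hj
      refine ⟨j, b * (a ^ j)⁻¹, key _ (B.mul_mem hb (B.inv_mem (B.pow_mem (h.AB ha) j))) ?_,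
        by group⟩
      calc (b * (a ^ j)⁻¹)⁻¹ * y * (b * (a ^ j)⁻¹) = a ^ j * (b⁻¹ * y * b) * (a ^ j)⁻¹ := by group
        _ = y := by rw [hj]; group
    rcases h.D_four ha hy hz (hB b hb y hy) hy1 hz1 hyz with e | e | e | e
    · exact absurd e (conj_ne_one hy1)
    · exact aux 0 (by simpa using e)
    · exact aux 1 (by rw [e, hzdef]; simp)
    · exact aux 2 (by rw [e, ← haz, hzdef, pow_two]; simp only [mul_inv_rev, mul_assoc])
  have nrm : ∀ b ∈ B, ∀ c ∈ centralizer (h.D ha : Set G),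
      b * c * b⁻¹ ∈ centralizer (h.D ha : Set G) := by
    intro b hb c hc
    rw [mem_centralizer_iff] at hc ⊢
    intro u hu
    have := hc _ (hB b hb u hu)
    calc u * (b * c * b⁻¹) = b * (b⁻¹ * u * b * c) * b⁻¹ := by group
      _ = b * c * b⁻¹ * u := by rw [this]; group
  obtain ⟨i, c1, hc1, rfl⟩ := dec b1 hb1
  obtain ⟨j, c2, hc2, rfl⟩ := dec b2 hb2
  have hmem : ⁅c1 * a ^ i, c2 * a ^ j⁆ ∈ centralizer (h.D ha : Set G) := by
    have e : ⁅c1 * a ^ i, c2 * a ^ j⁆ =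
        c1 * (a ^ i * c2 * (a ^ i)⁻¹) * (a ^ j * c1⁻¹ * (a ^ j)⁻¹) * c2⁻¹ := by
      rw [commutatorElement_def]; group
    rw [e]
    exact Subgroup.mul_mem _ (Subgroup.mul_mem _ (Subgroup.mul_mem _ hc1
      (nrm _ (B.pow_mem (h.AB ha) i) _ hc2))
      (nrm _ (B.pow_mem (h.AB ha) j) _ (Subgroup.inv_mem _ hc1))) (Subgroup.inv_mem _ hc2)
  exact (mem_centralizer_iff.mp hmem y hy).symm

open Classical in
noncomputable def qm (Z : Subgroup G) (g : G) :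
    normalizer (Z : Set G) ⧸ Z.subgroupOf (normalizer (Z : Set G)) :=
  if h : g ∈ normalizer (Z : Set G) then QuotientGroup.mk ⟨g, h⟩ else 1

theorem qm_eq {Z : Subgroup G} {g : G} (h : g ∈ normalizer (Z : Set G)) :
    qm Z g = QuotientGroup.mk ⟨g, h⟩ := dif_pos h

theorem qm_mul {Z : Subgroup G} {g g' : G} (h : g ∈ normalizer (Z : Set G))
    (h' : g' ∈ normalizer (Z : Set G)) : qm Z (g * g') = qm Z g * qm Z g' := by
  rw [qm_eq h, qm_eq h', qm_eq (Subgroup.mul_mem _ h h')]; rfl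

theorem qm_inv {Z : Subgroup G} {g : G} (h : g ∈ normalizer (Z : Set G)) :
    qm Z g⁻¹ = (qm Z g)⁻¹ := by
  rw [qm_eq h, qm_eq (Subgroup.inv_mem _ h)]; rfl

theorem qm_pow {Z : Subgroup G} {g : G} (h : g ∈ normalizer (Z : Set G)) (j : ℕ) :
    qm Z (g ^ j) = (qm Z g) ^ j := by
  rw [qm_eq h, qm_eq (Subgroup.pow_mem _ h j)]; rfl

theorem qm_one (Z : Subgroup G) : qm Z 1 = 1 := by
  rw [qm_eq (Subgroup.one_mem _)]; rfl

theorem qm_eq_one {Z : Subgroup G} {g : G} (h : g ∈ normalizer (Z : Set G)) :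
    qm Z g = 1 ↔ g ∈ Z := by
  rw [qm_eq h, QuotientGroup.eq_one_iff, mem_subgroupOf]

theorem qm_yy {Z : Subgroup G} {a x : G} (h : a ∈ normalizer (Z : Set G))
    (h' : x ∈ normalizer (Z : Set G)) : qm Z (yy a x) = yy (qm Z a) (qm Z x) := by
  unfold yy
  rw [qm_eq h, qm_eq h', qm_eq (Subgroup.mul_mem _ (Subgroup.mul_mem _ (Subgroup.mul_mem _
    (Subgroup.inv_mem _ h) (Subgroup.inv_mem _ h')) h) h')]; rfl

def qimg (Z X : Subgroup G) (hX : X ≤ normalizer (Z : Set G)) :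
    Subgroup (normalizer (Z : Set G) ⧸ Z.subgroupOf (normalizer (Z : Set G))) where
  carrier := {e | ∃ x ∈ X, qm Z x = e}
  one_mem' := ⟨1, X.one_mem, qm_one Z⟩
  mul_mem' := by
    rintro _ _ ⟨x, hx, rfl⟩ ⟨y, hy, rfl⟩
    exact ⟨x * y, X.mul_mem hx hy, qm_mul (hX hx) (hX hy)⟩
  inv_mem' := by
    rintro _ ⟨x, hx, rfl⟩
    exact ⟨x⁻¹, X.inv_mem hx, qm_inv (hX hx)⟩

theorem qimg_norm {Z X Y : Subgroup G} (hX : X ≤ normalizer (Z : Set G))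
    (hY : Y ≤ normalizer (Z : Set G)) (h : X ≤ normalizer (Y : Set G)) :
    qimg Z X hX ≤ normalizer (qimg Z Y hY : Set _) := by
  rw [le_normalizer_iff]
  rintro _ ⟨x, hx, rfl⟩ _ ⟨y, hy, rfl⟩
  refine ⟨x * y * x⁻¹, le_normalizer_iff.mp h x hx y hy, ?_⟩
  rw [qm_mul (Subgroup.mul_mem _ (hX hx) (hY hy)) (Subgroup.inv_mem _ (hX hx)),
    qm_mul (hX hx) (hY hy), qm_inv (hX hx)]

theorem fixfree_mod {Z : Subgroup G} {a x : G} {p n : ℕ} (hpn : Nat.Coprime p n)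
    (haN : a ∈ normalizer (Z : Set G)) (hxN : x ∈ normalizer (Z : Set G)) (ha : a ^ p = 1)
    (hy : (yy a x) ^ n = 1) (h : Commute (qm Z a) (qm Z (yy a x))) : yy a x ∈ Z := by
  have hyN : yy a x ∈ normalizer (Z : Set G) := Subgroup.mul_mem _ (Subgroup.mul_mem _
    (Subgroup.mul_mem _ (Subgroup.inv_mem _ haN) (Subgroup.inv_mem _ hxN)) haN) hxN
  rw [← qm_eq_one hyN, qm_yy haN hxN]
  apply fixfree hpn
  · rw [← qm_pow haN, ha, qm_one]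
  · rw [← qm_yy haN hxN, ← qm_pow hyN, hy, qm_one]
  · rwa [← qm_yy haN hxN]

theorem odd_group {Z Q A B : Subgroup G} {p n : ℕ} (hQZ : Q ≤ normalizer (Z : Set G))
    (hBZ : B ≤ normalizer (Z : Set G)) (hBQ : B ≤ normalizer (Q : Set G))
    (hBA : B ≤ normalizer (A : Set G)) (hAB : A ≤ B) (hA : A ≤ ⁅B, B⁆)
    (hcom : ∀ x ∈ Q, ∀ y ∈ Q, ⁅x, y⁆ ∈ Z) (comA : ∀ x ∈ A, ∀ y ∈ A, x * y = y * x)
    (oddB : ∀ b ∈ B, ∃ j, Odd j ∧ b ^ j = 1) (powA : ∀ a ∈ A, a ^ p = 1)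
    (powQ : ∀ x ∈ Q, x ^ n = 1) (cop : Nat.Coprime p n)
    (sq : ∀ a ∈ A, ∀ x ∈ Q, yy a x * yy a x ∈ Z)
    (four : ∀ a ∈ A, ∀ x1 ∈ Q, ∀ x2 ∈ Q, ∀ x3 ∈ Q, yy a x1 ∉ Z → yy a x2 ∉ Z →
      yy a x1 * yy a x2 ∉ Z → yy a x3 ∈ Z ∨ yy a x1 * yy a x3 ∈ Z ∨ yy a x2 * yy a x3 ∈ Z ∨
      yy a x1 * yy a x2 * yy a x3 ∈ Z) : ∀ a ∈ A, ∀ x ∈ Q, yy a x ∈ Z := by
  have hAZ := hAB.trans hBZ
  have hyQ : ∀ a ∈ A, ∀ x ∈ Q, yy a x ∈ Q := fun a ha x hx =>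
    Q.mul_mem ((mem_normalizer_iff''.mp (hBQ (hAB ha)) _).mp (Q.inv_mem hx)) hx
  have S : OddSetup (qimg Z Q hQZ) (qimg Z A hAZ) (qimg Z B hBZ) p n := by
    refine ⟨?_, ?_, qimg_norm _ _ hBQ, qimg_norm _ _ hBA, ?_, ?_, ?_, ?_, cop, ?_, ?_⟩
    · rintro _ ⟨x, hx, rfl⟩ _ ⟨y, hy, rfl⟩
      have h1 := (qm_eq_one (hQZ (Q.mul_mem (Q.mul_mem (Q.mul_mem hx hy) (Q.inv_mem hx))
        (Q.inv_mem hy)))).mpr (hcom x hx y hy)
      rw [qm_mul (hQZ (Q.mul_mem (Q.mul_mem hx hy) (Q.inv_mem hx))) (hQZ (Q.inv_mem hy)),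
        qm_mul (hQZ (Q.mul_mem hx hy)) (hQZ (Q.inv_mem hx)), qm_mul (hQZ hx) (hQZ hy),
        qm_inv (hQZ hx), qm_inv (hQZ hy)] at h1
      exact commutatorElement_eq_one_iff_mul_comm.mp h1
    · rintro _ ⟨x, hx, rfl⟩ _ ⟨y, hy, rfl⟩
      rw [← qm_mul (hAZ hx) (hAZ hy), comA x hx y hy, qm_mul (hAZ hy) (hAZ hx)]
    · rintro _ ⟨x, hx, rfl⟩; exact ⟨x, hAB hx, rfl⟩
    · rintro _ ⟨x, hx, rfl⟩
      obtain ⟨j, hj, hj'⟩ := oddB x hx
      exact ⟨j, hj, by rw [← qm_pow (hBZ hx), hj', qm_one]⟩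
    · rintro _ ⟨x, hx, rfl⟩; rw [← qm_pow (hAZ hx), powA x hx, qm_one]
    · rintro _ ⟨x, hx, rfl⟩; rw [← qm_pow (hQZ hx), powQ x hx, qm_one]
    · rintro _ ⟨a, ha, rfl⟩ _ ⟨x, hx, rfl⟩
      have h1 := hQZ (hyQ a ha x hx)
      rw [← qm_yy (hAZ ha) (hQZ hx), ← qm_mul h1 h1, qm_eq_one (Subgroup.mul_mem _ h1 h1)]
      exact sq a ha x hx
    · rintro _ ⟨a, ha, rfl⟩ _ ⟨x1, hx1, rfl⟩ _ ⟨x2, hx2, rfl⟩ _ ⟨x3, hx3, rfl⟩
      have h1 := hQZ (hyQ a ha x1 hx1)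
      have h2 := hQZ (hyQ a ha x2 hx2)
      have h3 := hQZ (hyQ a ha x3 hx3)
      rw [← qm_yy (hAZ ha) (hQZ hx1), ← qm_yy (hAZ ha) (hQZ hx2), ← qm_yy (hAZ ha) (hQZ hx3),
        ← qm_mul h1 h2, ← qm_mul h1 h3, ← qm_mul h2 h3, ← qm_mul (Subgroup.mul_mem _ h1 h2) h3,
        Ne, Ne, Ne, qm_eq_one h1, qm_eq_one h2, qm_eq_one h3,
        qm_eq_one (Subgroup.mul_mem _ h1 h2), qm_eq_one (Subgroup.mul_mem _ h1 h3),
        qm_eq_one (Subgroup.mul_mem _ h2 h3),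
        qm_eq_one (Subgroup.mul_mem _ (Subgroup.mul_mem _ h1 h2) h3)]
      exact four a ha x1 hx1 x2 hx2 x3 hx3
  intro a ha x hx
  by_contra hcon
  have h1 := hQZ (hyQ a ha x hx)
  have hne : yy (qm Z a) (qm Z x) ≠ 1 := by
    rw [← qm_yy (hAZ ha) (hQZ hx), Ne, qm_eq_one h1]; exact hcon
  let K : Subgroup G :=
    { carrier := {g | g ∈ normalizer (Z : Set G) ∧ Commute (qm Z g) (qm Z (yy a x))}
      one_mem' := ⟨Subgroup.one_mem _, by rw [qm_one]; exact Commute.one_left _⟩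
      mul_mem' := fun {g g'} hg hg' => ⟨Subgroup.mul_mem _ hg.1 hg'.1, by
        rw [qm_mul hg.1 hg'.1]; exact hg.2.mul_left hg'.2⟩
      inv_mem' := fun {g} hg => ⟨Subgroup.inv_mem _ hg.1, by
        rw [qm_inv hg.1]; exact hg.2.inv_left⟩ }
  have hK : ⁅B, B⁆ ≤ K := by
    apply commutator_le.mpr
    intro b1 hb1 b2 hb2
    have k1 := hBZ hb1
    have k2 := hBZ hb2
    refine ⟨Subgroup.mul_mem _ (Subgroup.mul_mem _ (Subgroup.mul_mem _ k1 k2)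
      (Subgroup.inv_mem _ k1)) (Subgroup.inv_mem _ k2), ?_⟩
    have := S.final (a := qm Z a) (x := qm Z x) ⟨a, ha, rfl⟩ ⟨x, hx, rfl⟩ hne
      (b1 := qm Z b1) (b2 := qm Z b2) ⟨b1, hb1, rfl⟩ ⟨b2, hb2, rfl⟩
    rw [commutatorElement_def, qm_mul (Subgroup.mul_mem _ (Subgroup.mul_mem _ k1 k2)
      (Subgroup.inv_mem _ k1)) (Subgroup.inv_mem _ k2),
      qm_mul (Subgroup.mul_mem _ k1 k2) (Subgroup.inv_mem _ k1), qm_mul k1 k2, qm_inv k1,
      qm_inv k2, qm_yy (hAZ ha) (hQZ hx)]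
    exact this
  exact hcon (fixfree_mod cop (hAZ ha) (hQZ hx) (powA a ha) (powQ _ (hyQ a ha x hx))
    (hK (hA ha)).2)

end Pool.Agent.Lib.MP_fe96bf_al
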