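import Pool.Agent.Lib.MP_fe96bf_al.Even
import Pool.Agent.Lib.MP_fe96bf_al.OddGroup

set_option autoImplicit false
set_option linter.unusedSectionVars false

namespace Pool.Agent.Lib.MP_fe96bf_al

open Subgroup
open scoped commutatorElement

variable {L : Type} [Group L] [Fintype L] {k V : Type} [Field k] [AddCommGroup V] [Module k V]
variable {ρ : L →* Module.End k V} {Q : Subgroup L} {W Wc : Submodule k V}

def ZW (hC : Comp ρ Q W Wc) : Subgroup L where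
  carrier := {x | x ∈ Q ∧ ∀ g ∈ Q, cm ρ W g x}
  one_mem' := ⟨Q.one_mem, fun g _ => cm_of_comm (by simp)⟩
  mul_mem' := fun {a b} ha hb => ⟨Q.mul_mem ha.1 hb.1, fun g hg =>
    ((cmSub hC g).mul_mem ⟨ha.1, ha.2 g hg⟩ ⟨hb.1, hb.2 g hg⟩).2⟩
  inv_mem' := fun {a} ha => ⟨Q.inv_mem ha.1, fun g hg =>
    ((cmSub hC g).inv_mem ⟨ha.1, ha.2 g hg⟩).2⟩

theorem norm_ZW (hC : Comp ρ Q W Wc) {B : Subgroup L} (hBQ : B ≤ normalizer (Q : Set L))
    (hBW : ∀ b ∈ B, ∀ v ∈ W, ρ b v ∈ W) : B ≤ normalizer (ZW hC : Set L) := by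
  rw [le_normalizer_iff]
  intro b hb x hx
  refine ⟨le_normalizer_iff.mp hBQ b hb x hx.1, fun g hg v hv => ?_⟩
  have h1 := hx.2 _ ((mem_normalizer_iff''.mp (hBQ hb) g).mp hg) _ (hBW _ (B.inv_mem hb) v hv)
  have h2 := congrArg (ρ b) h1
  simp only [rho_mul, rho_rho_inv] at h2 ⊢
  exact h2

theorem pow_eq_one_of_quad {p : ℕ} [CharP k p] (hf : Function.Injective ρ) {a : L}
    (h : a ∈ Kfix ρ a) : a ^ p = 1 := by
  have h1 : ∀ j : ℕ, ∀ v, ρ (a ^ j) v = v + (j : k) • (ρ a v - v) := by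
    intro j
    induction j with
    | zero => intro v; simp
    | succ j ih =>
      intro v
      rw [pow_succ', rho_mul, ih, map_add, map_smul, h v, Nat.cast_succ, add_smul, one_smul]
      abel
  apply hf
  ext v
  rw [h1 p v, CharP.cast_eq_zero, zero_smul, add_zero, rho_one]

theorem tau_eq {a x : L} (h : a ∈ Kfix ρ a) :
    ρ (yy a x) + ρ (yy a x)⁻¹ = ρ (a⁻¹ * yy a x * a) + ρ (a⁻¹ * yy a x * a)⁻¹ := by
  have inv_eq : ∀ b : L, b ∈ Kfix ρ b → ρ b * ρ b = 2 * ρ b - 1 ∧ ρ b⁻¹ = 2 - ρ b := by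
    intro b hb
    have h1 : ρ b * ρ b = 2 * ρ b - 1 := by
      ext v
      have := hb v
      rw [map_sub, sub_eq_iff_eq_add] at this
      simp only [Module.End.mul_apply, LinearMap.sub_apply, Module.End.one_apply, this, two_mul,
        LinearMap.add_apply]
      abel
    refine ⟨h1, ?_⟩
    calc ρ b⁻¹ = ρ b⁻¹ * (2 * ρ b - ρ b * ρ b) := by rw [h1]; simp
      _ = (ρ b⁻¹ * ρ b) * (2 - ρ b) := by noncomm_ring
      _ = 2 - ρ b := by rw [← map_mul, inv_mul_cancel, map_one, one_mul]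
  have hb := Kfix_conj x⁻¹ h
  obtain ⟨a1, a2⟩ := inv_eq a h
  obtain ⟨-, b2⟩ := inv_eq _ hb
  set b := x⁻¹ * a * x⁻¹⁻¹ with hbdef
  have e1 : yy a x = a⁻¹ * b := by rw [hbdef, yy]; group
  have e2 : ρ a * (ρ (yy a x) + ρ (yy a x)⁻¹) = (ρ (yy a x) + ρ (yy a x)⁻¹) * ρ a := by
    rw [e1, mul_inv_rev, inv_inv, map_mul ρ a⁻¹ b, map_mul ρ b⁻¹ a, a2, b2]
    generalize ρ a = A at a1 ⊢
    generalize ρ b = B
    calc A * ((2 - A) * B + (2 - B) * A)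
        = (2 * A - A * A) * B + 2 * (A * A) - A * B * A := by noncomm_ring
      _ = B * (2 * A - A * A) + 2 * (A * A) - A * B * A := by rw [a1]; noncomm_ring
      _ = ((2 - A) * B + (2 - B) * A) * A := by noncomm_ring
  have e3 : (a⁻¹ * yy a x * a)⁻¹ = a⁻¹ * (yy a x)⁻¹ * a := by group
  rw [e3, map_mul, map_mul, map_mul, map_mul, ← add_mul, ← mul_add, mul_assoc, ← e2, ← mul_assoc,
    ← map_mul, inv_mul_cancel, map_one, one_mul]

theorem exists_not_mem_two {K1 K2 : Subgroup L} (h1 : ¬ Q ≤ K1) (h2 : ¬ Q ≤ K2) :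
    ∃ g ∈ Q, g ∉ K1 ∧ g ∉ K2 := by
  obtain ⟨g1, hg1, n1⟩ := SetLike.not_le_iff_exists.mp h1
  obtain ⟨g2, hg2, n2⟩ := SetLike.not_le_iff_exists.mp h2
  by_cases a : g1 ∈ K2
  · by_cases b : g2 ∈ K1
    · exact ⟨g1 * g2, Q.mul_mem hg1 hg2, fun h => n1 ((K1.mul_mem_cancel_right b).mp h),
        fun h => n2 ((K2.mul_mem_cancel_left a).mp h)⟩
    · exact ⟨g2, hg2, b, n2⟩
  · exact ⟨g1, hg1, n1, a⟩

theorem beta_inv (hC : Comp ρ Q W Wc) {g y : L} (hy : y ∈ Q) {s : k}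
    (h : ∀ v ∈ W, ρ g (ρ y v) = s • ρ y (ρ g v)) :
    ∀ v ∈ W, s • ρ g (ρ y⁻¹ v) = ρ y⁻¹ (ρ g v) := by
  intro v hv
  have := h _ (hC.invW _ (Q.inv_mem hy) v hv)
  rw [rho_rho_inv] at this
  rw [this, map_smul, rho_inv_rho]

theorem sq_neg (hC : Comp ρ Q W Wc) (hc : Cls2 Q) {a x : L} {p : ℕ} (hp : Odd p)
    (hap : a ^ p = 1) (hcop : Nat.Coprime p (Nat.card Q)) (hq : a ∈ Kfix ρ a)
    (haQ : a ∈ normalizer (Q : Set L)) (haZ : a ∈ normalizer (ZW hC : Set L)) (hx : x ∈ Q)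
    (hy : yy a x ∉ ZW hC) : ∀ v ∈ W, ρ (yy a x) (ρ (yy a x) v) = -v := by
  have hQZ : Q ≤ normalizer (ZW hC : Set L) := norm_ZW hC le_normalizer hC.invW
  have hyQ : yy a x ∈ Q := Q.mul_mem ((mem_normalizer_iff''.mp haQ _).mp (Q.inv_mem hx)) hx
  have hyn : (yy a x) ^ Nat.card Q = 1 :=
    congrArg Subtype.val (pow_card_eq_one' (G := Q) (x := ⟨_, hyQ⟩))
  have hzQ : a⁻¹ * yy a x * a ∈ Q := (mem_normalizer_iff''.mp haQ _).mp hyQ
  have hqz : qm (ZW hC) (a⁻¹ * yy a x * a) =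
      (qm (ZW hC) a)⁻¹ * qm (ZW hC) (yy a x) * qm (ZW hC) a := by
    rw [qm_mul (Subgroup.mul_mem _ (Subgroup.inv_mem _ haZ) (hQZ hyQ)) haZ,
      qm_mul (Subgroup.inv_mem _ haZ) (hQZ hyQ), qm_inv haZ]
  have n1 : yy a x * (a⁻¹ * yy a x * a)⁻¹ ∉ ZW hC := by
    intro h
    apply hy
    apply fixfree_mod hcop haZ (hQZ hx) hap hyn
    rw [← qm_eq_one (hQZ (Q.mul_mem hyQ (Q.inv_mem hzQ))), qm_mul (hQZ hyQ) (hQZ (Q.inv_mem hzQ)),
      qm_inv (hQZ hzQ), hqz, mul_inv_eq_one] at h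
    exact commute_of_conj h
  have n2 : yy a x * (a⁻¹ * yy a x * a) ∉ ZW hC := by
    intro h
    apply hy
    apply fixfree_mod hcop haZ (hQZ hx) hap hyn
    rw [← qm_eq_one (hQZ (Q.mul_mem hyQ hzQ)), qm_mul (hQZ hyQ) (hQZ hzQ), hqz] at h
    apply commute_of_sq hp (by rw [← qm_pow haZ, hap, qm_one])
    apply commute_of_conj
    generalize qm (ZW hC) a = A at h ⊢
    generalize qm (ZW hC) (yy a x) = Y at h ⊢
    have h2 : A⁻¹ * Y * A = Y⁻¹ := eq_inv_of_mul_eq_one_right h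
    calc Y = (A⁻¹ * Y * A)⁻¹ := by rw [h2, inv_inv]
      _ = A⁻¹ * Y⁻¹ * A := by group
      _ = (A * A)⁻¹ * Y * (A * A) := by rw [← h2]; simp only [mul_inv_rev, mul_assoc]
  have htau := tau_eq (x := x) hq
  generalize a⁻¹ * yy a x * a = z at hzQ n1 n2 htau
  generalize yy a x = y at hyQ n1 n2 htau hy
  have notle : ∀ u ∈ Q, u ∉ ZW hC → ¬ Q ≤ cmSub hC u := fun u hu h h' =>
    h ⟨hu, fun g hg => (h' hg).2.symm⟩
  obtain ⟨g, hg, g1, g2⟩ := exists_not_mem_two (notle _ (Q.mul_mem hyQ (Q.inv_mem hzQ)) n1)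
    (notle _ (Q.mul_mem hyQ hzQ) n2)
  obtain ⟨s, hs⟩ := exists_beta hC hc hg hyQ
  obtain ⟨t, ht⟩ := exists_beta hC hc hg hzQ
  have hs' := beta_inv hC hyQ hs
  have ht' := beta_inv hC hzQ ht
  have hst1 : s ≠ t := by
    rintro rfl
    apply g1
    refine ⟨hg, fun v hv => ?_⟩
    rw [rho_mul, rho_mul, hs _ (hC.invW _ (Q.inv_mem hzQ) v hv), ← map_smul, ht' v hv]
  have hst2 : s * t ≠ 1 := by
    intro h
    apply g2
    refine ⟨hg, fun v hv => ?_⟩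
    rw [rho_mul, rho_mul, hs _ (hC.invW _ hzQ v hv), ht v hv, map_smul, smul_smul, h, one_smul]
  have ne0 : ∀ {u : L} {r : k}, u ∈ Q → (∀ v ∈ W, r • ρ g (ρ u⁻¹ v) = ρ u⁻¹ (ρ g v)) → r ≠ 0 := by
    rintro u r hu h rfl
    apply hy
    refine ⟨hyQ, fun g' _ v hv => ?_⟩
    have h1 := h v hv
    rw [zero_smul] at h1
    have : v = 0 := by
      rw [← rho_inv_rho ρ g v, ← rho_rho_inv ρ u (ρ g v), ← h1, map_zero, map_zero]
    rw [this]; simp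
  have hs0 := ne0 hyQ hs'
  have ht0 := ne0 hzQ ht'
  have tau0 : ∀ v, ρ y v + ρ y⁻¹ v = ρ z v + ρ z⁻¹ v := fun v => LinearMap.congr_fun htau v
  have step : ∀ c1 c2 c3 c4 : k,
      (∀ v ∈ W, c1 • ρ y v + c2 • ρ y⁻¹ v = c3 • ρ z v + c4 • ρ z⁻¹ v) →
      ∀ v ∈ W, (c1 * s) • ρ y v + (c2 * s⁻¹) • ρ y⁻¹ v =
        (c3 * t) • ρ z v + (c4 * t⁻¹) • ρ z⁻¹ v := by
    intro c1 c2 c3 c4 h v hv
    have hw := hC.invW _ (Q.inv_mem hg) v hv
    have h1 := congrArg (ρ g) (h _ hw)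
    have k1 := hs _ hw
    have k2 := hs' _ hw
    have k3 := ht _ hw
    have k4 := ht' _ hw
    rw [rho_rho_inv] at k1 k2 k3 k4
    rw [map_add, map_add, map_smul, map_smul, map_smul, map_smul, k1, k3] at h1
    rw [← k2, ← k4]
    simp only [smul_smul, mul_assoc, inv_mul_cancel₀ hs0, inv_mul_cancel₀ ht0, mul_one] at h1 ⊢
    exact h1
  have t1 := step 1 1 1 1 (fun v _ => by simpa using tau0 v)
  have t2 := step _ _ _ _ t1
  have main : ∀ v ∈ W, (s * s) • ρ y v = -ρ y⁻¹ v := by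
    intro v hv
    have r0 := tau0 v
    have r1 := t1 v hv
    have r2 := t2 v hv
    have hne : (s - t) * (s * t - 1) ≠ 0 := mul_ne_zero (sub_ne_zero.mpr hst1) (sub_ne_zero.mpr hst2)
    have : ((s - t) * (s * t - 1)) • ((s * s) • ρ y v + ρ y⁻¹ v) = 0 := by
      have e : ((s - t) * (s * t - 1)) • ((s * s) • ρ y v + ρ y⁻¹ v) =
          (s * s * t) • (((1 * s * s) • ρ y v + (1 * s⁻¹ * s⁻¹) • ρ y⁻¹ v) -
            ((1 * t * t) • ρ z v + (1 * t⁻¹ * t⁻¹) • ρ z⁻¹ v)) -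
          (s * s * (t * t + 1)) • (((1 * s) • ρ y v + (1 * s⁻¹) • ρ y⁻¹ v) -
            ((1 * t) • ρ z v + (1 * t⁻¹) • ρ z⁻¹ v)) +
          (s * s * t) • ((ρ y v + ρ y⁻¹ v) - (ρ z v + ρ z⁻¹ v)) := by
        match_scalars <;> field_simp <;> ring
      rw [e, r0, r1, r2]; simp
    exact eq_neg_of_add_eq_zero_left ((smul_eq_zero.mp this).resolve_left hne)
  have main2 : ∀ v ∈ W, (s * s) • ρ y (ρ y v) = -v := by
    intro v hv
    rw [main _ (hC.invW y hyQ v hv), rho_inv_rho]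
  intro v hv
  have hw := hC.invW _ (Q.inv_mem hg) v hv
  have h1 := congrArg (ρ g) (main2 _ hw)
  rw [map_smul, hs _ (hC.invW y hyQ _ hw), hs _ hw, rho_rho_inv, map_smul, map_neg, rho_rho_inv,
    smul_smul s s, main2 v hv, smul_neg, neg_inj] at h1
  have h2 := main2 v hv
  rw [← map_smul, ← map_smul, h1] at h2
  exact h2

theorem anti_of_sq (hC : Comp ρ Q W Wc) (hc : Cls2 Q) {y1 y2 x : L} (h1 : y1 ∈ Q) (h2 : y2 ∈ Q)
    (hx : x ∈ Q) (s1 : ∀ v ∈ W, ρ y1 (ρ y1 v) = -v) (s2 : ∀ v ∈ W, ρ y2 (ρ y2 v) = -v)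
    (s3 : ∀ v ∈ W, ρ (y1 * (x⁻¹ * y2 * x)) (ρ (y1 * (x⁻¹ * y2 * x)) v) = -v) :
    ∀ v ∈ W, ρ y1 (ρ y2 v) = -ρ y2 (ρ y1 v) := by
  have hu : x⁻¹ * y2 * x ∈ Q := Q.mul_mem (Q.mul_mem (Q.inv_mem hx) h2) hx
  have s4 : ∀ v ∈ W, ρ (x⁻¹ * y2 * x) (ρ (x⁻¹ * y2 * x) v) = -v := by
    intro v hv
    simp only [rho_mul, rho_rho_inv]
    rw [s2 _ (hC.invW x hx v hv), map_neg, rho_inv_rho]
  have a1 : ∀ v ∈ W, ρ y1 (ρ (x⁻¹ * y2 * x) v) = -ρ (x⁻¹ * y2 * x) (ρ y1 v) := by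
    generalize x⁻¹ * y2 * x = u at hu s3 s4
    intro v hv
    have k1 := s3 _ (hC.invW u hu v hv)
    rw [rho_mul, rho_mul, s4 v hv, map_neg, map_neg, map_neg, neg_inj] at k1
    rw [← k1, s1 _ (hC.invW u hu _ (hC.invW y1 h1 v hv))]
  have hz := hc.cen (Q.inv_mem hx) h2
  have e : x⁻¹ * y2 * x = ⁅x⁻¹, y2⁆ * y2 := by rw [commutatorElement_def]; group
  intro v hv
  have k2 := a1 v hv
  rw [e, rho_mul, rho_mul, ← rho_mul ρ y1, ← hz.2 y1 h1, rho_mul, ← map_neg] at k2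
  rw [← rho_inv_rho ρ ⁅x⁻¹, y2⁆ (ρ y1 (ρ y2 v)), k2, rho_inv_rho]

theorem odd_main [IsAlgClosed k] [FiniteDimensional k V] {p : ℕ} [CharP k p] (hp : Odd p)
    (hf : Function.Injective ρ) (hc : Cls2 Q) {H : Subgroup L} {F : ℕ → Submodule k V}
    (hF : Chain ρ H F) {m : ℕ} (hm : F (m + 2) = ⊥) (hHQ : H ≤ normalizer (Q : Set L))
    (hQk : ((Nat.card Q : ℕ) : k) ≠ 0) (hcop : Nat.Coprime p (Nat.card Q))
    (hcopH : Nat.Coprime (Nat.card H) (Nat.card Q)) :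
    ∀ a ∈ dser H (m + 1), ∀ x ∈ Q, a * x * a⁻¹ = x := by
  have hq : ∀ a ∈ dser H (m + 1), ∀ b ∈ dser H (m + 1), a ∈ Kfix ρ b := by
    intro a ha b hb v
    have := hF.quad (m + 1) hb ha v
    rwa [hm, Submodule.mem_bot, sub_eq_zero] at this
  have hpow : ∀ a ∈ dser H (m + 1), a ^ p = 1 := fun a ha => pow_eq_one_of_quad hf (hq a ha a ha)
  have hAQ : dser H (m + 1) ≤ normalizer (Q : Set L) := (dser_le H _).trans hHQ
  have hyQ : ∀ a ∈ dser H (m + 1), ∀ x ∈ Q, yy a x ∈ Q := fun a ha x hx =>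
    Q.mul_mem ((mem_normalizer_iff''.mp (hAQ ha) _).mp (Q.inv_mem hx)) hx
  have hpowQ : ∀ x ∈ Q, x ^ Nat.card Q = 1 := fun x hx =>
    congrArg Subtype.val (pow_card_eq_one' (G := Q) (x := ⟨_, hx⟩))
  intro a0 ha0
  suffices h : ∀ x ∈ Q, Cen Q (yy a0 x) by
    intro x hx
    have h1 := centralizes_center hF hm hHQ hQk hf ha0 (h x hx).1 (h x hx).2
    have h2 := fixfree hcop (hpow a0 ha0) (hpowQ _ (h x hx).1) (mul_inv_eq_iff_eq_mul.mp h1)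
    exact mul_inv_eq_iff_eq_mul.mpr (yy_eq_one_iff.mp h2)
  intro x0 hx0
  refine ⟨hyQ a0 ha0 x0 hx0, fun g hg => ?_⟩
  by_contra hne
  have hρc : ρ ⁅yy a0 x0, g⁆ ≠ 1 := fun h =>
    hne (commutatorElement_eq_one_iff_mul_comm.mp (hf (by rw [h, map_one])))
  obtain ⟨W, Wc, hC, ⟨v0, hv0, hcv⟩, hAW, hBW⟩ := exists_comp hF hm hHQ hQk hρc
  have hy0 : yy a0 x0 ∉ ZW hC := by
    intro h
    apply hcv
    rw [commutatorElement_def, rho_mul, rho_mul, rho_mul, ← h.2 g hg _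
      (hC.invW _ (Q.inv_mem h.1) _ (hC.invW _ (Q.inv_mem hg) _ hv0)), rho_rho_inv, rho_rho_inv]
  have hv00 : v0 ≠ 0 := by rintro rfl; simp at hcv
  have hBW' := hBW (by
    by_contra h
    push Not at h
    apply hy0
    have : ∀ v ∈ W, ρ (yy a0 x0) v = v := by
      intro v hv
      unfold yy
      rw [rho_mul, rho_mul, rho_mul, h a0 ha0 _ (hC.invW _ hx0 v hv), rho_inv_rho,
        h _ (Subgroup.inv_mem _ ha0) v hv]
    exact ⟨hyQ a0 ha0 x0 hx0, fun g hg v hv => by rw [this v hv, this _ (hC.invW g hg v hv)]⟩)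
  have hAZ := norm_ZW hC hAQ hAW
  have hsq : ∀ a ∈ dser H (m + 1), ∀ x ∈ Q, yy a x ∉ ZW hC →
      ∀ v ∈ W, ρ (yy a x) (ρ (yy a x) v) = -v := fun a ha x hx h =>
    sq_neg hC hc hp (hpow a ha) hcop (hq a ha a ha) (hAQ ha) (hAZ ha) hx h
  have h2 : (2 : k) ≠ 0 := by
    intro h
    have h3 : p ∣ 2 := (CharP.cast_eq_zero_iff k p 2).mp h
    have h4 : p ≠ 1 := CharP.char_ne_one k p
    rcases (Nat.dvd_prime Nat.prime_two).mp h3 with h5 | h5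
    · exact h4 h5
    · rw [h5] at hp; exact absurd hp (by decide)
  have neg_ne : ∀ v : V, v = -v → v = 0 := by
    intro v h
    have : (2 : k) • v = 0 := by rw [two_smul]; nth_rewrite 2 [h]; simp
    exact (smul_eq_zero.mp this).resolve_left h2
  have hevenQ : ¬ Odd (Nat.card Q) := by
    intro hodd
    obtain ⟨n, hn⟩ := exists_sqrt hodd
    apply hy0
    rw [← hn _ (hyQ a0 ha0 x0 hx0)]
    apply Subgroup.pow_mem
    refine ⟨Q.mul_mem (hyQ a0 ha0 x0 hx0) (hyQ a0 ha0 x0 hx0), fun g hg v hv => ?_⟩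
    rw [rho_mul, rho_mul, hsq a0 ha0 x0 hx0 hy0 v hv,
      hsq a0 ha0 x0 hx0 hy0 _ (hC.invW g hg v hv), map_neg]
  have hoddH : Odd (Nat.card H) := by
    rw [Nat.not_odd_iff_even, even_iff_two_dvd] at hevenQ
    exact (Nat.Coprime.coprime_dvd_right hevenQ hcopH).odd_of_right
  have hcomm : ∀ x ∈ Q, ∀ y ∈ Q, ⁅x, y⁆ ∈ ZW hC := fun x hx y hy =>
    ⟨comm_mem hx hy, fun g hg => cm_of_comm (hc x hx y hy g hg).symm⟩
  have hprod : ∀ a ∈ dser H (m + 1), ∀ x1 ∈ Q, ∀ x2 ∈ Q,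
      yy a (x2 * x1) = yy a x1 * (x1⁻¹ * yy a x2 * x1) ∧
      ∃ c ∈ ZW hC, yy a (x2 * x1) = c * (yy a x1 * yy a x2) := by
    intro a ha x1 hx1 x2 hx2
    have e : yy a (x2 * x1) = yy a x1 * (x1⁻¹ * yy a x2 * x1) := by unfold yy; group
    refine ⟨e, ⁅x1⁻¹, yy a x2⁆, hcomm _ (Q.inv_mem hx1) _ (hyQ a ha x2 hx2), ?_⟩
    rw [e, ← mul_assoc ⁅_, _⁆, hc _ (Q.inv_mem hx1) _ (hyQ a ha x2 hx2) _ (hyQ a ha x1 hx1),
      commutatorElement_def]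
    group
  have hanti : ∀ a ∈ dser H (m + 1), ∀ x1 ∈ Q, ∀ x2 ∈ Q, yy a x1 ∉ ZW hC → yy a x2 ∉ ZW hC →
      yy a x1 * yy a x2 ∉ ZW hC →
      ∀ v ∈ W, ρ (yy a x1) (ρ (yy a x2) v) = -ρ (yy a x2) (ρ (yy a x1) v) := by
    intro a ha x1 hx1 x2 hx2 n1 n2 n3
    obtain ⟨e, c, hcZ, e'⟩ := hprod a ha x1 hx1 x2 hx2
    apply anti_of_sq hC hc (hyQ a ha x1 hx1) (hyQ a ha x2 hx2) hx1 (hsq a ha x1 hx1 n1)
      (hsq a ha x2 hx2 n2)
    rw [← e]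
    apply hsq a ha _ (Q.mul_mem hx2 hx1)
    rw [e', Subgroup.mul_mem_cancel_left _ hcZ]
    exact n3
  apply hy0
  refine odd_group (Z := ZW hC) (Q := Q) (A := dser H (m + 1)) (B := dser H m)
    (norm_ZW hC le_normalizer hC.invW) (norm_ZW hC ((dser_le H _).trans hHQ) hBW')
    ((dser_le H _).trans hHQ) ((dser_le H _).trans (norm_dser le_normalizer _))
    (dser_succ_le H m) le_rfl hcomm
    (fun a ha b hb => comm_of_Kfix hf (hq a ha b hb) (hq b hb a ha))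
    (fun b hb => ⟨_, hoddH, congrArg Subtype.val
      (pow_card_eq_one' (G := H) (x := ⟨b, dser_le H m hb⟩))⟩) hpow hpowQ hcop ?_ ?_ a0 ha0 x0 hx0
  · intro a ha x hx
    by_cases h : yy a x ∈ ZW hC
    · exact Subgroup.mul_mem _ h h
    · refine ⟨Q.mul_mem (hyQ a ha x hx) (hyQ a ha x hx), fun g hg v hv => ?_⟩
      rw [rho_mul, rho_mul, hsq a ha x hx h v hv, hsq a ha x hx h _ (hC.invW g hg v hv), map_neg]
  · intro a ha x1 hx1 x2 hx2 x3 hx3 n1 n2 n3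
    by_contra hcon
    push Not at hcon
    obtain ⟨n4, n5, n6, n7⟩ := hcon
    obtain ⟨-, c, hcZ, e'⟩ := hprod a ha x1 hx1 x2 hx2
    have a13 := hanti a ha x1 hx1 x3 hx3 n1 n4 n5
    have a23 := hanti a ha x2 hx2 x3 hx3 n2 n4 n6
    have a43 := hanti a ha _ (Q.mul_mem hx2 hx1) x3 hx3
      (by rw [e', Subgroup.mul_mem_cancel_left _ hcZ]; exact n3) n4
      (by rw [e', mul_assoc, Subgroup.mul_mem_cancel_left _ hcZ]; exact n7) v0 hv0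
    have y1 := hyQ a ha x1 hx1
    have y2 := hyQ a ha x2 hx2
    have y3 := hyQ a ha x3 hx3
    rw [e', rho_mul, rho_mul, rho_mul, rho_mul, a23 v0 hv0, map_neg,
      a13 _ (hC.invW _ y2 _ hv0), neg_neg,
      hcZ.2 _ y3 _ (hC.invW _ y1 _ (hC.invW _ y2 _ hv0))] at a43
    have := neg_ne _ a43
    apply hv00
    rw [← rho_inv_rho ρ (yy a x2) v0, ← rho_inv_rho ρ (yy a x1) (ρ (yy a x2) v0),
      ← rho_inv_rho ρ (yy a x3) (ρ (yy a x1) _), ← rho_inv_rho ρ c (ρ (yy a x3) _), this]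
    simp

end Pool.Agent.Lib.MP_fe96bf_al
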