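import Pool.Agent.Lib.MP_fe96bf_al.Hall

set_option autoImplicit false

namespace Pool.Agent.Lib.MP_fe96bf_al

open Subgroup
open scoped commutatorElement

variable {G : Type*} [Group G] {π : Set ℕ}

structure Prim (p : ℕ) (V L : Subgroup G) : Prop where
  normal : V.Normal
  ne : V ≠ ⊥
  pow : ∀ v ∈ V, v ^ p = 1
  comm : ∀ v ∈ V, ∀ w ∈ V, v * w = w * v
  min : ∀ N : Subgroup G, N.Normal → N ≠ ⊥ → V ≤ N
  dec : ∀ x, ∃ v ∈ V, ∃ l ∈ L, x = v * l
  disj : ∀ x ∈ L, x ∈ V → x = 1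
  cent : ∀ x, (∀ v ∈ V, x * v = v * x) → x ∈ V

theorem exists_prim [Finite G] (hG : Sol π G) {d : ℕ} (hn : ¬ Len π (d + 1) (⊥ : Subgroup G))
    (hq : ∀ N : Subgroup G, N.Normal → N ≠ ⊥ → Len π (d + 1) N) :
    ∃ p ∈ π, p.Prime ∧ ∃ V L : Subgroup G, Prim p V L := by
  have hG0 : (⊥ : Subgroup G) ≠ ⊤ := fun h => hn (h ▸ Len.top _)
  obtain ⟨V, ⟨hVn, hV0⟩, hVmin⟩ := exists_minimal_of_wellFoundedLT
    (fun N : Subgroup G => N.Normal ∧ N ≠ ⊥) ⟨⊤, inferInstance, hG0.symm⟩
  have hmin : ∀ N : Subgroup G, N.Normal → N ≠ ⊥ → V ≤ N := by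
    intro N hN hN0
    refine le_trans (hVmin (y := V ⊓ N) ⟨inferInstance, fun h => hn ?_⟩ inf_le_left) inf_le_right
    exact h ▸ (hq V hVn hV0).inf (hq N hN hN0)
  have hno : ∀ N : Subgroup G, N.Normal → Sec πᶜ ⊥ N → N = ⊥ := by
    intro N hN h
    by_contra h0
    exact hn ((hq N hN h0).absorb h)
  obtain ⟨N0, hN0, hN00, hN0'⟩ := hG.exists_bottom hG0
  obtain ⟨p, hpπ, hp, hN0p⟩ := hN0'.resolve_left fun h => hN00 (hno N0 hN0 h)
  have hVp : IsPGroup p V := (hN0p.mono le_rfl (hmin N0 hN0 hN00)).isPGroup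
  have : Fact p.Prime := ⟨hp⟩
  let V' : Subgroup G :=
    { carrier := {v | v ∈ V ∧ v ^ p = 1 ∧ ∀ w ∈ V, v * w = w * v}
      one_mem' := ⟨V.one_mem, one_pow _, by simp⟩
      mul_mem' := fun {a b} ha hb => ⟨V.mul_mem ha.1 hb.1, by
        rw [Commute.mul_pow (ha.2.2 b hb.1), ha.2.1, hb.2.1, one_mul], fun w hw => by
        rw [mul_assoc, hb.2.2 w hw, ← mul_assoc, ha.2.2 w hw, mul_assoc]⟩
      inv_mem' := fun {a} ha => ⟨V.inv_mem ha.1, by rw [inv_pow, ha.2.1, inv_one], fun w hw =>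
        (Commute.inv_left (ha.2.2 w hw)).eq⟩ }
  have hV' : V ≤ V' := by
    apply hmin
    · refine ⟨fun x hx g => ⟨hVn.conj_mem x hx.1 g, by rw [conj_pow, hx.2.1]; group,
        fun w hw => ?_⟩⟩
      have := hx.2.2 _ (hVn.conj_mem w hw g⁻¹)
      calc g * x * g⁻¹ * w = g * (x * (g⁻¹ * w * g⁻¹⁻¹)) * g⁻¹ := by group
        _ = w * (g * x * g⁻¹) := by rw [this]; group
    · have : Nontrivial V := (Subgroup.nontrivial_iff_ne_bot V).mpr hV0
      have h1 := hVp.center_nontrivial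
      obtain ⟨n, hn0, hcard⟩ := (hVp.to_subgroup (center V)).nontrivial_iff_card.mp h1
      obtain ⟨z, hz⟩ := exists_prime_orderOf_dvd_card' (G := center V) p
        (by rw [hcard]; exact dvd_pow_self p hn0.ne')
      intro h
      have hz1 : ((z : V) : G) ∈ V' := by
        refine ⟨z.1.2, ?_, fun w hw => ?_⟩
        · have := pow_orderOf_eq_one z
          rw [hz] at this
          exact congrArg (fun y : center V => ((y : V) : G)) this
        · exact (congrArg Subtype.val (mem_center_iff.mp z.2 ⟨w, hw⟩)).symm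
      rw [h, mem_bot] at hz1
      have : z = 1 := Subtype.ext (Subtype.ext hz1)
      rw [this, orderOf_one] at hz
      exact hp.ne_one hz.symm
  have hcomm : ∀ v ∈ V, ∀ w ∈ V, v * w = w * v := fun v hv => (hV' hv).2.2
  have hVπ : Sec π ⊥ V := sec_of_isPGroup hp hpπ hVp
  obtain ⟨K, P, hK, hP, hVK, -, h1, h2, h3⟩ := (hq V hVn hV0).succ_le
  have hKV : ¬ K ≤ V := fun h => hn (Len.succ_of_sec (hVπ.trans (h2.mono h le_rfl)) h3)
  obtain ⟨M, hMK, hM, hdec⟩ := schur_zass (π := πᶜ) (le_norm_of_normal K V)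
    (by rwa [compl_compl]) h1
  have : IsMulCommutative V := ⟨⟨fun a b => Subtype.ext (hcomm a a.2 b b.2)⟩⟩
  have dec : ∀ x, ∃ v ∈ V, ∃ l ∈ normalizer (M : Set G), x = v * l := by
    intro g
    obtain ⟨u, hu, h⟩ := conj_of_abelian (M' := cj g M) hVπ hM (hM.cj g) (by
      intro x hx
      have hxK : x ∈ K := by
        have := hK.conj_mem _ (hMK (mem_cj.mp hx)) g
        simpa [mul_assoc] using this
      obtain ⟨r, hr, n, hn, rfl⟩ := hdec x hxK
      rw [sup_comm]
      exact mul_mem_sup hr hn)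
    refine ⟨u, hu, u⁻¹ * g, mem_normalizer_fintype fun m hm => ?_, by group⟩
    have := h (g * m * g⁻¹) (mem_cj.mpr (by simpa [mul_assoc] using hm))
    simpa [mul_assoc] using this
  have disj : V ⊓ normalizer (M : Set G) = ⊥ := by
    by_contra h
    have hle := hmin _ ⟨fun x hx g => by
      obtain ⟨v, hv, l, hl, rfl⟩ := dec g
      have h1 : l * x * l⁻¹ ∈ V := hVn.conj_mem x hx.1 l
      have e : v * l * x * (v * l)⁻¹ = l * x * l⁻¹ := by
        calc v * l * x * (v * l)⁻¹ = v * (l * x * l⁻¹) * v⁻¹ := by group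
          _ = l * x * l⁻¹ := by rw [hcomm v hv _ h1]; group
      rw [e]
      exact ⟨h1, Subgroup.mul_mem _ (Subgroup.mul_mem _ hl hx.2) (Subgroup.inv_mem _ hl)⟩⟩ h
    have hMn : M.Normal := by
      rw [← normalizer_eq_top_iff, eq_top_iff]
      intro g _
      obtain ⟨v, hv, l, hl, rfl⟩ := dec g
      exact Subgroup.mul_mem _ (hle hv).2 hl
    apply hKV
    intro x hx
    obtain ⟨r, hr, n, hn, rfl⟩ := hdec x hx
    rw [hno M hMn hM, mem_bot] at hr
    rwa [hr, one_mul]
  have disj' : ∀ x ∈ normalizer (M : Set G), x ∈ V → x = 1 := fun x h1 h2 =>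
    mem_bot.mp (disj ▸ (⟨h2, h1⟩ : x ∈ V ⊓ normalizer (M : Set G)))
  have cent : normalizer (M : Set G) ⊓ centralizer (V : Set G) = ⊥ := by
    by_contra h
    have hle := hmin _ ⟨fun x hx g => by
      obtain ⟨v, hv, l, hl, rfl⟩ := dec g
      have h1 : l * x * l⁻¹ ∈ centralizer (V : Set G) :=
        (inferInstance : (centralizer (V : Set G)).Normal).conj_mem x hx.2 l
      have e : v * l * x * (v * l)⁻¹ = l * x * l⁻¹ := by
        calc v * l * x * (v * l)⁻¹ = v * (l * x * l⁻¹) * v⁻¹ := by group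
          _ = l * x * l⁻¹ := by rw [mem_centralizer_iff.mp h1 v hv]; group
      rw [e]
      exact ⟨Subgroup.mul_mem _ (Subgroup.mul_mem _ hl hx.1) (Subgroup.inv_mem _ hl), h1⟩⟩ h
    apply hV0
    rw [eq_bot_iff]
    exact fun x hx => mem_bot.mpr (disj' x (hle hx).1 hx)
  refine ⟨p, hpπ, hp, V, normalizer (M : Set G), hVn, hV0, fun v hv => (hV' hv).2.1, hcomm, hmin,
    dec, disj', fun x hx => ?_⟩
  obtain ⟨v, hv, l, hl, rfl⟩ := dec x
  have : l ∈ normalizer (M : Set G) ⊓ centralizer (V : Set G) := by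
    refine ⟨hl, mem_centralizer_iff.mpr fun w hw => ?_⟩
    have := hx w hw
    rw [← mul_assoc, ← hcomm v hv w hw, mul_assoc, mul_assoc] at this
    exact (mul_left_cancel this).symm
  rw [cent, mem_bot] at this
  rwa [this, mul_one]

def cser (P H : Subgroup G) : ℕ → Subgroup G
  | 0 => P
  | n + 1 => ⁅cser P H n, dser H n⁆

theorem map_cser {G' : Type*} [Group G'] (P H : Subgroup G) (f : G →* G') (n : ℕ) :
    (cser P H n).map f = cser (P.map f) (H.map f) n := by
  induction n with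
  | zero => rfl
  | succ n ih => simp only [cser, map_commutator, ih, map_dser]

theorem cser_le_dser {P H : Subgroup G} (h : P ≤ H) (n : ℕ) : cser P H n ≤ dser H n := by
  induction n with
  | zero => exact h
  | succ n ih => exact commutator_mono ih le_rfl

theorem norm_cser {P H : Subgroup G} (h : H ≤ normalizer (P : Set G)) (n : ℕ) :
    H ≤ normalizer ((cser P H n : Subgroup G) : Set G) := by
  induction n with
  | zero => exact h
  | succ n ih => exact norm_commutator ih (norm_dser le_normalizer n)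

theorem cser_succ_le {P H : Subgroup G} (h : H ≤ normalizer (P : Set G)) (n : ℕ) :
    cser P H (n + 1) ≤ cser P H n :=
  le_normalizer_iff_commutator_le_left.mp ((dser_le H n).trans (norm_cser h n))

theorem cser_le {P H : Subgroup G} (h : H ≤ normalizer (P : Set G)) (n : ℕ) : cser P H n ≤ P := by
  induction n with
  | zero => exact le_rfl
  | succ n ih => exact (cser_succ_le h n).trans ih

theorem Prim.comm_mem {p : ℕ} {V L : Subgroup G} (h : Prim p V L) (U : Subgroup G) (j : ℕ) :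
    ∀ n ∈ dser U j, ∀ v ∈ V, n * v * n⁻¹ * v⁻¹ ∈ cser V U j := by
  have hVn := h.normal
  have hU : U ≤ normalizer (V : Set G) := le_norm_of_normal U V
  induction j with
  | zero => intro n _ v hv; exact V.mul_mem (hVn.conj_mem v hv n) (V.inv_mem hv)
  | succ j ih =>
    let K : Subgroup G :=
      { carrier := {n | ∀ v ∈ V, n * v * n⁻¹ * v⁻¹ ∈ cser V U (j + 1)}
        one_mem' := fun v _ => by simp
        mul_mem' := fun {a b} ha hb v hv => by
          have := Subgroup.mul_mem _ (ha _ (hVn.conj_mem v hv b)) (hb v hv)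
          simpa [mul_assoc] using this
        inv_mem' := fun {a} ha v hv => by
          have := Subgroup.inv_mem _ (ha _ (hVn.conj_mem v hv a⁻¹))
          simpa [mul_assoc] using this }
    have st : ∀ a ∈ dser U j, ∀ c ∈ cser V U j, a * c * a⁻¹ * c⁻¹ ∈ cser V U (j + 1) := by
      intro a ha c hc
      have := Subgroup.inv_mem _ (commutator_mem_commutator hc ha)
      rwa [commutatorElement_inv] at this
    have : dser U (j + 1) ≤ K := by
      apply commutator_le.mpr
      intro a ha b hb v hv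
      obtain ⟨w, hw, rfl⟩ : ∃ w ∈ V, v = b * (a * w * a⁻¹) * b⁻¹ :=
        ⟨a⁻¹ * (b⁻¹ * v * b⁻¹⁻¹) * a⁻¹⁻¹, hVn.conj_mem _ (hVn.conj_mem v hv _) _, by group⟩
      have h1 := st a ha _ (ih b hb w hw)
      have h2 := st b hb _ (ih a ha w hw)
      have h3 := Subgroup.mul_mem _ h1 (Subgroup.inv_mem _ h2)
      convert h3 using 1
      have m1 := hVn.conj_mem w hw a
      have m2 := hVn.conj_mem w hw b
      have m3 := hVn.conj_mem _ m1 b
      have m4 := hVn.conj_mem _ m2 a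
      have e1 : ⁅a, b⁆ * (b * (a * w * a⁻¹) * b⁻¹) * ⁅a, b⁆⁻¹ = a * (b * w * b⁻¹) * a⁻¹ := by
        rw [commutatorElement_def]; group
      have e2 : a * (b * w * b⁻¹ * w⁻¹) * a⁻¹ = a * (b * w * b⁻¹) * a⁻¹ * (a * w * a⁻¹)⁻¹ := by
        group
      have e3 : b * (a * w * a⁻¹ * w⁻¹) * b⁻¹ = b * (a * w * a⁻¹) * b⁻¹ * (b * w * b⁻¹)⁻¹ := by
        group
      rw [e1, e2, e3]
      generalize a * (b * w * b⁻¹) * a⁻¹ = s at m4
      generalize b * (a * w * a⁻¹) * b⁻¹ = t at m3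
      generalize a * w * a⁻¹ = x at m1
      generalize b * w * b⁻¹ = y at m2
      have : IsMulCommutative V := ⟨⟨fun a b => Subtype.ext (h.comm a a.2 b b.2)⟩⟩
      have key : ∀ {A : Type _} [CommGroup A] (s t x y w : A),
          s * t⁻¹ = s * x⁻¹ * (y * w⁻¹)⁻¹ * (t * y⁻¹ * (x * w⁻¹)⁻¹)⁻¹ := by
        intro A _ s t x y w
        apply Additive.ofMul.injective
        simp only [ofMul_mul, ofMul_inv]
        abel
      open scoped IsMulCommutative in
      exact congrArg Subtype.val (key (⟨s, m4⟩ : V) ⟨t, m3⟩ ⟨x, m1⟩ ⟨y, m2⟩ ⟨w, hw⟩)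
    exact fun n hn => this hn

theorem Prim.dser_eq_bot {p : ℕ} {V L : Subgroup G} (h : Prim p V L) {U : Subgroup G}
    (hVU : V ≤ U) {d : ℕ} (hd : cser V U d = ⊥) : dser U d = ⊥ := by
  have hVn := h.normal
  have hU : U ≤ normalizer (V : Set G) := le_norm_of_normal U V
  have key : ∀ j, ∀ x ∈ dser U j, ∃ c ∈ cser V U j, ∃ l ∈ dser (U ⊓ L) j, x = c * l := by
    intro j
    induction j with
    | zero =>
      intro x hx
      obtain ⟨v, hv, l, hl, rfl⟩ := h.dec x
      exact ⟨v, hv, l, ⟨(U.mul_mem_cancel_left (hVU hv)).mp hx, hl⟩, rfl⟩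
    | succ j ih =>
      have hsub : dser (U ⊓ L) j ≤ dser U j := dser_mono inf_le_left j
      have hn : dser (U ⊓ L) (j + 1) ≤ normalizer ((cser V U (j + 1) : Subgroup G) : Set G) :=
        ((dser_le _ _).trans inf_le_left).trans (norm_cser hU (j + 1))
      have : dser U (j + 1) ≤ dser (U ⊓ L) (j + 1) ⊔ cser V U (j + 1) := by
        apply commutator_le.mpr
        intro a ha b hb
        obtain ⟨c1, hc1, l1, hl1, e1⟩ := ih a ha
        obtain ⟨c2, hc2, l2, hl2, e2⟩ := ih b hb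
        have hx : l1 * c2 * l1⁻¹ ∈ cser V U j :=
          le_normalizer_iff.mp (norm_cser hU j) l1 (dser_le U j (hsub hl1)) c2 hc2
        have e : ⁅a, b⁆ = ⁅c1, l1 * b * l1⁻¹⁆ * ⁅c2, l1⁆⁻¹ *
            (c2 * ⁅l1, l2⁆ * c2⁻¹ * ⁅l1, l2⁆⁻¹) * ⁅l1, l2⁆ := by
          rw [e1, e2]; simp only [commutatorElement_def]; group
        rw [e]
        have k3 : ⁅l1, l2⁆ ∈ dser (U ⊓ L) (j + 1) := commutator_mem_commutator hl1 hl2
        refine Subgroup.mul_mem _ (Subgroup.mul_mem _ (Subgroup.mul_mem _ (mem_sup_right ?_)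
          (mem_sup_right (Subgroup.inv_mem _ ?_))) (mem_sup_right ?_)) (mem_sup_left k3)
        · exact commutator_mem_commutator hc1 (conj_mem_dser (dser_le U j (hsub hl1)) hb)
        · exact commutator_mem_commutator hc2 (hsub hl1)
        · exact commutator_mem_commutator hc2 (hsub (dser_succ_le _ _ k3))
      intro x hx
      obtain ⟨l, hl, c, hc, rfl⟩ := (mem_sup_iff_of_norm hn).mp (this hx)
      exact ⟨l * c * l⁻¹, le_normalizer_iff.mp hn l hl c hc, l, hl, by group⟩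
  rw [eq_bot_iff]
  intro x hx
  obtain ⟨c, hc, l, hl, rfl⟩ := key d x hx
  rw [hd, mem_bot] at hc
  have h1 : l ∈ V := by
    apply h.cent
    intro v hv
    have := h.comm_mem U d l (dser_mono inf_le_left d hl) v hv
    rw [hd, mem_bot] at this
    exact commutatorElement_eq_one_iff_mul_comm.mp this
  rw [hc, h.disj l (dser_le _ d hl).2 h1]
  simp

end Pool.Agent.Lib.MP_fe96bf_al
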