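import Pool.Agent.Lib.MP_fe96bf_al.Main

set_option autoImplicit false

namespace Pool.Agent.Lib.MP_fe96bf_al

open Subgroup

variable {π : Set ℕ}

def SolT (π : Set ℕ) (G : Type) [Group G] : Prop :=
  ∃ m : ℕ, ∃ S : ℕ → Subgroup G, S 0 = ⊥ ∧ S m = ⊤ ∧ (∀ i, (S i).Normal) ∧
    ∀ i < m, Sec πᶜ (S i) (S (i + 1)) ∨ (Sec π (S i) (S (i + 1)) ∧ ∃ k, dser (S (i + 1)) k ≤ S i)

theorem SolT.quotient {G : Type} [Group G] (h : SolT π G) (N : Subgroup G) [N.Normal] :
    SolT π (G ⧸ N) := by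
  obtain ⟨m, S, h0, hm, hN, hS⟩ := h
  have hf := QuotientGroup.mk'_surjective N
  refine ⟨m, fun i => (S i).map (QuotientGroup.mk' N), ?_, ?_, fun i => (hN i).map _ hf,
    fun i hi => ?_⟩
  · simp [h0]
  · simp only [hm]; exact map_top_of_surjective _ hf
  · rcases hS i hi with h | ⟨h, k, hk⟩
    · exact Or.inl (h.map _)
    · refine Or.inr ⟨h.map _, k, ?_⟩
      rw [← map_dser]
      exact map_mono hk

theorem dser_normal {G : Type} [Group G] (H : Subgroup G) [hH : H.Normal] (k : ℕ) :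
    (dser H k).Normal := by
  induction k with
  | zero => exact hH
  | succ k ih => exact commutator_normal _ _

theorem exists_q_normal {G : Type} [Group G] [Finite G] (A : Subgroup G) [hA : A.Normal]
    (h1 : A ≠ ⊥) (h2 : ⁅A, A⁆ = ⊥) (h3 : Sec π ⊥ A) :
    ∃ N : Subgroup G, N.Normal ∧ N ≠ ⊥ ∧ ∃ q ∈ π, q.Prime ∧ Sec {q} ⊥ N := by
  have hc : ∀ a ∈ A, ∀ b ∈ A, Commute a b := by
    intro a ha b hb
    have := commutator_mem_commutator ha hb
    rw [h2, mem_bot] at this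
    exact commutatorElement_eq_one_iff_commute.mp this
  have hcard : Nat.card A ≠ 1 := fun h => h1 (card_eq_one.mp h)
  obtain ⟨q, hq, hd⟩ := Nat.exists_prime_and_dvd hcard
  have : Fact q.Prime := ⟨hq⟩
  obtain ⟨y, hy⟩ := exists_prime_orderOf_dvd_card' (G := A) q hd
  let N : Subgroup G :=
    { carrier := {x | x ∈ A ∧ x ^ q = 1}
      one_mem' := ⟨A.one_mem, one_pow _⟩
      mul_mem' := fun {a b} ha hb => ⟨A.mul_mem ha.1 hb.1, by
        rw [(hc a ha.1 b hb.1).mul_pow, ha.2, hb.2, one_mul]⟩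
      inv_mem' := fun {a} ha => ⟨A.inv_mem ha.1, by rw [inv_pow, ha.2, inv_one]⟩ }
  refine ⟨N, ⟨fun x hx g => ⟨hA.conj_mem x hx.1 g, ?_⟩⟩, fun h => ?_, q,
    (sec_bot_iff_card.mp h3).2 q hq hd, hq, fun x hx => ⟨q, ?_, hx.2⟩⟩
  · rw [conj_pow, hx.2, mul_one, mul_inv_cancel]
  · have h4 : (y : G) ∈ N := ⟨y.2, by
      have := pow_orderOf_eq_one y
      rw [hy] at this
      exact congrArg Subtype.val this⟩
    rw [h, mem_bot] at h4
    have h5 : y = 1 := Subtype.ext h4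
    rw [h5, orderOf_one] at hy
    exact hq.ne_one hy.symm
  · simpa using PiNum.pow_prime (π := {q}) hq rfl 1

theorem SolT.exists_bottom {G : Type} [Group G] [Finite G] (h : SolT π G)
    (hG : (⊥ : Subgroup G) ≠ ⊤) :
    ∃ N : Subgroup G, N.Normal ∧ N ≠ ⊥ ∧
      (Sec πᶜ ⊥ N ∨ ∃ q ∈ π, q.Prime ∧ Sec {q} ⊥ N) := by
  classical
  obtain ⟨m, S, h0, hm, hN, hS⟩ := h
  have hex : ∃ i, S i ≠ ⊥ := ⟨m, by rw [hm]; exact hG.symm⟩
  have h1 := Nat.find_spec hex
  have h2 : Nat.find hex ≤ m := Nat.find_min' hex (by rw [hm]; exact hG.symm)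
  obtain ⟨j, hj⟩ : ∃ j, Nat.find hex = j + 1 := by
    apply Nat.exists_eq_succ_of_ne_zero
    intro h; rw [h] at h1; exact h1 h0
  have h3 : S j = ⊥ := by
    have := Nat.find_min hex (m := j) (by omega)
    simpa using this
  rw [hj] at h1 h2
  have h4 := hS j (by omega)
  rw [h3] at h4
  rcases h4 with h4 | ⟨h4, k, hk⟩
  · exact ⟨S (j + 1), hN _, h1, Or.inl h4⟩
  · have := hN (j + 1)
    have hex2 : ∃ k, dser (S (j + 1)) k = ⊥ := ⟨k, le_bot_iff.mp hk⟩
    have h5 := Nat.find_spec hex2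
    obtain ⟨l, hl⟩ : ∃ l, Nat.find hex2 = l + 1 := by
      apply Nat.exists_eq_succ_of_ne_zero
      intro h; rw [h] at h5; exact h1 h5
    have h6 : dser (S (j + 1)) l ≠ ⊥ := Nat.find_min hex2 (by omega)
    rw [hl] at h5
    have := dser_normal (S (j + 1)) l
    obtain ⟨N, n1, n2, n3⟩ := exists_q_normal (π := π) (dser (S (j + 1)) l) h6 h5
      (h4.mono le_rfl (dser_le _ _))
    exact ⟨N, n1, n2, Or.inr n3⟩

theorem Sol.of_quot {G : Type} [Group G] {N : Subgroup G} [hN : N.Normal]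
    (h1 : Sec πᶜ ⊥ N ∨ ∃ q ∈ π, q.Prime ∧ Sec {q} ⊥ N) (h : Sol π (G ⧸ N)) : Sol π G := by
  obtain ⟨m, S, h0, hm, hn, hS⟩ := h
  refine ⟨m + 1, fun i => match i with
    | 0 => ⊥
    | i + 1 => (S i).comap (QuotientGroup.mk' N), rfl, ?_, fun i => ?_, fun i hi => ?_⟩
  · show (S m).comap _ = ⊤
    rw [hm, comap_top]
  · match i with
    | 0 => exact normal_bot
    | i + 1 => exact (hn i).comap _
  · match i with
    | 0 =>
      show Sec πᶜ ⊥ ((S 0).comap _) ∨ ∃ q ∈ π, q.Prime ∧ Sec {q} ⊥ ((S 0).comap _)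
      rw [h0, MonoidHom.comap_bot, QuotientGroup.ker_mk']
      exact h1
    | i + 1 =>
      rcases hS i (by omega) with h | ⟨q, hq, hq', h⟩
      · exact Or.inl (h.comap _)
      · exact Or.inr ⟨q, hq, hq', h.comap _⟩

theorem card_quot_lt2 {G : Type} [Group G] [Finite G] {N : Subgroup G} [N.Normal] (h : N ≠ ⊥) :
    Nat.card (G ⧸ N) < Nat.card G := by
  rw [card_eq_card_quotient_mul_card_subgroup N]
  have h1 : 1 < Nat.card N := one_lt_card_iff_ne_bot N |>.mpr h
  have h2 : 0 < Nat.card (G ⧸ N) := Nat.card_pos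
  nlinarith

theorem SolT.sol (n : ℕ) : ∀ (G : Type) [Group G] [Finite G], Nat.card G = n → SolT π G →
    Sol π G := by
  induction n using Nat.strong_induction_on with
  | _ n ih =>
    intro G _ _ hn h
    by_cases hG : (⊥ : Subgroup G) = ⊤
    · exact ⟨0, fun _ => ⊥, rfl, hG, fun _ => normal_bot, fun i hi => by omega⟩
    · obtain ⟨N, n1, n2, n3⟩ := h.exists_bottom hG
      exact Sol.of_quot n3 (ih _ (hn ▸ card_quot_lt2 n2) _ rfl (h.quotient N))

theorem Sol.solvable (n : ℕ) : ∀ (G : Type) [Group G] [Finite G], Nat.card G = n → Sol π G →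
    Sec π ⊥ (⊤ : Subgroup G) → Group.IsSolvable G := by
  induction n using Nat.strong_induction_on with
  | _ n ih =>
    intro G _ _ hn h hs
    by_cases hG : (⊥ : Subgroup G) = ⊤
    · exact ⟨⟨0, hG.symm⟩⟩
    · obtain ⟨N, n1, n2, n3⟩ := h.exists_bottom hG
      have h1 : Group.IsSolvable (G ⧸ N) := by
        refine ih _ (hn ▸ card_quot_lt2 n2) _ rfl (h.quotient N) ?_
        have := hs.map_bot (QuotientGroup.mk' N)
        rwa [map_top_of_surjective _ (QuotientGroup.mk'_surjective N)] at this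
      have h2 : Group.IsSolvable N := by
        rcases n3 with n3 | ⟨q, -, hq, n3⟩
        · refine absurd ?_ n2
          rw [eq_bot_iff]
          intro x hx
          exact Sec.eq_one hs n3 (mem_top x) hx
        · have : Fact q.Prime := ⟨hq⟩
          have := n3.isPGroup.isNilpotent
          infer_instance
      exact Group.isSolvable_of_ker_le_range N.subtype (QuotientGroup.mk' N) (by simp)

theorem solvable_factor {G : Type} [Group G] [Finite G] (h : Sol π G) {A B : Subgroup G}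
    [A.Normal] (hs : Sec π A B) : Group.IsSolvable (B ⧸ A.subgroupOf B) := by
  refine Sol.solvable _ _ rfl ((h.subgroup B).quotient _) ?_
  rw [sec_bot_iff_card, card_top]
  exact sec_iff_relIndex.mp hs

theorem dser_le_of_solvable {G : Type} [Group G] {A B : Subgroup G} [A.Normal]
    (h : Group.IsSolvable (B ⧸ A.subgroupOf B)) : ∃ k, dser B k ≤ A := by
  obtain ⟨k, hk⟩ := h
  refine ⟨k, ?_⟩
  rw [← map_derivedSeries_eq (QuotientGroup.mk'_surjective (A.subgroupOf B)), Subgroup.map_eq_bot_iff,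
    QuotientGroup.ker_mk'] at hk
  rw [dser_eq_map]
  rintro _ ⟨x, hx, rfl⟩
  exact hk hx

end Pool.Agent.Lib.MP_fe96bf_al
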