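import Pool.Agent.Lib.MP_fe96bf_al.Decomp

set_option autoImplicit false
set_option linter.unusedSectionVars false

namespace Pool.Agent.Lib.MP_fe96bf_al

open Subgroup
open scoped commutatorElement

variable {L : Type} [Group L]

def Cls2 (Q : Subgroup L) : Prop := ∀ x ∈ Q, ∀ y ∈ Q, ∀ z ∈ Q, ⁅x, y⁆ * z = z * ⁅x, y⁆

def Cen (Q : Subgroup L) (z : L) : Prop := z ∈ Q ∧ ∀ y ∈ Q, z * y = y * z

theorem comm_mem {Q : Subgroup L} {x y : L} (hx : x ∈ Q) (hy : y ∈ Q) : ⁅x, y⁆ ∈ Q :=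
  Q.mul_mem (Q.mul_mem (Q.mul_mem hx hy) (Q.inv_mem hx)) (Q.inv_mem hy)

theorem Cls2.cen {Q : Subgroup L} (h : Cls2 Q) {x y : L} (hx : x ∈ Q) (hy : y ∈ Q) :
    Cen Q ⁅x, y⁆ := ⟨comm_mem hx hy, h x hx y hy⟩

theorem Cls2.pal {Q : Subgroup L} (h : Cls2 Q) {u v : L} (hu : u ∈ Q) (hv : v ∈ Q) :
    u * v * v * u = v * u * u * v := by
  have e : v * u = ⁅v, u⁆ * (u * v) := by rw [commutatorElement_def]; group
  have h1 := h v hv u hu (u * v) (Q.mul_mem hu hv)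
  calc u * v * v * u = (u * v) * (v * u) := by group
    _ = (u * v) * ⁅v, u⁆ * (u * v) := by rw [e]; group
    _ = ⁅v, u⁆ * (u * v) * (u * v) := by rw [h1]
    _ = v * u * u * v := by rw [← e]; group

theorem exists_sqrt {Q : Subgroup L} (hodd : Odd (Nat.card Q)) :
    ∃ n : ℕ, ∀ x ∈ Q, (x * x) ^ n = x := by
  obtain ⟨n, hn⟩ := hodd
  refine ⟨n + 1, fun x hx => ?_⟩
  have : x ^ Nat.card Q = 1 := congrArg Subtype.val (pow_card_eq_one' (G := Q) (x := ⟨x, hx⟩))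
  rw [← pow_two, ← pow_mul, show 2 * (n + 1) = Nat.card Q + 1 by omega, pow_succ, this, one_mul]

theorem eq_one_of_sq {Q : Subgroup L} (hodd : Odd (Nat.card Q)) {x : L} (hx : x ∈ Q)
    (h : x * x = 1) : x = 1 := by
  obtain ⟨n, hn⟩ := exists_sqrt hodd
  rw [← hn x hx, h, one_pow]

def Jw (Q : Subgroup L) (R t : Set L) : Set L :=
  {x | x ∈ Q ∧ ∀ w ∈ R, (w ∈ t → w * x * w⁻¹ = x⁻¹) ∧ (w ∉ t → w * x * w⁻¹ = x)}

variable {Q : Subgroup L} {R t : Set L}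

theorem Jw_one : (1 : L) ∈ Jw Q R t := ⟨Q.one_mem, fun w _ => by simp⟩

theorem Jw_inv {x : L} (hx : x ∈ Jw Q R t) : x⁻¹ ∈ Jw Q R t := by
  refine ⟨Q.inv_mem hx.1, fun w hw => ⟨fun h => ?_, fun h => ?_⟩⟩
  · rw [← conj_inv, (hx.2 w hw).1 h]
  · rw [← conj_inv, (hx.2 w hw).2 h]

theorem Jw_pal {x y : L} (hx : x ∈ Jw Q R t) (hy : y ∈ Jw Q R t) : x * y * x ∈ Jw Q R t := by
  refine ⟨Q.mul_mem (Q.mul_mem hx.1 hy.1) hx.1, fun w hw => ⟨fun h => ?_, fun h => ?_⟩⟩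
  · rw [← conj_mul, ← conj_mul, (hx.2 w hw).1 h, (hy.2 w hw).1 h]; group
  · rw [← conj_mul, ← conj_mul, (hx.2 w hw).2 h, (hy.2 w hw).2 h]

theorem Jw_pow {x : L} (hx : x ∈ Jw Q R t) (n : ℕ) : x ^ n ∈ Jw Q R t := by
  refine ⟨Q.pow_mem hx.1 n, fun w hw => ⟨fun h => ?_, fun h => ?_⟩⟩
  · rw [← conj_pow, (hx.2 w hw).1 h, inv_pow]
  · rw [← conj_pow, (hx.2 w hw).2 h]

structure Inv2 (Q R : Subgroup L) : Prop where
  norm : R ≤ normalizer (Q : Set L)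
  cen : ∀ w ∈ R, ∀ z, Cen Q z → w * z * w⁻¹ = z
  sq : ∀ w ∈ R, ∀ x ∈ Q, w * (w * x * w⁻¹) * w⁻¹ = x
  comm : ∀ w ∈ R, ∀ w' ∈ R, ∀ x ∈ Q, w * (w' * x * w'⁻¹) * w⁻¹ = w' * (w * x * w⁻¹) * w'⁻¹

theorem comm_of_inv (hc : Cls2 Q) (hodd : Odd (Nat.card Q)) {w x y : L}
    (hw : ∀ z, Cen Q z → w * z * w⁻¹ = z) (hx : x ∈ Q) (hy : y ∈ Q)
    (h1 : w * x * w⁻¹ = x⁻¹) (h2 : w * y * w⁻¹ = y) : x * y = y * x := by
  have h3 := hw _ (hc.cen hx hy)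
  have h4 : w * ⁅x, y⁆ * w⁻¹ = x⁻¹ * ⁅x, y⁆⁻¹ * x := by
    calc w * ⁅x, y⁆ * w⁻¹ = (w * x * w⁻¹) * (w * y * w⁻¹) * (w * x * w⁻¹)⁻¹ * (w * y * w⁻¹)⁻¹ := by
          rw [commutatorElement_def]; group
      _ = x⁻¹ * ⁅x, y⁆⁻¹ * x := by rw [h1, h2, commutatorElement_def]; group
  have h5 := hc x hx y hy x hx
  have h6 : ⁅x, y⁆ * ⁅x, y⁆ = 1 := by
    calc ⁅x, y⁆ * ⁅x, y⁆ = x⁻¹ * ⁅x, y⁆⁻¹ * (x * ⁅x, y⁆) := by
          nth_rewrite 1 [← h3, h4]; group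
      _ = 1 := by rw [← h5]; group
  exact commutatorElement_eq_one_iff_mul_comm.mp (eq_one_of_sq hodd (comm_mem hx hy) h6)

theorem Jw_comm {R : Subgroup L} (hR : Inv2 Q R) (hc : Cls2 Q) (hodd : Odd (Nat.card Q))
    {t t' : Set L} (ht : t ⊆ R) (ht' : t' ⊆ R) (hne : t ≠ t') {x y : L}
    (hx : x ∈ Jw Q R t) (hy : y ∈ Jw Q R t') : x * y = y * x := by
  obtain ⟨w, hw⟩ : ∃ w, ¬ (w ∈ t ↔ w ∈ t') := by
    by_contra h
    push Not at h
    exact hne (Set.ext h)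
  by_cases h1 : w ∈ t
  · have h2 : w ∉ t' := fun h => hw ⟨fun _ => h, fun _ => h1⟩
    exact comm_of_inv hc hodd (hR.cen w (ht h1)) hx.1 hy.1 ((hx.2 w (ht h1)).1 h1)
      ((hy.2 w (ht h1)).2 h2)
  · have h2 : w ∈ t' := by
      by_contra h; exact hw ⟨fun h' => absurd h' h1, fun h' => absurd h' h⟩
    exact (comm_of_inv hc hodd (hR.cen w (ht' h2)) hy.1 hx.1 ((hy.2 w (ht' h2)).1 h2)
      ((hx.2 w (ht' h2)).2 h1)).symm

theorem Jw_gen_aux {R : Subgroup L} (hR : Inv2 Q R) (hc : Cls2 Q) (hodd : Odd (Nat.card Q))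
    (K : Subgroup L) (s : Finset L) : (s : Set L) ⊆ R → (∀ t, Jw Q s t ⊆ K) → Q ≤ K := by
  classical
  induction s using Finset.induction_on with
  | empty => intro _ h x hx; exact h ∅ ⟨hx, by simp⟩
  | insert w s hws ih =>
    intro hs h
    have hw : w ∈ R := hs (by simp)
    have hs' : (s : Set L) ⊆ R := fun y hy => hs (by simp [hy])
    apply ih hs'
    intro t x hx
    have hx' : w * x * w⁻¹ ∈ Jw Q s t := by
      refine ⟨le_normalizer_iff.mp hR.norm w hw x hx.1, fun w' hw' => ⟨fun h => ?_, fun h => ?_⟩⟩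
      · rw [hR.comm w' (hs' hw') w hw x hx.1, (hx.2 w' hw').1 h, conj_inv]
      · rw [hR.comm w' (hs' hw') w hw x hx.1, (hx.2 w' hw').2 h]
    set y := w * x * w⁻¹ with hy
    have hwy : w * y * w⁻¹ = x := hR.sq w hw x hx.1
    have hc0 : x * (y * 1 * y) * x ∈ Jw Q s t := Jw_pal hx (Jw_pal hx' Jw_one)
    have hi0 : x * (y⁻¹ * 1 * y⁻¹) * x ∈ Jw Q s t := Jw_pal hx (Jw_pal (Jw_inv hx') Jw_one)
    have hc1 : x * (y * 1 * y) * x ∈ K := by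
      apply h (t \ {w})
      refine ⟨hc0.1, fun w' hw' => ?_⟩
      rcases Finset.mem_insert.mp (Finset.mem_coe.mp hw') with rfl | hw'
      · refine ⟨fun h => absurd rfl h.2, fun _ => ?_⟩
        calc w' * (x * (y * 1 * y) * x) * w'⁻¹
            = (w' * x * w'⁻¹) * (w' * y * w'⁻¹) * (w' * y * w'⁻¹) * (w' * x * w'⁻¹) := by group
          _ = y * x * x * y := by rw [hwy]
          _ = x * (y * 1 * y) * x := by rw [hc.pal hx'.1 hx.1]; group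
      · have hne : w' ≠ w := fun h => hws (h ▸ hw')
        exact ⟨fun h => (hc0.2 w' hw').1 h.1, fun h => (hc0.2 w' hw').2 fun h' => h ⟨h', hne⟩⟩
    have hi1 : x * (y⁻¹ * 1 * y⁻¹) * x ∈ K := by
      apply h (insert w t)
      refine ⟨hi0.1, fun w' hw' => ?_⟩
      rcases Finset.mem_insert.mp (Finset.mem_coe.mp hw') with rfl | hw'
      · refine ⟨fun _ => ?_, fun h => absurd (Set.mem_insert _ _) h⟩
        calc w' * (x * (y⁻¹ * 1 * y⁻¹) * x) * w'⁻¹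
            = (w' * x * w'⁻¹) * (w' * y * w'⁻¹)⁻¹ * (w' * y * w'⁻¹)⁻¹ * (w' * x * w'⁻¹) := by group
          _ = y * x⁻¹ * x⁻¹ * y := by rw [hwy]
          _ = (x * (y⁻¹ * 1 * y⁻¹) * x)⁻¹ := by rw [hc.pal hx'.1 (Q.inv_mem hx.1)]; simp [mul_assoc]
      · have hne : w' ≠ w := fun h => hws (h ▸ hw')
        exact ⟨fun h => (hi0.2 w' hw').1 (h.resolve_left hne),
          fun h => (hi0.2 w' hw').2 fun h' => h (Set.mem_insert_of_mem _ h')⟩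
    have hyy := Q.mul_mem hx'.1 hx'.1
    have hxx := Q.mul_mem hx.1 hx.1
    have hz := hc.cen hyy hxx
    have hzK : ⁅y * y, x * x⁆ ∈ K := by
      apply h ∅
      exact ⟨hz.1, fun w' hw' => ⟨fun h => absurd h (Set.notMem_empty _),
        fun _ => hR.cen w' (hs hw') _ hz⟩⟩
    have h4 : (x * x) * (x * x) ∈ K := by
      have e : (x * x) * (x * x) = ⁅y * y, x * x⁆⁻¹ *
          ((x * (y * 1 * y) * x) * (x * (y⁻¹ * 1 * y⁻¹) * x)) := by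
        have e1 : (x * (y * 1 * y) * x) * (x * (y⁻¹ * 1 * y⁻¹) * x) =
            x * ⁅y * y, x * x⁆ * (x * x * x) := by rw [commutatorElement_def]; group
        rw [e1, ← hz.2 x hx.1]; simp only [mul_assoc, inv_mul_cancel_left]
      rw [e]
      exact K.mul_mem (K.inv_mem hzK) (K.mul_mem hc1 hi1)
    obtain ⟨n, hn⟩ := exists_sqrt hodd
    show x ∈ K
    rw [← hn x hx.1, ← hn _ hxx]
    exact K.pow_mem (K.pow_mem h4 n) n

theorem Jw_gen [Finite L] {R : Subgroup L} (hR : Inv2 Q R) (hc : Cls2 Q)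
    (hodd : Odd (Nat.card Q)) (K : Subgroup L) (h : ∀ t ⊆ (R : Set L), Jw Q R t ⊆ K) : Q ≤ K := by
  apply Jw_gen_aux hR hc hodd K (Set.toFinite (R : Set L)).toFinset (by simp)
  intro t x hx
  apply h (t ∩ R) Set.inter_subset_right
  rw [Set.Finite.coe_toFinset] at hx
  exact ⟨hx.1, fun w hw => ⟨fun h => (hx.2 w hw).1 h.1, fun h => (hx.2 w hw).2 fun h' => h ⟨h', hw⟩⟩⟩

theorem exists_noncomm [Finite L] {R : Subgroup L} (hR : Inv2 Q R) (hc : Cls2 Q)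
    (hodd : Odd (Nat.card Q)) {t : Set L} (ht : t ⊆ R) {a : L} (ha : a ∈ t) {x : L}
    (hx : x ∈ Jw Q R t) (hx1 : x ≠ 1) : ∃ y ∈ Jw Q R t, ⁅x, y⁆ ≠ 1 := by
  by_contra hcon
  push Not at hcon
  have : Q ≤ centralizer {x} := by
    apply Jw_gen hR hc hodd
    intro t' ht' y hy
    rw [SetLike.mem_coe, mem_centralizer_iff]
    rintro _ rfl
    by_cases h : t = t'
    · subst h; exact commutatorElement_eq_one_iff_mul_comm.mp (hcon y hy)
    · exact Jw_comm hR hc hodd ht ht' h hx hy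
  have h1 := hR.cen a (ht ha) x ⟨hx.1, fun y hy => mem_centralizer_iff.mp (this hy) x rfl⟩
  rw [(hx.2 a (ht ha)).1 ha] at h1
  exact hx1 (eq_one_of_sq hodd hx.1 (by nth_rewrite 1 [← h1]; simp))

variable {k V : Type} [Field k] [AddCommGroup V] [Module k V]

def Kfix (ρ : L →* Module.End k V) (g : L) : Subgroup L where
  carrier := {h | ∀ v, ρ h (ρ g v - v) = ρ g v - v}
  one_mem' := fun v => rho_one ρ _
  mul_mem' := fun {a b} ha hb v => by rw [rho_mul, hb v, ha v]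
  inv_mem' := fun {a} ha v => by
    nth_rewrite 1 [← ha v]
    rw [rho_inv_rho]

variable {ρ : L →* Module.End k V}

theorem Kfix_conj {g h : L} (u : L) (hh : h ∈ Kfix ρ g) : u * h * u⁻¹ ∈ Kfix ρ (u * g * u⁻¹) := by
  intro v
  have := hh (ρ u⁻¹ v)
  have e : ρ (u * g * u⁻¹) v - v = ρ u (ρ g (ρ u⁻¹ v) - ρ u⁻¹ v) := by
    rw [map_sub, rho_rho_inv, rho_mul, rho_mul]
  rw [e, rho_mul, rho_mul, rho_inv_rho, this]

theorem Kfix_symm {g h : L} (hc : g * h = h * g) (hh : h ∈ Kfix ρ g) : g ∈ Kfix ρ h := by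
  intro v
  have := hh v
  rw [map_sub, ← rho_mul, ← hc, rho_mul] at this
  rw [map_sub, sub_eq_iff_eq_add.mp this]
  abel

theorem Kfix_prod {a1 a2 x y : L} (hq : a1 ∈ Kfix ρ a2) (h1 : a1 * x * a1⁻¹ = x⁻¹)
    (h2 : a1 * y * a1⁻¹ = y) (h3 : a2 * y * a2⁻¹ = y⁻¹) (hxy : x * y = y * x) :
    x * x ∈ Kfix ρ (y * y) := by
  have e1 : y * a1 * y⁻¹ = a1 := by
    calc y * a1 * y⁻¹ = (a1 * y * a1⁻¹) * a1 * y⁻¹ := by rw [h2]
      _ = a1 := by group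
  have e2 : y * a2 * y⁻¹ = y * y * a2 := by
    calc y * a2 * y⁻¹ = y * (a2 * y * a2⁻¹)⁻¹ * a2 := by group
      _ = y * y * a2 := by rw [h3]; group
  have e3 : x * a1 * x⁻¹ = x * x * a1 := by
    calc x * a1 * x⁻¹ = x * (a1 * x * a1⁻¹)⁻¹ * a1 := by group
      _ = x * x * a1 := by rw [h1]; group
  have e4 : x * (y * y) * x⁻¹ = y * y := by
    calc x * (y * y) * x⁻¹ = (x * y) * y * x⁻¹ := by group
      _ = (y * x) * y * x⁻¹ := by rw [hxy]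
      _ = y * (x * y) * x⁻¹ := by simp only [mul_assoc]
      _ = y * y := by rw [hxy]; simp [mul_assoc]
  have k1 := Kfix_conj y hq
  rw [e1, e2] at k1
  have k2 : a1 ∈ Kfix ρ (y * y) := by
    intro v
    have s1 := k1 (ρ a2⁻¹ v)
    have s2 := hq (ρ a2⁻¹ v)
    rw [rho_mul ρ (y * y), rho_rho_inv] at s1
    rw [rho_rho_inv] at s2
    have e : ρ (y * y) v - v = (ρ (y * y) v - ρ a2⁻¹ v) - (v - ρ a2⁻¹ v) := by abel
    rw [e, map_sub, s1, s2]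
  have k3 := Kfix_conj x k2
  rw [e3, e4] at k3
  have := (Kfix ρ (y * y)).mul_mem k3 ((Kfix ρ (y * y)).inv_mem k2)
  simpa using this

theorem add_self_char2 [CharP k 2] (v : V) : v + v = 0 := by
  rw [← two_smul k v]
  have : (2 : k) = 0 := CharP.cast_eq_zero k 2
  rw [this, zero_smul]

theorem sq_of_Kfix [CharP k 2] (hf : Function.Injective ρ) {a : L} (h : a ∈ Kfix ρ a) :
    a * a = 1 := by
  apply hf
  ext v
  have h1 := h v
  rw [map_sub] at h1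
  rw [rho_mul, rho_one, sub_eq_iff_eq_add.mp h1]
  have h2 := add_self_char2 (k := k) (ρ a v - v)
  calc ρ a v - v + ρ a v = (ρ a v - v + (ρ a v - v)) + v := by abel
    _ = v := by rw [h2, zero_add]

theorem comm_of_Kfix (hf : Function.Injective ρ) {a b : L} (h : a ∈ Kfix ρ b)
    (h' : b ∈ Kfix ρ a) : a * b = b * a := by
  apply hf
  ext v
  have h1 := h v
  have h2 := h' v
  rw [map_sub] at h1 h2
  rw [rho_mul, rho_mul, sub_eq_iff_eq_add.mp h1, sub_eq_iff_eq_add.mp h2]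
  abel

theorem step_b [Finite L] [CharP k 2] (hf : Function.Injective ρ) (hc : Cls2 Q)
    (hodd : Odd (Nat.card Q)) {A P : Subgroup L} (hAP : A ≤ P)
    (hPA : P ≤ normalizer (A : Set L)) (hPQ : P ≤ normalizer (Q : Set L))
    (hPz : ∀ w ∈ P, ∀ z, Cen Q z → w * z * w⁻¹ = z) (hq : ∀ a ∈ A, ∀ b ∈ A, a ∈ Kfix ρ b)
    {a w x : L} (ha : a ∈ A) (hw : w ∈ P) (hx : x ∈ Q) :
    (w * a * w⁻¹) * x * (w * a * w⁻¹)⁻¹ = a * x * a⁻¹ := by
  have hR : Inv2 Q A := by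
    refine ⟨hAP.trans hPQ, fun w hw => hPz w (hAP hw), fun b hb y _ => ?_,
      fun b hb c hc' y _ => ?_⟩
    · have := sq_of_Kfix hf (hq b hb b hb)
      calc b * (b * y * b⁻¹) * b⁻¹ = (b * b) * y * (b * b)⁻¹ := by group
        _ = y := by rw [this]; group
    · have := comm_of_Kfix hf (hq b hb c hc') (hq c hc' b hb)
      calc b * (c * y * c⁻¹) * b⁻¹ = (b * c) * y * (b * c)⁻¹ := by group
        _ = c * (b * y * b⁻¹) * c⁻¹ := by rw [this]; group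
  obtain ⟨n, hn⟩ := exists_sqrt hodd
  have prod : ∀ t t' : Set L, t ⊆ A → t' ⊆ A → t ≠ t' → t.Nonempty → t'.Nonempty →
      ∀ x ∈ Jw Q A t, ∀ y ∈ Jw Q A t', x ∈ Kfix ρ y := by
    have aux : ∀ t t' : Set L, t ⊆ A → t' ⊆ A → (∃ a1 ∈ t, a1 ∉ t') → t'.Nonempty →
        ∀ x ∈ Jw Q A t, ∀ y ∈ Jw Q A t', x ∈ Kfix ρ y := by
      rintro t t' ht ht' ⟨a1, h1, h1'⟩ ⟨a2, h2⟩ x hx y hy
      have hx0 := Jw_pow hx n
      have hy0 := Jw_pow hy n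
      have := Kfix_prod (hq a1 (ht h1) a2 (ht' h2)) ((hx0.2 a1 (ht h1)).1 h1)
        ((hy0.2 a1 (ht h1)).2 h1') ((hy0.2 a2 (ht' h2)).1 h2)
        (Jw_comm hR hc hodd ht ht' (fun h => h1' (h ▸ h1)) hx0 hy0)
      rwa [← (Commute.refl x).mul_pow, ← (Commute.refl y).mul_pow, hn x hx.1, hn y hy.1] at this
    intro t t' ht ht' hne h1 h2 x hx y hy
    by_cases h : ∃ a1 ∈ t, a1 ∉ t'
    · exact aux t t' ht ht' h h2 x hx y hy
    · have h' : ∃ a1 ∈ t', a1 ∉ t := by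
        by_contra h'
        push Not at h h'
        exact hne (Set.Subset.antisymm h h')
      exact Kfix_symm (Jw_comm hR hc hodd ht ht' hne hx hy) (aux t' t ht' ht h' h1 y hy x hx)
  have hwa : w * a * w⁻¹ ∈ A := le_normalizer_iff.mp hPA w hw a ha
  have : Q ≤ centralizer {a⁻¹ * (w * a * w⁻¹)} := by
    apply Jw_gen hR hc hodd
    intro t ht x hx
    rw [SetLike.mem_coe, mem_centralizer_iff]
    rintro _ rfl
    suffices h : (w * a * w⁻¹) * x * (w * a * w⁻¹)⁻¹ = a * x * a⁻¹ by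
      calc a⁻¹ * (w * a * w⁻¹) * x
          = a⁻¹ * ((w * a * w⁻¹) * x * (w * a * w⁻¹)⁻¹) * (w * a * w⁻¹) := by group
        _ = x * (a⁻¹ * (w * a * w⁻¹)) := by rw [h]; group
    by_cases hx1 : x = 1
    · subst hx1; simp
    by_cases hiff : (w * a * w⁻¹ ∈ t ↔ a ∈ t)
    · by_cases h : a ∈ t
      · rw [(hx.2 _ hwa).1 (hiff.mpr h), (hx.2 _ ha).1 h]
      · rw [(hx.2 _ hwa).2 (fun h' => h (hiff.mp h')), (hx.2 _ ha).2 h]
    exfalso
    let t' : Set L := {b | b ∈ A ∧ w * b * w⁻¹ ∈ t}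
    have ht' : t' ⊆ A := fun b hb => hb.1
    have hconj : ∀ y ∈ Jw Q A t, w⁻¹ * y * w⁻¹⁻¹ ∈ Jw Q A t' := by
      intro y hy
      refine ⟨le_normalizer_iff.mp hPQ _ (P.inv_mem hw) y hy.1, fun b hb => ?_⟩
      have hb' : w * b * w⁻¹ ∈ A := le_normalizer_iff.mp hPA w hw b hb
      have e : b * (w⁻¹ * y * w⁻¹⁻¹) * b⁻¹ =
          w⁻¹ * ((w * b * w⁻¹) * y * (w * b * w⁻¹)⁻¹) * w := by group
      constructor
      · intro h; rw [e, (hy.2 _ hb').1 h.2]; group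
      · intro h; rw [e, (hy.2 _ hb').2 (fun h' => h ⟨hb, h'⟩)]; group
    have hne : t ≠ t' := by
      intro h
      apply hiff
      constructor
      · intro h'; rw [h]; exact ⟨ha, h'⟩
      · intro h'; rw [h] at h'; exact h'.2
    obtain ⟨b, hb⟩ : t.Nonempty := by
      by_cases h : a ∈ t
      · exact ⟨a, h⟩
      · exact ⟨w * a * w⁻¹, by
          by_contra h'; exact hiff ⟨fun h2 => absurd h2 h', fun h2 => absurd h2 h⟩⟩
    have hn' : t'.Nonempty := ⟨w⁻¹ * b * w⁻¹⁻¹,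
      le_normalizer_iff.mp hPA _ (P.inv_mem hw) b (ht hb), by
        have : w * (w⁻¹ * b * w⁻¹⁻¹) * w⁻¹ = b := by group
        rwa [this]⟩
    obtain ⟨x2, hx2, hne1⟩ := exists_noncomm hR hc hodd ht hb hx hx1
    have hcen := hc.cen hx.1 hx2.1
    have k1 : ∀ y ∈ Jw Q A t', y ∈ Kfix ρ ⁅x, x2⁆ := by
      intro y hy
      exact Kfix_symm (hcen.2 y hy.1).symm
        (comm_mem (prod t t' ht ht' hne ⟨b, hb⟩ hn' x hx y hy)
          (prod t t' ht ht' hne ⟨b, hb⟩ hn' x2 hx2 y hy))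
    have k2 := comm_mem (k1 _ (hconj x hx)) (k1 _ (hconj x2 hx2))
    have e : ⁅w⁻¹ * x * w⁻¹⁻¹, w⁻¹ * x2 * w⁻¹⁻¹⁆ = w⁻¹ * ⁅x, x2⁆ * w⁻¹⁻¹ := by
      simp only [commutatorElement_def]; group
    rw [e, hPz _ (P.inv_mem hw) _ hcen] at k2
    exact hne1 (eq_one_of_sq hodd hcen.1 (sq_of_Kfix hf k2))
  have h := mem_centralizer_iff.mp (this hx) _ rfl
  calc (w * a * w⁻¹) * x * (w * a * w⁻¹)⁻¹
      = a * (a⁻¹ * (w * a * w⁻¹) * x) * (w * a * w⁻¹)⁻¹ := by group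
    _ = a * x * a⁻¹ := by rw [h]; group

end Pool.Agent.Lib.MP_fe96bf_al
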