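import Pool.Agent.Lib.MP_fe96bf_al.Basic

set_option autoImplicit false

namespace Pool.Agent.Lib.MP_fe96bf_al

open Subgroup
open scoped commutatorElement

universe u

variable {L : Type*} [Group L] {k V : Type*} [Field k] [AddCommGroup V] [Module k V]

theorem rho_mul (ρ : L →* Module.End k V) (a b : L) (v : V) : ρ (a * b) v = ρ a (ρ b v) := by
  rw [map_mul]; rfl

theorem rho_one (ρ : L →* Module.End k V) (v : V) : ρ 1 v = v := by
  rw [map_one]; rfl

theorem rho_inv_rho (ρ : L →* Module.End k V) (a : L) (v : V) : ρ a⁻¹ (ρ a v) = v := by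
  rw [← rho_mul, inv_mul_cancel, rho_one]

theorem rho_rho_inv (ρ : L →* Module.End k V) (a : L) (v : V) : ρ a (ρ a⁻¹ v) = v := by
  rw [← rho_mul, mul_inv_cancel, rho_one]

def stabS (ρ : L →* Module.End k V) (F : Submodule k V) : Subgroup L where
  carrier := {n | ∀ v, ρ n v - v ∈ F}
  one_mem' := fun v => by simp
  mul_mem' := fun {a b} ha hb v => by
    have := F.add_mem (ha (ρ b v)) (hb v)
    rw [rho_mul]
    simpa using this
  inv_mem' := fun {a} ha v => by
    have := F.neg_mem (ha (ρ a⁻¹ v))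
    rw [rho_rho_inv] at this
    simpa using this

structure Chain (ρ : L →* Module.End k V) (H : Subgroup L) (F : ℕ → Submodule k V) : Prop where
  zero : F 0 = ⊤
  inv : ∀ j, ∀ h ∈ H, ∀ v ∈ F j, ρ h v ∈ F j
  step : ∀ j, ∀ n ∈ dser H j, ∀ v ∈ F j, ρ n v - v ∈ F (j + 1)

variable {ρ : L →* Module.End k V} {H : Subgroup L} {F : ℕ → Submodule k V}

theorem Chain.sub_mem (hF : Chain ρ H F) (j : ℕ) :
    ∀ n ∈ dser H j, ∀ v, ρ n v - v ∈ F j := by
  induction j with
  | zero => intro n _ v; rw [hF.zero]; trivial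
  | succ j ih =>
    have : dser H (j + 1) ≤ stabS ρ (F (j + 1)) := by
      apply commutator_le.mpr
      intro a ha b hb v
      obtain ⟨w, rfl⟩ : ∃ w, v = ρ b (ρ a w) :=
        ⟨ρ a⁻¹ (ρ b⁻¹ v), by rw [rho_rho_inv, rho_rho_inv]⟩
      have h1 := hF.step j a ha _ (ih b hb w)
      have h2 := hF.step j b hb _ (ih a ha w)
      have h3 := (F (j + 1)).sub_mem h1 h2
      have e : ρ ⁅a, b⁆ (ρ b (ρ a w)) = ρ a (ρ b w) := by
        rw [← rho_mul, ← rho_mul, ← rho_mul]
        congr 2
        rw [commutatorElement_def]; group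
      rw [e]
      convert h3 using 1
      simp only [map_sub]
      abel
    exact fun n hn => this hn

theorem Chain.quad (hF : Chain ρ H F) (j : ℕ) {a b : L} (ha : a ∈ dser H j) (hb : b ∈ dser H j)
    (v : V) : ρ b (ρ a v - v) - (ρ a v - v) ∈ F (j + 1) :=
  hF.step j b hb _ (hF.sub_mem j a ha v)

def rest {Ω : Type u} (S : Ω → Submodule k V) (ω : Ω) : Submodule k V := ⨆ ω' : {x // x ≠ ω}, S ω'

theorem le_rest {Ω : Type u} (S : Ω → Submodule k V) {ω ω' : Ω} (h : ω' ≠ ω) :
    S ω' ≤ rest S ω := le_iSup (fun x : {x // x ≠ ω} => S x) ⟨ω', h⟩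

theorem rest_le {Ω : Type u} (S : Ω → Submodule k V) {ω : Ω} {X : Submodule k V}
    (h : ∀ ω', ω' ≠ ω → S ω' ≤ X) : rest S ω ≤ X := iSup_le fun x => h x.1 x.2

theorem two_point_comm {Ω : Type u} {f g : Ω → Ω} {x y : Ω} (b1 : f x = x ∨ f x = y)
    (b2 : f y = x ∨ f y = y) (c1 : g x = x ∨ g x = y) (c2 : g y = x ∨ g y = y)
    (b3 : f x ≠ f y) (c3 : g x ≠ g y) : f (g x) = g (f x) ∧ f (g y) = g (f y) := by
  rcases b1 with b1 | b1 <;> rcases b2 with b2 | b2 <;> rcases c1 with c1 | c1 <;>
    rcases c2 with c2 | c2 <;>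
    first
      | exact absurd (b1.trans b2.symm) b3
      | exact absurd (c1.trans c2.symm) c3
      | exact ⟨by simp only [b1, b2, c1, c2], by simp only [b1, b2, c1, c2]⟩

theorem wreath (hF : Chain ρ H F) (m : ℕ) : ∀ (Ω : Type u) (act : L → Ω → Ω)
    (_ : ∀ ω, act 1 ω = ω) (_ : ∀ a b ω, act (a * b) ω = act a (act b ω))
    (S : Ω → Submodule k V) (_ : ∀ h ∈ H, ∀ ω, ∀ v ∈ S ω, ρ h v ∈ S (act h ω)) (ω : Ω)
    (_ : ¬ S ω ≤ F (m + 1) ⊔ rest S ω), ∀ a ∈ dser H m, act a ω = ω := by
  induction m with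
  | zero =>
    intro Ω act h1 hm S hS ω hω a ha
    by_contra hne
    apply hω
    intro v hv
    have e : v = -(ρ a v - v) + ρ a v := by abel
    rw [e]
    exact Submodule.add_mem_sup
      (Submodule.neg_mem _ (hF.step 0 a ha v (by rw [hF.zero]; trivial)))
      (le_rest S hne (hS a ha ω v hv))
  | succ m ih =>
    intro Ω act h1 hm S hS ω hω a ha
    by_contra hne
    obtain ⟨v, hv, hvn⟩ : ∃ v ∈ S ω, v ∉ F (m + 1 + 1) ⊔ rest S ω := by
      by_contra h
      push Not at h
      exact hω h
    have hinv : ∀ g ω, act g⁻¹ (act g ω) = ω := fun g ω => by rw [← hm, inv_mul_cancel, h1]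
    have hinj : ∀ g ω ω', act g ω = act g ω' → ω = ω' := fun g ω ω' h => by
      rw [← hinv g ω, h, hinv]
    have hAH : dser H (m + 1) ≤ H := dser_le H _
    have key : ∀ g ∈ H, ρ g v ∉ F (m + 1 + 1) ⊔ rest S (act g ω) := by
      intro g hg hmem
      apply hvn
      have : F (m + 1 + 1) ⊔ rest S (act g ω) ≤
          (F (m + 1 + 1) ⊔ rest S ω).comap (ρ g⁻¹) := by
        apply sup_le
        · intro x hx
          exact Submodule.mem_sup_left (hF.inv _ _ (H.inv_mem hg) x hx)
        · apply rest_le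
          intro ω' hω' x hx
          refine Submodule.mem_sup_right (le_rest S ?_ (hS _ (H.inv_mem hg) ω' x hx))
          intro h
          apply hω'
          rw [← h, ← hm, mul_inv_cancel, h1]
      have h2 := this hmem
      rwa [Submodule.mem_comap, rho_inv_rho] at h2
    have two : ∀ b ∈ dser H (m + 1), act b ω = ω ∨ act b ω = act a ω := by
      intro b hb
      by_contra hcon
      push Not at hcon
      obtain ⟨hb1, hb2⟩ := hcon
      have hq := hF.quad (m + 1) ha hb v
      have hba : ρ b (ρ a v) ∈ S (act b (act a ω)) :=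
        hS b (hAH hb) _ _ (hS a (hAH ha) ω v hv)
      by_cases hc : act b (act a ω) = act a ω
      · apply key b (hAH hb)
        have e : ρ b v = -(ρ b (ρ a v - v) - (ρ a v - v)) + (ρ b (ρ a v) - ρ a v + v) := by
          simp only [map_sub]; abel
        rw [e]
        refine Submodule.add_mem_sup (Submodule.neg_mem _ hq) ?_
        refine Submodule.add_mem _ (Submodule.sub_mem _ ?_ ?_) ?_
        · exact le_rest S (by rw [hc]; exact hb2.symm) hba
        · exact le_rest S hb2.symm (hS a (hAH ha) ω v hv)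
        · exact le_rest S hb1.symm hv
      · apply key a (hAH ha)
        have e : ρ a v = -(ρ b (ρ a v - v) - (ρ a v - v)) + (ρ b (ρ a v) - ρ b v + v) := by
          simp only [map_sub]; abel
        rw [e]
        refine Submodule.add_mem_sup (Submodule.neg_mem _ hq) ?_
        refine Submodule.add_mem _ (Submodule.sub_mem _ ?_ ?_) ?_
        · exact le_rest S hc hba
        · exact le_rest S hb2 (hS b (hAH hb) ω v hv)
        · exact le_rest S (Ne.symm hne) hv
    let orb : Ω → Set Ω := fun x => {y | ∃ b ∈ dser H (m + 1), y = act b x}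
    have orb_self : ∀ x, x ∈ orb x := fun x => ⟨1, Subgroup.one_mem _, (h1 x).symm⟩
    have orb_eq : ∀ x y, y ∈ orb x → orb y = orb x := by
      rintro x y ⟨b, hb, rfl⟩
      ext z
      constructor
      · rintro ⟨c, hc, rfl⟩
        exact ⟨c * b, Subgroup.mul_mem _ hc hb, (hm _ _ _).symm⟩
      · rintro ⟨c, hc, rfl⟩
        exact ⟨c * b⁻¹, Subgroup.mul_mem _ hc (Subgroup.inv_mem _ hb), by rw [hm, hinv]⟩
    have orb_act : ∀ h ∈ H, ∀ x, act h '' orb x = orb (act h x) := by
      intro h hh x
      ext z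
      constructor
      · rintro ⟨_, ⟨b, hb, rfl⟩, rfl⟩
        exact ⟨h * b * h⁻¹, conj_mem_dser hh hb, by rw [hm, hm, hinv]⟩
      · rintro ⟨b, hb, rfl⟩
        refine ⟨act (h⁻¹ * b * h⁻¹⁻¹) x, ⟨_, conj_mem_dser (H.inv_mem hh) hb, rfl⟩, ?_⟩
        rw [← hm, ← hm]
        congr 1
        group
    let S' : Set Ω → Submodule k V := fun δ => ⨆ x : {x // orb x = δ}, S x
    have hS' : ∀ h ∈ H, ∀ δ, ∀ w ∈ S' δ, ρ h w ∈ S' (act h '' δ) := by
      intro h hh δ
      show S' δ ≤ (S' (act h '' δ)).comap (ρ h)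
      apply iSup_le
      rintro ⟨x, hx⟩ w hw
      exact le_iSup (fun y : {y // orb y = act h '' δ} => S y)
        ⟨act h x, by rw [← orb_act h hh, hx]⟩ (hS h hh x w hw)
    have hfix := ih (Set Ω) (fun g δ => act g '' δ) (fun δ => by simp [h1])
      (fun g g' δ => by simp [Set.image_image, hm]) S' hS' (orb ω) (by
        intro hle
        have hv' : v ∈ S' (orb ω) := le_iSup (fun y : {y // orb y = orb ω} => S y) ⟨ω, rfl⟩ hv
        have hle2 : F (m + 1) ⊔ rest S' (orb ω) ≤
            (F (m + 1 + 1) ⊔ rest S ω).comap (ρ a - 1) := by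
          apply sup_le
          · intro x hx
            exact Submodule.mem_sup_left (hF.step _ a ha x hx)
          · apply rest_le
            intro δ hδ
            apply iSup_le
            rintro ⟨x, hx⟩ w hw
            have hx1 : x ≠ ω := by rintro rfl; exact hδ hx.symm
            have hx2 : act a x ≠ ω := by
              intro h
              apply hδ
              rw [← hx, ← h]
              exact (orb_eq x _ ⟨a, ha, rfl⟩).symm
            exact Submodule.mem_sup_right (Submodule.sub_mem _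
              (le_rest S hx2 (hS a (hAH ha) x w hw)) (le_rest S hx1 hw))
        have h3 : ρ a v - v ∈ F (m + 1 + 1) ⊔ rest S ω := hle2 (hle hv')
        apply hvn
        have e : v = -(ρ a v - v) + ρ a v := by abel
        rw [e]
        exact Submodule.add_mem _ (Submodule.neg_mem _ h3)
          (Submodule.mem_sup_right (le_rest S hne (hS a (hAH ha) ω v hv))))
    have horb : ∀ y, y ∈ orb ω ↔ y = ω ∨ y = act a ω := by
      intro y
      constructor
      · rintro ⟨b, hb, rfl⟩; exact two b hb
      · rintro (rfl | rfl)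
        · exact orb_self _
        · exact ⟨a, ha, rfl⟩
    have hB : ∀ b ∈ dser H m, ∀ y, (y = ω ∨ y = act a ω) → (act b y = ω ∨ act b y = act a ω) := by
      intro b hb y hy
      rw [← horb] at hy ⊢
      have := hfix b hb
      rw [← this]
      exact ⟨y, hy, rfl⟩
    have hcomm : ∀ b ∈ dser H m, ∀ c ∈ dser H m, ∀ y, (y = ω ∨ y = act a ω) →
        act b (act c y) = act c (act b y) := by
      intro b hb c hc y hy
      have b1 := hB b hb _ (Or.inl rfl)
      have b2 := hB b hb _ (Or.inr rfl)
      have c1 := hB c hc _ (Or.inl rfl)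
      have c2 := hB c hc _ (Or.inr rfl)
      have b3 : act b ω ≠ act b (act a ω) := fun h => hne (hinj _ _ _ h).symm
      have c3 : act c ω ≠ act c (act a ω) := fun h => hne (hinj _ _ _ h).symm
      have := two_point_comm b1 b2 c1 c2 b3 c3
      rcases hy with rfl | rfl
      · exact this.1
      · exact this.2
    let K : Subgroup L :=
      { carrier := {g | act g ω = ω}
        one_mem' := h1 ω
        mul_mem' := fun {x y} hx hy => by
          show act (x * y) ω = ω
          rw [hm, hy, hx]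
        inv_mem' := fun {x} hx => by
          show act x⁻¹ ω = ω
          conv_lhs => rw [← hx]
          exact hinv x ω }
    have : dser H (m + 1) ≤ K := by
      apply commutator_le.mpr
      intro b hb c hc
      show act ⁅b, c⁆ ω = ω
      have h4 := hB _ ((dser H m).inv_mem hb) _ (hB _ ((dser H m).inv_mem hc) ω (Or.inl rfl))
      rw [commutatorElement_def, hm, hm, hm, hcomm b hb c hc _ h4, ← hm b, mul_inv_cancel, h1,
        ← hm, mul_inv_cancel, h1]
    exact hne (this ha)

end Pool.Agent.Lib.MP_fe96bf_al
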